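import Mathlib

/-!
Definitions for MP_f88263_an, Q1: measures of polynomial growth, Calderón-Zygmund kernels,
operators associated with a kernel, weights, the characteristic `A_2^0(μ)` and the norm
of `L^2(w dμ)`. They are written for a metric measurable space `X`, an exponent `n` and real or
complex scalars, and used with `X = ℝ^d`.
-/

open MeasureTheory Metric
open scoped ENNReal

namespace Pool.Agent.Lib.MP_f88263_an.Q1

variable {X 𝕜 : Type} [MetricSpace X] [MeasurableSpace X] [RCLike 𝕜]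

/-- Polynomial growth `μ(B(x,r)) ≤ C r^n`. -/
def HasGrowth (n : ℕ) (C : ℝ) (μ : Measure X) : Prop :=
  ∀ x r, 0 < r → μ (ball x r) ≤ ENNReal.ofReal (C * r ^ n)

/-- Calderón-Zygmund kernel of dimension `n` with smoothness `δ` and constant `C`. -/
def IsCZKernel {X 𝕜 : Type} [MetricSpace X] [RCLike 𝕜] (n : ℕ) (δ C : ℝ) (K : X → X → 𝕜) : Prop :=
  (∀ x y, x ≠ y → ‖K x y‖ ≤ C / dist x y ^ n) ∧
  ∀ x x' y, x ≠ y → 2 * dist x x' ≤ dist x y →
    ‖K x y - K x' y‖ + ‖K y x - K y x'‖ ≤ C * dist x x' ^ δ / dist x y ^ ((n : ℝ) + δ)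

/-- A bounded linear operator on `L^2(μ)`. -/
structure L2Operator {X : Type} (𝕜 : Type) [MeasurableSpace X] [RCLike 𝕜] (μ : Measure X) where
  /-- the continuous linear map -/
  op : Lp 𝕜 2 μ →L[𝕜] Lp 𝕜 2 μ

/-- The value `T f`, as a function. -/
noncomputable def L2Operator.app {X 𝕜 : Type} [MeasurableSpace X] [RCLike 𝕜] {μ : Measure X}
    (T : L2Operator 𝕜 μ) (f : Lp 𝕜 2 μ) : X → 𝕜 :=
  T.op f

/-- The operator norm of `T` on `L^2(μ)`. -/
noncomputable def L2Operator.norm {X 𝕜 : Type} [MeasurableSpace X] [RCLike 𝕜] {μ : Measure X}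
    (T : L2Operator 𝕜 μ) : ℝ :=
  ContinuousLinearMap.opNorm T.op

/-- `T` is associated with `K`: for compactly supported `f ∈ L^2(μ)`,
`T f (x) = ∫ K(x,y) f(y) dμ(y)` for a.e. `x` outside the support of `f`. -/
def IsAssociated {μ : Measure X} (T : L2Operator 𝕜 μ) (K : X → X → 𝕜) : Prop :=
  ∀ (f : X → 𝕜) (hf : MemLp f 2 μ), HasCompactSupport f →
    ∀ᵐ x ∂μ, x ∉ tsupport f → T.app (hf.toLp f) x = ∫ y, K x y * f y ∂μ

/-- A weight: positive a.e., with `w` and `w⁻¹` locally integrable. -/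
def IsWeight (μ : Measure X) (w : X → ℝ) : Prop :=
  (∀ᵐ x ∂μ, 0 < w x) ∧ LocallyIntegrable w μ ∧ LocallyIntegrable (fun x => (w x)⁻¹) μ

/-- The characteristic `[w]_{A_2^0(μ)}`, a supremum over all balls. -/
noncomputable def a2Char (μ : Measure X) (w : X → ℝ) : ℝ≥0∞ :=
  ⨆ (x : X) (r : ℝ) (_ : 0 < r),
    ((∫⁻ y in ball x r, ENNReal.ofReal (w y) ∂μ) / μ (ball x r)) *
      ((∫⁻ y in ball x r, ENNReal.ofReal (w y)⁻¹ ∂μ) / μ (ball x r))

/-- The norm of `L^2(w dμ)`. -/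
noncomputable def wNorm {X 𝕜 : Type} [MeasurableSpace X] [RCLike 𝕜] (μ : Measure X) (w : X → ℝ)
    (f : X → 𝕜) : ℝ≥0∞ :=
  eLpNorm f 2 (μ.withDensity fun x => ENNReal.ofReal (w x))

/-- The bound `‖T f‖ ≤ A ‖f‖` in `L^2(w dμ)` for all `f ∈ L^2(μ)`. -/
def L2Operator.WeightedBound {X 𝕜 : Type} [MeasurableSpace X] [RCLike 𝕜] {μ : Measure X}
    (T : L2Operator 𝕜 μ) (w : X → ℝ) (A : ℝ≥0∞) : Prop :=
  ∀ f : Lp 𝕜 2 μ, wNorm μ w (T.app f) ≤ A * wNorm μ w f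

end Pool.Agent.Lib.MP_f88263_an.Q1
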