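import Mathlib

-- part Pool.Agent.Lib.MP_f88263_an.A2.Grid
section

/-! An abstract system of nested cubes with ratio 1000. -/

open MeasureTheory Metric Set
open scoped ENNReal

namespace Pool.Agent.Lib.MP_f88263_an.A2

/-- A system of nested cubes on a metric space. -/
structure Grid (X ι : Type) [MetricSpace X] [MeasurableSpace X] (N M : ℕ) where
  lev : ι → ℤ
  cell : ℤ → X → ι
  ctr : ι → X
  r : ℤ → ℝ
  col : ι → Fin M
  r_pos : ∀ k, 0 < r k
  r_succ : ∀ k, r (k + 1) = r k / 1000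
  lev_cell : ∀ k x, lev (cell k x) = k
  cell_ctr : ∀ Q, cell (lev Q) (ctr Q) = Q
  dist_ctr : ∀ k x, dist x (ctr (cell k x)) < r k
  nested_succ : ∀ k x y, cell (k + 1) x = cell (k + 1) y → cell k x = cell k y
  meas : ∀ k Q, MeasurableSet {x | cell k x = Q}
  count : ∀ k y, ∃ s : Finset ι, s.card ≤ N ∧
    ∀ Q, lev Q = k → dist (ctr Q) y < 1000 * r k → Q ∈ s
  sep : ∀ Q Q', lev Q = lev Q' → col Q = col Q' → Q ≠ Q' →
    1000 * r (lev Q) ≤ dist (ctr Q) (ctr Q')

variable {X ι : Type} [MetricSpace X] [MeasurableSpace X] {N M : ℕ} (G : Grid X ι N M)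

namespace Grid

/-- The points of a cube. -/
def S (Q : ι) : Set X := {x | G.cell (G.lev Q) x = Q}

/-- The dilated ball of a cube. -/
def B (t : ℝ) (Q : ι) : Set X := ball (G.ctr Q) (t * G.r (G.lev Q))

/-- Inclusion of cubes. -/
def le (P Q : ι) : Prop := G.lev Q ≤ G.lev P ∧ G.cell (G.lev Q) (G.ctr P) = Q

theorem r_add_nat (k : ℤ) (n : ℕ) : G.r (k + n) = G.r k / 1000 ^ n := by
  induction n with
  | zero => simp
  | succ n ih => rw [Nat.cast_succ, ← add_assoc, G.r_succ, ih, pow_succ, div_div]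

theorem r_anti {k l : ℤ} (h : k ≤ l) : G.r l ≤ G.r k := by
  obtain ⟨n, rfl⟩ := Int.le.dest h
  rw [G.r_add_nat]
  exact div_le_self (G.r_pos k).le (one_le_pow₀ (by norm_num))

theorem r_lt {k l : ℤ} (h : k < l) : G.r l ≤ G.r k / 1000 := by
  rw [← G.r_succ]; exact G.r_anti h

theorem exists_r_lt (k : ℤ) {ε : ℝ} (hε : 0 < ε) : ∃ l, k ≤ l ∧ G.r l < ε := by
  obtain ⟨n, hn⟩ := pow_unbounded_of_one_lt (G.r k / ε) (by norm_num : (1 : ℝ) < 1000)
  refine ⟨k + n, by omega, ?_⟩
  rw [G.r_add_nat, div_lt_iff₀ (by positivity)]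
  rw [div_lt_iff₀ hε] at hn
  linarith

theorem exists_lt_r (k : ℤ) (R : ℝ) : ∃ l, l ≤ k ∧ R < G.r l := by
  obtain ⟨n, hn⟩ := pow_unbounded_of_one_lt (R / G.r k) (by norm_num : (1 : ℝ) < 1000)
  refine ⟨k - n, by omega, ?_⟩
  have h := G.r_add_nat (k - n) n
  rw [sub_add_cancel, eq_div_iff (by positivity)] at h
  rw [div_lt_iff₀ (G.r_pos k)] at hn
  linarith

theorem nested {k l : ℤ} (h : k ≤ l) {x y : X} (e : G.cell l x = G.cell l y) :
    G.cell k x = G.cell k y := by
  obtain ⟨n, rfl⟩ := Int.le.dest h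
  induction n with
  | zero => simpa using e
  | succ n ih =>
    refine ih (by omega) (G.nested_succ _ _ _ ?_)
    simpa only [Nat.cast_succ, add_assoc] using e

theorem mem_cell (k : ℤ) (x : X) : x ∈ G.S (G.cell k x) := by
  simp [S, G.lev_cell]

theorem ctr_mem (Q : ι) : G.ctr Q ∈ G.S Q := G.cell_ctr Q

theorem measurableSet_S (Q : ι) : MeasurableSet (G.S Q) := G.meas _ _

theorem cell_ctr_cell {k l : ℤ} (h : k ≤ l) (x : X) :
    G.cell k (G.ctr (G.cell l x)) = G.cell k x := by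
  refine G.nested h ?_
  have := G.cell_ctr (G.cell l x)
  rwa [G.lev_cell] at this

theorem cell_eq_of_mem {Q : ι} {x : X} (hx : x ∈ G.S Q) {k : ℤ} (hk : k ≤ G.lev Q) :
    G.cell k x = G.cell k (G.ctr Q) :=
  G.nested hk (by rw [G.cell_ctr]; exact hx)

theorem le_refl' (Q : ι) : G.le Q Q := ⟨le_rfl, G.cell_ctr Q⟩

theorem cell_le_cell {k l : ℤ} (h : k ≤ l) (x : X) : G.le (G.cell l x) (G.cell k x) := by
  refine ⟨by rwa [G.lev_cell, G.lev_cell], ?_⟩
  rw [G.lev_cell, G.cell_ctr_cell h]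

theorem S_mono {P Q : ι} (h : G.le P Q) : G.S P ⊆ G.S Q := fun x hx => by
  change G.cell (G.lev Q) x = Q
  rw [G.cell_eq_of_mem hx h.1, h.2]

theorem le_trans' {P Q R : ι} (h : G.le P Q) (h' : G.le Q R) : G.le P R :=
  ⟨h'.1.trans h.1, G.S_mono h' h.2⟩

theorem le_of_mem {P Q : ι} {x : X} (hP : x ∈ G.S P) (hQ : x ∈ G.S Q) (h : G.lev Q ≤ G.lev P) :
    G.le P Q := ⟨h, by rw [← G.cell_eq_of_mem hP h]; exact hQ⟩

theorem eq_of_le {P Q : ι} (h : G.le P Q) (e : G.lev P = G.lev Q) : P = Q := by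
  have := h.2
  rwa [← e, G.cell_ctr] at this

theorem le_total_of_le {P Q R : ι} (h : G.le P Q) (h' : G.le P R) : G.le Q R ∨ G.le R Q := by
  rcases le_total (G.lev Q) (G.lev R) with e | e
  · exact Or.inr (G.le_of_mem h'.2 h.2 e)
  · exact Or.inl (G.le_of_mem h.2 h'.2 e)

theorem dist_lt_of_mem {Q : ι} {x : X} (hx : x ∈ G.S Q) : dist x (G.ctr Q) < G.r (G.lev Q) := by
  have := G.dist_ctr (G.lev Q) x
  rwa [hx] at this

theorem S_subset_B {t : ℝ} (ht : 1 ≤ t) (Q : ι) : G.S Q ⊆ G.B t Q := fun _ hx =>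
  (G.dist_lt_of_mem hx).trans_le (le_mul_of_one_le_left (G.r_pos _).le ht)

theorem B_mono {s t : ℝ} (h : s ≤ t) (Q : ι) : G.B s Q ⊆ G.B t Q :=
  ball_subset_ball (mul_le_mul_of_nonneg_right h (G.r_pos _).le)

theorem B_subset_of_lt {P Q : ι} (h : G.le P Q) (hl : G.lev Q < G.lev P) {s t : ℝ} (hs : 0 ≤ s)
    (hst : 1 + s / 1000 ≤ t) : G.B s P ⊆ G.B t Q := by
  intro y hy
  have h1 : dist y (G.ctr P) < s * G.r (G.lev P) := hy
  have h2 := G.dist_lt_of_mem (Q := Q) (x := G.ctr P) h.2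
  have h3 := mul_le_mul_of_nonneg_left (G.r_lt hl) hs
  have h4 := mul_le_mul_of_nonneg_right hst (G.r_pos (G.lev Q)).le
  have h5 := dist_triangle y (G.ctr P) (G.ctr Q)
  change dist y (G.ctr Q) < t * G.r (G.lev Q)
  linarith

theorem B_subset_of_le {P Q : ι} (h : G.le P Q) {t : ℝ} (ht : 2 ≤ t) : G.B t P ⊆ G.B t Q := by
  rcases h.1.eq_or_lt with e | e
  · rw [G.eq_of_le h e.symm]
  · exact G.B_subset_of_lt h e (by linarith) (by linarith)

theorem isOpen_B (t : ℝ) (Q : ι) : IsOpen (G.B t Q) := isOpen_ball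

theorem measurableSet_B [OpensMeasurableSpace X] (t : ℝ) (Q : ι) : MeasurableSet (G.B t Q) :=
  measurableSet_ball

/-- Whitney cubes of a set `U` below the level `k₀`. -/
def Wh (U : Set X) (k₀ : ℤ) (D : ι) : Prop :=
  k₀ ≤ G.lev D ∧ G.B 100 D ⊆ U ∧
    (G.lev D = k₀ ∨ ¬ G.B 100 (G.cell (G.lev D - 1) (G.ctr D)) ⊆ U)

theorem exists_wh {U : Set X} {k₀ : ℤ} {P : ι} (hk : k₀ ≤ G.lev P) (hP : G.B 100 P ⊆ U) :
    ∃ D, G.Wh U k₀ D ∧ G.le P D := by
  obtain ⟨k, ⟨hk1, hk2, hk3⟩, hmin⟩ := Int.exists_least_of_bdd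
    (P := fun k => k₀ ≤ k ∧ k ≤ G.lev P ∧ G.B 100 (G.cell k (G.ctr P)) ⊆ U)
    ⟨k₀, fun k h => h.1⟩ ⟨G.lev P, hk, le_rfl, by rwa [G.cell_ctr]⟩
  refine ⟨G.cell k (G.ctr P), ⟨by rwa [G.lev_cell], hk3, ?_⟩, by rwa [G.lev_cell],
    by rw [G.lev_cell]⟩
  rw [G.lev_cell]
  by_contra hcon
  push Not at hcon
  rw [G.cell_ctr_cell (by omega)] at hcon
  have := hmin (k - 1) ⟨by omega, by omega, hcon.2⟩
  omega

theorem exists_wh_of_isOpen {U : Set X} (hU : IsOpen U) (k₀ : ℤ) {x : X} (hx : x ∈ U) :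
    ∃ D, G.Wh U k₀ D ∧ x ∈ G.S D := by
  obtain ⟨ε, hε, hεU⟩ := Metric.isOpen_iff.1 hU x hx
  obtain ⟨l, hl, hlε⟩ := G.exists_r_lt k₀ (ε := ε / 101) (by positivity)
  have : G.B 100 (G.cell l x) ⊆ U := by
    refine Subset.trans (fun y hy => ?_) hεU
    have h1 : dist y (G.ctr (G.cell l x)) < 100 * G.r (G.lev (G.cell l x)) := hy
    rw [G.lev_cell] at h1
    have h2 := G.dist_ctr l x
    have h3 := dist_triangle_right y x (G.ctr (G.cell l x))
    rw [mem_ball]
    linarith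
  obtain ⟨D, hD, hle⟩ := G.exists_wh (k₀ := k₀) (by rwa [G.lev_cell]) this
  exact ⟨D, hD, G.S_mono hle (G.mem_cell l x)⟩

theorem wh_eq_of_le {U : Set X} {k₀ : ℤ} {D D' : ι} (h : G.Wh U k₀ D) (h' : G.Wh U k₀ D')
    (hle : G.le D D') : D = D' := by
  rcases hle.1.eq_or_lt with e | e
  · exact G.eq_of_le hle e.symm
  · exfalso
    rcases h.2.2 with h1 | h1
    · have := h'.1; omega
    · refine h1 (Subset.trans (G.B_subset_of_le ?_ (by norm_num)) h'.2.1)
      have := G.cell_le_cell (show G.lev D' ≤ G.lev D - 1 by omega) (G.ctr D)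
      rwa [hle.2] at this

theorem wh_lev_le {U : Set X} {k₀ : ℤ} {D D' : ι} (h : G.Wh U k₀ D) (h' : G.Wh U k₀ D')
    {y : X} (hy : y ∈ G.B 50 D) (hy' : y ∈ G.B 50 D') : G.lev D' ≤ G.lev D + 1 := by
  by_contra hcon
  rcases h'.2.2 with h1 | h1
  · have := h.1; omega
  · refine h1 (Subset.trans (fun z hz => ?_) h.2.1)
    have a1 : dist z (G.ctr (G.cell (G.lev D' - 1) (G.ctr D'))) <
      100 * G.r (G.lev (G.cell (G.lev D' - 1) (G.ctr D'))) := hz
    rw [G.lev_cell] at a1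
    have a2 := G.dist_ctr (G.lev D' - 1) (G.ctr D')
    have a3 : dist y (G.ctr D') < 50 * G.r (G.lev D') := hy'
    have a4 : dist y (G.ctr D) < 50 * G.r (G.lev D) := hy
    have a5 := G.r_anti (show G.lev D' - 1 ≤ G.lev D' by omega)
    have a6 := G.r_lt (show G.lev D < G.lev D' - 1 by omega)
    have a7 := dist_triangle_right z (G.ctr D') (G.ctr (G.cell (G.lev D' - 1) (G.ctr D')))
    have a8 := dist_triangle_right z y (G.ctr D')
    have a9 := dist_triangle z y (G.ctr D)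
    have a10 := G.r_pos (G.lev D)
    change dist z (G.ctr D) < 100 * G.r (G.lev D)
    linarith

theorem wh_overlap (U : Set X) (k₀ : ℤ) (y : X) :
    ∃ s : Finset ι, s.card ≤ 3 * N ∧ ∀ D, G.Wh U k₀ D → y ∈ G.B 50 D → D ∈ s := by
  classical
  by_cases h : ∃ D, G.Wh U k₀ D ∧ y ∈ G.B 50 D
  · obtain ⟨D, hD, hy⟩ := h
    obtain ⟨s1, c1, h1⟩ := G.count (G.lev D - 1) y
    obtain ⟨s2, c2, h2⟩ := G.count (G.lev D) y
    obtain ⟨s3, c3, h3⟩ := G.count (G.lev D + 1) y
    refine ⟨s1 ∪ s2 ∪ s3, ?_, fun D' hD' hy' => ?_⟩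
    · have := Finset.card_union_le (s1 ∪ s2) s3
      have := Finset.card_union_le s1 s2
      omega
    · have a1 := G.wh_lev_le hD hD' hy hy'
      have a2 := G.wh_lev_le hD' hD hy' hy
      have a3 : dist (G.ctr D') y < 1000 * G.r (G.lev D') := by
        have : dist y (G.ctr D') < 50 * G.r (G.lev D') := hy'
        have := G.r_pos (G.lev D')
        rw [dist_comm]; linarith
      simp only [Finset.mem_union]
      rcases (show G.lev D' = G.lev D - 1 ∨ G.lev D' = G.lev D ∨ G.lev D' = G.lev D + 1 by omega)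
        with e | e | e
      · exact Or.inl (Or.inl (h1 _ e (e ▸ a3)))
      · exact Or.inl (Or.inr (h2 _ e (e ▸ a3)))
      · exact Or.inr (h3 _ e (e ▸ a3))
  · exact ⟨∅, by simp, fun D hD hy => (h ⟨D, hD, hy⟩).elim⟩

theorem sum_wh_le [OpensMeasurableSpace X] [Countable ι] (μ : Measure X) (U : Set X) (k₀ : ℤ)
    (𝒲 : Set ι) (h𝒲 : ∀ D ∈ 𝒲, G.Wh U k₀ D) {V : Set X} (hV : MeasurableSet V)
    (hsub : ∀ D ∈ 𝒲, G.B 50 D ⊆ V) :
    ∑' D, 𝒲.indicator (fun D => μ (G.B 50 D)) D ≤ (3 * N : ℕ) * μ V := by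
  classical
  have e : ∀ D, 𝒲.indicator (fun D => μ (G.B 50 D)) D =
      ∫⁻ y, (if D ∈ 𝒲 ∧ y ∈ G.B 50 D then 1 else 0) ∂μ := by
    intro D
    by_cases hD : D ∈ 𝒲
    · rw [indicator_of_mem hD, ← lintegral_indicator_one (G.measurableSet_B 50 D)]
      simp [hD, indicator_apply]
    · simp [hD]
  simp only [e]
  rw [← lintegral_tsum]
  · rw [← lintegral_indicator_const hV]
    refine lintegral_mono fun y => ?_
    by_cases hy : y ∈ V
    · obtain ⟨s, hs, hs'⟩ := G.wh_overlap U k₀ y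
      rw [indicator_of_mem hy, tsum_eq_sum (s := s)]
      · refine (Finset.sum_le_card_nsmul _ _ 1 fun D _ => ?_).trans ?_
        · split_ifs <;> simp
        · simpa using (show ((s.card : ℕ) : ℝ≥0∞) ≤ (3 * N : ℕ) by exact_mod_cast hs)
      · intro D hD
        rw [if_neg fun h => hD (hs' D (h𝒲 D h.1) h.2)]
    · have : ∀ D, (if D ∈ 𝒲 ∧ y ∈ G.B 50 D then (1 : ℝ≥0∞) else 0) = 0 := fun D =>
        if_neg fun h => hy (hsub D h.1 h.2)
      simp [this]
  · intro D
    by_cases hD : D ∈ 𝒲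
    · simp only [hD, true_and]
      exact (Measurable.ite (G.measurableSet_B 50 D) measurable_const measurable_const).aemeasurable
    · simp [hD]

end Grid

end Pool.Agent.Lib.MP_f88263_an.A2
end

-- part Pool.Agent.Lib.MP_f88263_an.A2.Chain
section

/-! Doubling cubes and chains of non-doubling cubes. -/

open MeasureTheory Metric Set
open scoped ENNReal

namespace Pool.Agent.Lib.MP_f88263_an.A2

/-- The doubling constant. -/
noncomputable def bt (N d : ℕ) : ℝ≥0∞ := 2 * ((N : ℝ≥0∞) + 1000 ^ d)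

theorem bt_ne_top (N d : ℕ) : bt N d ≠ ∞ := by unfold bt; finiteness

theorem one_le_bt (N d : ℕ) : 1 ≤ bt N d := by
  unfold bt
  exact one_le_mul_of_one_le_of_one_le (by norm_num)
    ((one_le_pow₀ (by norm_num)).trans le_add_self)

theorem bt_ne_zero (N d : ℕ) : bt N d ≠ 0 := (zero_lt_one.trans_le (one_le_bt N d)).ne'

/-- Polynomial growth. -/
def Growth {X : Type} [MetricSpace X] [MeasurableSpace X] (μ : Measure X) (d : ℕ) (C : ℝ) : Prop :=
  ∀ x r, 0 < r → μ (ball x r) ≤ ENNReal.ofReal (C * r ^ d)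

/-- The bound for densities. -/
noncomputable def Th (d : ℕ) (C : ℝ) : ℝ≥0∞ := ENNReal.ofReal (C * 50 ^ d)

theorem tsum_fiber_le {ι : Type} (p : ι → ι) (A A' : Set ι) (g : ι → ℝ≥0∞) (N : ℕ)
    (hA : ∀ S ∈ A, p S ∈ A')
    (h : ∀ S', ∃ s : Finset ι, s.card ≤ N ∧ ∀ S ∈ A, p S = S' → S ∈ s) :
    ∑' S, A.indicator (fun S => g (p S)) S ≤ N * ∑' S', A'.indicator g S' := by
  classical
  calc ∑' S, A.indicator (fun S => g (p S)) S
      ≤ ∑' S, ∑' S', (if S ∈ A ∧ p S = S' then A'.indicator g S' else 0) := by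
        refine ENNReal.tsum_le_tsum fun S => ?_
        by_cases hS : S ∈ A
        · refine le_trans ?_ (ENNReal.le_tsum (p S))
          simp [hS, hA S hS]
        · simp [hS]
    _ = ∑' S', ∑' S, (if S ∈ A ∧ p S = S' then A'.indicator g S' else 0) := ENNReal.tsum_comm
    _ ≤ _ := by
        rw [← ENNReal.tsum_mul_left]
        refine ENNReal.tsum_le_tsum fun S' => ?_
        obtain ⟨s, hs, hs'⟩ := h S'
        rw [tsum_eq_sum (s := s) fun S hS => if_neg fun h => hS (hs' S h.1 h.2)]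
        refine (Finset.sum_le_card_nsmul _ _ (A'.indicator g S') fun D _ => ?_).trans ?_
        · split_ifs <;> simp
        · rw [nsmul_eq_mul]
          gcongr

variable {X ι : Type} [MetricSpace X] [MeasurableSpace X] {N M : ℕ} (G : Grid X ι N M)

namespace Grid

/-- Doubling cubes. -/
def Dbl (μ : Measure X) (d : ℕ) (Q : ι) : Prop := μ (G.B 50 Q) ≤ bt N d * μ (G.B 3 Q)

/-- Volume scale. -/
noncomputable def V (d : ℕ) (k : ℤ) : ℝ≥0∞ := ENNReal.ofReal (G.r k ^ d)

/-- Density. -/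
noncomputable def θ (μ : Measure X) (d : ℕ) (Q : ι) : ℝ≥0∞ := μ (G.B 50 Q) / G.V d (G.lev Q)

theorem V_ne_zero (d : ℕ) (k : ℤ) : G.V d k ≠ 0 :=
  (ENNReal.ofReal_pos.2 (pow_pos (G.r_pos k) d)).ne'

theorem V_ne_top (d : ℕ) (k : ℤ) : G.V d k ≠ ∞ := ENNReal.ofReal_ne_top

theorem V_succ (d : ℕ) (k : ℤ) : G.V d k = 1000 ^ d * G.V d (k + 1) := by
  have := G.r_pos k
  rw [V, V, G.r_succ, show (1000 : ℝ≥0∞) = ENNReal.ofReal 1000 by simp,
    ← ENNReal.ofReal_pow (by norm_num), ← ENNReal.ofReal_mul (by positivity), ← mul_pow]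
  congr 2
  ring

variable {G} {μ : Measure X} {d : ℕ} {C : ℝ}

theorem meas_B_le (hg : Growth μ d C) (Q : ι) : μ (G.B 50 Q) ≤ Th d C * G.V d (G.lev Q) := by
  have := G.r_pos (G.lev Q)
  refine (hg _ _ (by positivity)).trans (le_of_eq ?_)
  rw [Th, V, ← ENNReal.ofReal_mul' (by positivity), mul_pow, mul_assoc]

theorem meas_B_ne_top (hg : Growth μ d C) (t : ℝ) (Q : ι) : μ (G.B t Q) ≠ ∞ := by
  rcases le_or_gt (t * G.r (G.lev Q)) 0 with h | h
  · simp [B, ball_eq_empty.2 h]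
  · exact ne_top_of_le_ne_top ENNReal.ofReal_ne_top (hg _ _ h)

theorem θ_le (hg : Growth μ d C) (Q : ι) : G.θ μ d Q ≤ Th d C :=
  ENNReal.div_le_of_le_mul (meas_B_le hg Q)

theorem step_le {P Q : ι} (h : G.le P Q) (hl : G.lev Q < G.lev P) (hQ : ¬ G.Dbl μ d Q) :
    bt N d * μ (G.B 50 P) ≤ μ (G.B 50 Q) :=
  (mul_le_mul_right (measure_mono (G.B_subset_of_lt h hl (by norm_num) (by norm_num))) _).trans
    (not_le.1 hQ).le

theorem θ_half {k : ℤ} {x : X} (h : ¬ G.Dbl μ d (G.cell k x)) :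
    G.θ μ d (G.cell (k + 1) x) ≤ 2⁻¹ * G.θ μ d (G.cell k x) := by
  have h1 := step_le (G.cell_le_cell (show k ≤ k + 1 by omega) x) (by simp [G.lev_cell]) h
  have h2 : 2 * 1000 ^ d * μ (G.B 50 (G.cell (k + 1) x)) ≤ μ (G.B 50 (G.cell k x)) :=
    le_trans (by unfold bt; gcongr; exact le_add_self) h1
  rw [θ, θ, G.lev_cell, G.lev_cell, G.V_succ d k]
  refine le_trans (le_of_eq ?_) (mul_le_mul_right (ENNReal.div_le_div_right h2 _) _)
  rw [mul_assoc, mul_div_assoc, ← mul_assoc, ENNReal.inv_mul_cancel (by norm_num) (by norm_num),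
    one_mul, ENNReal.mul_div_mul_left _ _ (by simp) (by finiteness)]

theorem θ_pow (hg : Growth μ d C) (k : ℤ) (x : X) (j : ℕ)
    (h : ∀ n : ℕ, n < j → ¬ G.Dbl μ d (G.cell (k + n) x)) :
    G.θ μ d (G.cell (k + j) x) ≤ Th d C * 2⁻¹ ^ j := by
  induction j with
  | zero => simpa using θ_le hg _
  | succ j ih =>
    rw [Nat.cast_succ, ← add_assoc]
    refine (θ_half (h j (by omega))).trans ?_
    rw [pow_succ, ← mul_assoc, mul_comm]
    gcongr
    exact ih fun n hn => h n (by omega)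

theorem θ_sum (hg : Growth μ d C) (k : ℤ) (x : X) (m : ℕ)
    (h : ∀ n : ℕ, 1 ≤ n → n + 1 < m → ¬ G.Dbl μ d (G.cell (k + n) x)) :
    ∑ n ∈ Finset.range m, G.θ μ d (G.cell (k + n) x) ≤ 3 * Th d C := by
  rcases m with _ | m
  · simp
  rw [Finset.sum_range_succ']
  have h1 : ∑ n ∈ Finset.range m, G.θ μ d (G.cell (k + (n + 1 : ℕ)) x) ≤ Th d C * 2 := by
    calc ∑ n ∈ Finset.range m, G.θ μ d (G.cell (k + (n + 1 : ℕ)) x)
        ≤ ∑ n ∈ Finset.range m, Th d C * 2⁻¹ ^ n := by
          refine Finset.sum_le_sum fun n hn => ?_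
          have := θ_pow (G := G) hg (k + 1) x n fun i hi => by
            have := h (i + 1) (by omega) (by have := Finset.mem_range.1 hn; omega)
            rwa [Nat.cast_succ, add_comm (i : ℤ), ← add_assoc] at this
          rwa [Nat.cast_succ, add_comm (n : ℤ), ← add_assoc]
      _ ≤ ∑' n, Th d C * 2⁻¹ ^ n := ENNReal.sum_le_tsum _
      _ = _ := by rw [ENNReal.tsum_mul_left, ENNReal.tsum_geometric_two]
  calc _ ≤ Th d C * 2 + Th d C := add_le_add h1 (θ_le hg _)
    _ = _ := by ring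

theorem exists_dbl (hg : Growth μ d C) (j : ℤ) (x : X) :
    ∃ k ≤ j, G.Dbl μ d (G.cell k x) := by
  by_contra hcon
  push Not at hcon
  have h1 : ∀ n : ℕ, G.θ μ d (G.cell j x) ≤ Th d C * 2⁻¹ ^ n := fun n => by
    have := θ_pow (G := G) hg (j - n) x n fun i hi => hcon _ (by omega)
    rwa [sub_add_cancel] at this
  have h2 : Filter.Tendsto (fun n : ℕ => Th d C * 2⁻¹ ^ n) Filter.atTop (nhds 0) := by
    have := ENNReal.Tendsto.const_mul (a := Th d C)
      (ENNReal.tendsto_pow_atTop_nhds_zero_of_lt_one (r := 2⁻¹) (by norm_num))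
      (Or.inr ENNReal.ofReal_ne_top)
    simpa using this
  have h3 : G.θ μ d (G.cell j x) = 0 := le_zero_iff.1 (ge_of_tendsto' h2 h1)
  rw [θ, ENNReal.div_eq_zero_iff] at h3
  refine hcon j le_rfl ?_
  rw [Dbl, h3.resolve_right (G.V_ne_top _ _)]
  exact zero_le

theorem exists_greatest_dbl (hg : Growth μ d C) (j : ℤ) (x : X) :
    ∃ k ≤ j, G.Dbl μ d (G.cell k x) ∧ ∀ l, k < l → l ≤ j → ¬ G.Dbl μ d (G.cell l x) := by
  obtain ⟨k, ⟨h1, h2⟩, h3⟩ := Int.exists_greatest_of_bdd
    (P := fun k => k ≤ j ∧ G.Dbl μ d (G.cell k x)) ⟨j, fun k h => h.1⟩ (exists_dbl hg j x)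
  exact ⟨k, h1, h2, fun l hl hlj h => absurd (h3 l ⟨hlj, h⟩) (by omega)⟩

variable (G μ d) in
/-- `S` hangs below `D` through non-doubling cubes. -/
def ch (D S : ι) : Prop :=
  G.le S D ∧ ∀ k, G.lev D ≤ k → k < G.lev S → ¬ G.Dbl μ d (G.cell k (G.ctr S))

theorem ch_level (D : ι) (n : ℕ) :
    ∑' S, {S | G.ch μ d D S ∧ G.lev S = G.lev D + n}.indicator (fun S => μ (G.B 50 S)) S ≤
      μ (G.B 50 D) * 2⁻¹ ^ n := by
  induction n with
  | zero =>
    rw [tsum_eq_single D]
    · simpa using indicator_le_self' (fun _ _ => zero_le) D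
    · intro S hS
      exact indicator_of_notMem (fun h => hS (G.eq_of_le h.1.1 (by simpa using h.2))) _
  | succ n ih =>
    have h1 := tsum_fiber_le (fun S => G.cell (G.lev D + n) (G.ctr S))
      {S | G.ch μ d D S ∧ G.lev S = G.lev D + (n + 1 : ℕ)}
      {S | G.ch μ d D S ∧ G.lev S = G.lev D + n} (fun S => μ (G.B 50 S)) N (by
        rintro S ⟨⟨h1, h2⟩, h3⟩
        refine ⟨⟨?_, fun k hk hk' => ?_⟩, G.lev_cell _ _⟩
        · have := G.cell_le_cell (show G.lev D ≤ G.lev D + n by omega) (G.ctr S)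
          rwa [h1.2] at this
        · rw [G.lev_cell] at hk'
          rw [G.cell_ctr_cell hk'.le]
          exact h2 k hk (by push_cast at h3; omega)) (by
        intro S'
        obtain ⟨s, hs, hs'⟩ := G.count (G.lev D + n + 1) (G.ctr S')
        refine ⟨s, hs, fun S hS e => hs' S (by rw [hS.2]; push_cast; ring) ?_⟩
        have := G.dist_ctr (G.lev D + n) (G.ctr S)
        rw [e] at this
        rw [G.r_succ]
        linarith)
    have h2 : bt N d * ∑' S, {S | G.ch μ d D S ∧ G.lev S = G.lev D + (n + 1 : ℕ)}.indicator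
        (fun S => μ (G.B 50 S)) S ≤ N * (μ (G.B 50 D) * 2⁻¹ ^ n) := by
      refine le_trans ?_ (h1.trans (mul_le_mul_right ih _))
      rw [← ENNReal.tsum_mul_left]
      refine ENNReal.tsum_le_tsum fun S => ?_
      by_cases hS : S ∈ {S | G.ch μ d D S ∧ G.lev S = G.lev D + (n + 1 : ℕ)}
      · rw [indicator_of_mem hS, indicator_of_mem hS]
        have h3 := hS.2
        push_cast at h3
        refine step_le ?_ (by rw [G.lev_cell]; omega) (hS.1.2 _ (by omega) (by omega))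
        have := G.cell_le_cell (show G.lev D + n ≤ G.lev S by omega) (G.ctr S)
        rwa [G.cell_ctr] at this
      · rw [indicator_of_notMem hS, mul_zero]
        exact zero_le
    refine (ENNReal.mul_le_mul_iff_right (bt_ne_zero N d) (bt_ne_top N d)).1 (h2.trans ?_)
    have h4 : (N : ℝ≥0∞) ≤ bt N d * 2⁻¹ := by
      rw [bt, mul_comm 2, mul_assoc, ENNReal.mul_inv_cancel (by norm_num) (by norm_num), mul_one]
      exact le_self_add
    calc (N : ℝ≥0∞) * (μ (G.B 50 D) * 2⁻¹ ^ n) ≤ bt N d * 2⁻¹ * (μ (G.B 50 D) * 2⁻¹ ^ n) := by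
          gcongr
      _ = _ := by ring

theorem ch_sum (D : ι) :
    ∑' S, {S | G.ch μ d D S}.indicator (fun S => μ (G.B 50 S)) S ≤ 2 * μ (G.B 50 D) := by
  calc ∑' S, {S | G.ch μ d D S}.indicator (fun S => μ (G.B 50 S)) S
      ≤ ∑' S, ∑' n : ℕ, {S | G.ch μ d D S ∧ G.lev S = G.lev D + n}.indicator
          (fun S => μ (G.B 50 S)) S := by
        refine ENNReal.tsum_le_tsum fun S => ?_
        by_cases hS : S ∈ {S | G.ch μ d D S}
        · obtain ⟨n, hn⟩ := Int.le.dest hS.1.1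
          refine le_trans (le_of_eq ?_) (ENNReal.le_tsum n)
          rw [indicator_of_mem hS, indicator_of_mem
            (show S ∈ {S | G.ch μ d D S ∧ G.lev S = G.lev D + n} from ⟨hS, hn.symm⟩)]
        · simp [indicator_of_notMem hS]
    _ = ∑' n : ℕ, ∑' S, {S | G.ch μ d D S ∧ G.lev S = G.lev D + n}.indicator
          (fun S => μ (G.B 50 S)) S := ENNReal.tsum_comm
    _ ≤ ∑' n : ℕ, μ (G.B 50 D) * 2⁻¹ ^ n := ENNReal.tsum_le_tsum (ch_level D)
    _ = _ := by rw [ENNReal.tsum_mul_left, ENNReal.tsum_geometric_two, mul_comm]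

theorem ae_exists_dbl [Countable ι] (hg : Growth μ d C) :
    ∀ᵐ x ∂μ, ∀ k, ∃ l, k ≤ l ∧ G.Dbl μ d (G.cell l x) := by
  have key : ∀ D, ∀ᵐ x ∂μ, x ∈ G.S D → ∃ l, G.lev D ≤ l ∧ G.Dbl μ d (G.cell l x) := by
    intro D
    classical
    have h1 : ∑' S, μ (if G.ch μ d D S then G.S S else ∅) ≠ ∞ := by
      refine ne_top_of_le_ne_top (ENNReal.mul_ne_top (by norm_num) (meas_B_ne_top (G := G) hg 50 D))
        (le_trans (ENNReal.tsum_le_tsum fun S => ?_) (ch_sum (G := G) (μ := μ) (d := d) D))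
      split_ifs with h
      · rw [indicator_of_mem (show S ∈ {S | G.ch μ d D S} from h)]
        exact measure_mono (G.S_subset_B (by norm_num) S)
      · simp
    filter_upwards [ae_finite_setOfPred_mem h1] with x hx hxD
    by_contra hcon
    push Not at hcon
    refine hx.not_infinite (infinite_of_injective_forall_mem
      (f := fun n : ℕ => G.cell (G.lev D + n) x) (fun n m e => ?_) fun n => ?_)
    · have := congrArg G.lev e
      simp only [G.lev_cell] at this
      omega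
    · have : G.ch μ d D (G.cell (G.lev D + n) x) := by
        refine ⟨?_, fun k hk hk' => ?_⟩
        · have := G.cell_le_cell (show G.lev D ≤ G.lev D + n by omega) x
          rwa [hxD] at this
        · rw [G.lev_cell] at hk'
          rw [G.cell_ctr_cell hk'.le]
          exact hcon k hk
      simp only [mem_ofPred_eq, if_pos this]
      exact G.mem_cell _ _
  filter_upwards [ae_all_iff.2 key] with x hx k
  simpa only [G.lev_cell] using hx (G.cell k x) (G.mem_cell k x)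

theorem ae_cell_pos [Countable ι] : ∀ᵐ x ∂μ, ∀ k, μ (G.S (G.cell k x)) ≠ 0 := by
  have key : ∀ D, ∀ᵐ x ∂μ, x ∈ G.S D → μ (G.S D) ≠ 0 := by
    intro D
    by_cases h : μ (G.S D) = 0
    · filter_upwards [measure_eq_zero_iff_ae_notMem.1 h] with x hx hx' using (hx hx').elim
    · exact Filter.Eventually.of_forall fun _ _ => h
  filter_upwards [ae_all_iff.2 key] with x hx k using hx _ (G.mem_cell k x)

end Grid

end Pool.Agent.Lib.MP_f88263_an.A2
end

-- part Pool.Agent.Lib.MP_f88263_an.A2.Op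
section

/-! The operator on bounded functions with bounded support, and kernel estimates. -/

open MeasureTheory Metric Set
open scoped ENNReal

namespace Pool.Agent.Lib.MP_f88263_an.A2

variable {X ι 𝕜 : Type} [MetricSpace X] [MeasurableSpace X] [RCLike 𝕜] {N M : ℕ}

/-- Bounded measurable functions with bounded support. -/
structure BB (f : X → 𝕜) : Prop where
  meas : StronglyMeasurable f
  bdd : ∃ R, ∀ x, ‖f x‖ ≤ R
  supp : Bornology.IsBounded (Function.support f)

theorem BB.indicator {f : X → 𝕜} (hf : BB f) {s : Set X} (hs : MeasurableSet s) :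
    BB (s.indicator f) where
  meas := hf.meas.indicator hs
  bdd := let ⟨R, h⟩ := hf.bdd; ⟨R, fun x => (norm_indicator_le_norm_self f x).trans (h x)⟩
  supp := hf.supp.subset (by rw [support_indicator]; exact inter_subset_right)

theorem BB.add {f g : X → 𝕜} (hf : BB f) (hg : BB g) : BB (f + g) where
  meas := hf.meas.add hg.meas
  bdd := let ⟨R, h⟩ := hf.bdd; let ⟨R', h'⟩ := hg.bdd
    ⟨R + R', fun x => (norm_add_le _ _).trans (add_le_add (h x) (h' x))⟩
  supp := (hf.supp.union hg.supp).subset (Function.support_add _ _)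

theorem BB.sub {f g : X → 𝕜} (hf : BB f) (hg : BB g) : BB (f - g) where
  meas := hf.meas.sub hg.meas
  bdd := let ⟨R, h⟩ := hf.bdd; let ⟨R', h'⟩ := hg.bdd
    ⟨R + R', fun x => (norm_sub_le _ _).trans (add_le_add (h x) (h' x))⟩
  supp := (hf.supp.union hg.supp).subset (Function.support_sub _ _)

theorem BB.zero : BB (0 : X → 𝕜) where
  meas := stronglyMeasurable_zero
  bdd := ⟨0, fun _ => by simp⟩
  supp := by simp

theorem BB.sum {α : Type} (s : Finset α) {f : α → X → 𝕜} (h : ∀ a ∈ s, BB (f a)) :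
    BB (∑ a ∈ s, f a) :=
  Finset.sum_induction f BB (fun _ _ => BB.add) BB.zero h

theorem BB.const {s : Set X} (hs : MeasurableSet s) (hb : Bornology.IsBounded s) (c : 𝕜) :
    BB (s.indicator fun _ => c) where
  meas := stronglyMeasurable_const.indicator hs
  bdd := ⟨‖c‖, fun x => norm_indicator_le_norm_self _ x⟩
  supp := hb.subset support_indicator_subset

/-- All the hypotheses on the measure, the kernel and the operator. -/
structure Setup (μ : Measure X) (d : ℕ) (δ C : ℝ) (K : X → X → 𝕜)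
    (op : (X → 𝕜) → X → 𝕜) : Prop where
  hδ : 0 < δ
  hC : 0 ≤ C
  reg : μ.Regular
  growth : Growth μ d C
  size : ∀ x y, x ≠ y → ‖K x y‖ ≤ C / dist x y ^ d
  smooth : ∀ x x' y, x ≠ y → 2 * dist x x' ≤ dist x y →
    ‖K x y - K x' y‖ + ‖K y x - K y x'‖ ≤ C * dist x x' ^ δ / dist x y ^ ((d : ℝ) + δ)
  meas : ∀ f, StronglyMeasurable (op f)
  add : ∀ f g, BB f → BB g → op (f + g) =ᵐ[μ] op f + op g
  bound : ∀ f, BB f → ∫⁻ x, ‖op f x‖ₑ ^ 2 ∂μ ≤ ENNReal.ofReal C ^ 2 * ∫⁻ x, ‖f x‖ₑ ^ 2 ∂μ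
  rep : ∀ f, BB f → ∀ᵐ x ∂μ, x ∉ tsupport f → op f x = ∫ y, K x y * f y ∂μ

theorem Growth.ne_top_of_isBounded {μ : Measure X} {d : ℕ} {C : ℝ} (hg : Growth μ d C)
    {s : Set X} (hs : Bornology.IsBounded s) : μ s ≠ ∞ := by
  rcases s.eq_empty_or_nonempty with rfl | ⟨x, -⟩
  · simp
  obtain ⟨r, hr, h⟩ := hs.subset_ball_lt 0 x
  exact ne_top_of_le_ne_top ENNReal.ofReal_ne_top ((measure_mono h).trans (hg x r hr))

theorem BB.integrable {f : X → 𝕜} (hf : BB f) {μ : Measure X} {d : ℕ} {C : ℝ}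
    (hg : Growth μ d C) : Integrable f μ := by
  obtain ⟨R, hR⟩ := hf.bdd
  rw [← integrableOn_iff_integrable_of_support_subset (Subset.refl _)]
  exact Measure.integrableOn_of_bounded (hg.ne_top_of_isBounded hf.supp)
    hf.meas.aestronglyMeasurable (Filter.Eventually.of_forall hR)

/-- Size constant. -/
noncomputable def kap (d : ℕ) (C : ℝ) : ℝ≥0∞ := ENNReal.ofReal (C * 1000 ^ d)

/-- Smoothness ratio. -/
noncomputable def qq (δ : ℝ) : ℝ≥0∞ := ENNReal.ofReal ((1000 : ℝ)⁻¹ ^ δ)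

theorem qq_lt_one {δ : ℝ} (hδ : 0 < δ) : qq δ < 1 :=
  ENNReal.ofReal_lt_one.2 (Real.rpow_lt_one (by norm_num) (by norm_num) hδ)

theorem geo_ne_top {δ : ℝ} (hδ : 0 < δ) : (1 - qq δ)⁻¹ ≠ ∞ :=
  ENNReal.inv_ne_top.2 (tsub_pos_of_lt (qq_lt_one hδ)).ne'

namespace Setup

variable {μ : Measure X} {d : ℕ} {δ C : ℝ} {K : X → X → 𝕜} {op : (X → 𝕜) → X → 𝕜}
  (h : Setup μ d δ C K op) {G : Grid X ι N M}
include h

theorem op_zero_of {f : X → 𝕜} (hf : BB f) (h0 : ∫⁻ x, ‖f x‖ₑ ∂μ = 0) : op f =ᵐ[μ] 0 := by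
  have h1 := (lintegral_eq_zero_iff hf.meas.enorm).1 h0
  have h2 : ∫⁻ x, ‖f x‖ₑ ^ 2 ∂μ = 0 := by
    rw [lintegral_eq_zero_iff (hf.meas.enorm.pow_const 2)]
    filter_upwards [h1] with x hx
    simp only [Pi.zero_apply] at hx ⊢
    simp [hx]
  have h3 := h.bound f hf
  rw [h2, mul_zero, nonpos_iff_eq_zero,
    lintegral_eq_zero_iff ((h.meas f).enorm.pow_const 2)] at h3
  filter_upwards [h3] with x hx
  simpa using hx

theorem op_sum {α : Type} (s : Finset α) {f : α → X → 𝕜} (hf : ∀ a ∈ s, BB (f a)) :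
    ∀ᵐ x ∂μ, op (∑ a ∈ s, f a) x = ∑ a ∈ s, op (f a) x := by
  classical
  induction s using Finset.induction_on with
  | empty =>
    filter_upwards [h.op_zero_of BB.zero (by simp)] with x hx
    simpa using hx
  | insert a s ha ih =>
    have h1 := h.add _ _ (hf a (Finset.mem_insert_self a s))
      (BB.sum s fun b hb => hf b (Finset.mem_insert_of_mem hb))
    filter_upwards [h1, ih fun b hb => hf b (Finset.mem_insert_of_mem hb)] with x hx hx'
    rw [Finset.sum_insert ha, Finset.sum_insert ha, hx, Pi.add_apply, hx']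

theorem continuousOn (x : X) : ContinuousOn (K x) {x}ᶜ := by
  intro y hy
  have hy' : y ≠ x := hy
  have ht : 0 < dist y x := dist_pos.2 hy'
  refine ContinuousAt.continuousWithinAt ?_
  rw [ContinuousAt, tendsto_iff_norm_sub_tendsto_zero]
  have hc : Continuous fun y' => C * dist y y' ^ δ / dist y x ^ ((d : ℝ) + δ) :=
    (continuous_const.mul ((continuous_const.dist continuous_id).rpow_const
      fun _ => Or.inr h.hδ.le)).div_const _
  have h0 := hc.tendsto y
  rw [dist_self, Real.zero_rpow h.hδ.ne', mul_zero, zero_div] at h0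
  refine squeeze_zero' (Filter.Eventually.of_forall fun _ => norm_nonneg _) ?_ h0
  filter_upwards [ball_mem_nhds y (half_pos ht)] with y' hy'b
  have := h.smooth y y' x hy' (by rw [mem_ball'] at hy'b; linarith)
  rw [norm_sub_rev]
  linarith [norm_nonneg (K y x - K y' x)]

theorem integrable_kernel [BorelSpace X] {f : X → 𝕜} (hf : BB f) {x : X} {ρ : ℝ} (hρ : 0 < ρ)
    (hs : ∀ y, f y ≠ 0 → ρ ≤ dist x y) : Integrable (fun y => K x y * f y) μ := by
  have hm : AEStronglyMeasurable (({x}ᶜ : Set X).indicator (K x)) μ :=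
    (aestronglyMeasurable_indicator_iff (measurableSet_singleton x).compl).2
      ((h.continuousOn x).aestronglyMeasurable (measurableSet_singleton x).compl)
  have e : (fun y => K x y * f y) = fun y => ({x}ᶜ : Set X).indicator (K x) y * f y := by
    ext y
    by_cases hy : f y = 0
    · simp [hy]
    · have : y ≠ x := fun e => by
        have := hs y hy
        rw [e, dist_self] at this
        linarith
      rw [indicator_of_mem (show y ∈ ({x}ᶜ : Set X) from this)]
  refine ((hf.integrable h.growth).norm.const_mul (C / ρ ^ d)).mono'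
    (e ▸ hm.mul hf.meas.aestronglyMeasurable) (Filter.Eventually.of_forall fun y => ?_)
  by_cases hy : f y = 0
  · simp [hy]
  · have h1 := hs y hy
    rw [norm_mul]
    refine mul_le_mul_of_nonneg_right ((h.size x y (dist_pos.1 (hρ.trans_le h1))).trans ?_)
      (norm_nonneg _)
    exact div_le_div_of_nonneg_left h.hC (by positivity) (pow_le_pow_left₀ hρ.le h1 d)

omit h in
theorem ofReal_div_eq (k : ℤ) :
    ENNReal.ofReal (C / G.r (k + 1) ^ d) = kap d C / G.V d k := by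
  have := G.r_pos k
  rw [kap, Grid.V, ← ENNReal.ofReal_div_of_pos (by positivity), G.r_succ, div_pow]
  congr 1
  field_simp

theorem size_bound {x y : X} {k : ℤ} (hxy : G.r (k + 1) ≤ dist x y) :
    ‖K x y‖ₑ ≤ kap d C / G.V d k := by
  have h0 := G.r_pos (k + 1)
  rw [← ofReal_div_eq, ← ofReal_norm]
  refine ENNReal.ofReal_le_ofReal ((h.size x y (dist_pos.1 (h0.trans_le hxy))).trans ?_)
  exact div_le_div_of_nonneg_left h.hC (by positivity) (pow_le_pow_left₀ h0.le hxy d)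

theorem smooth_bound {s t : ℝ} {k : ℤ} {j : ℕ} (hs0 : 0 ≤ s) (hs : s ≤ t / 1000 ^ j)
    (ht : G.r (k + 1) ≤ t) :
    ENNReal.ofReal (C * s ^ δ / t ^ ((d : ℝ) + δ)) ≤ qq δ ^ j * (kap d C / G.V d k) := by
  have h0 := G.r_pos (k + 1)
  have ht0 : 0 < t := h0.trans_le ht
  rw [← ofReal_div_eq, qq, ← ENNReal.ofReal_pow (by positivity),
    ← ENNReal.ofReal_mul (by positivity)]
  refine ENNReal.ofReal_le_ofReal ?_
  have h1 : s ^ δ ≤ ((1000 : ℝ)⁻¹ ^ δ) ^ j * t ^ δ := by
    rw [← Real.rpow_natCast, ← Real.rpow_mul (by norm_num), mul_comm δ,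
      Real.rpow_mul (by norm_num), Real.rpow_natCast, ← Real.mul_rpow (by positivity) ht0.le]
    refine Real.rpow_le_rpow hs0 ?_ h.hδ.le
    rwa [inv_pow, mul_comm, ← div_eq_mul_inv]
  have h2 := Real.rpow_pos_of_pos ht0 δ
  have hC := h.hC
  rw [Real.rpow_add ht0, Real.rpow_natCast]
  calc C * s ^ δ / (t ^ d * t ^ δ) ≤ C * (((1000 : ℝ)⁻¹ ^ δ) ^ j * t ^ δ) / (t ^ d * t ^ δ) := by
        gcongr
    _ = ((1000 : ℝ)⁻¹ ^ δ) ^ j * (C / t ^ d) := by field_simp
    _ ≤ _ := by gcongr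

end Setup

end Pool.Agent.Lib.MP_f88263_an.A2
end

-- part Pool.Agent.Lib.MP_f88263_an.A2.Annuli
section

/-! Estimates of the operator over annuli. -/

open MeasureTheory Metric Set
open scoped ENNReal

namespace Pool.Agent.Lib.MP_f88263_an.A2

variable {X ι 𝕜 : Type} [MetricSpace X] [MeasurableSpace X] [RCLike 𝕜] {N M : ℕ}

namespace Grid

variable (G : Grid X ι N M)

/-- The annulus between two consecutive dilated cubes. -/
def Ann (k : ℤ) (z : X) : Set X := G.B 10 (G.cell k z) \ G.B 10 (G.cell (k + 1) z)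

theorem lintegral_ann (μ : Measure X) (φ : X → ℝ≥0∞) (k : ℤ) (z : X) (m : ℕ) :
    ∫⁻ y in G.B 10 (G.cell k z) \ G.B 10 (G.cell (k + m) z), φ y ∂μ ≤
      ∑ n ∈ Finset.range m, ∫⁻ y in G.Ann (k + n) z, φ y ∂μ := by
  induction m with
  | zero => simp
  | succ m ih =>
    rw [Finset.sum_range_succ]
    refine le_trans (lintegral_mono_set ?_) ((lintegral_union_le _ _ _).trans
      (add_le_add ih le_rfl))
    intro y hy
    by_cases h : y ∈ G.B 10 (G.cell (k + m) z)
    · exact Or.inr ⟨h, by simpa only [Nat.cast_succ, add_assoc] using hy.2⟩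
    · exact Or.inl ⟨hy.1, h⟩

theorem lintegral_compl (μ : Measure X) (φ : X → ℝ≥0∞) (k : ℤ) (z : X) :
    ∫⁻ y in (G.B 10 (G.cell k z))ᶜ, φ y ∂μ ≤
      ∑' n : ℕ, ∫⁻ y in G.Ann (k - n - 1) z, φ y ∂μ := by
  classical
  refine le_trans (lintegral_mono_set fun y hy => ?_) (lintegral_iUnion_le _ _)
  have hex : ∃ n : ℕ, y ∈ G.B 10 (G.cell (k - n) z) := by
    obtain ⟨l, hl, hlt⟩ := G.exists_lt_r k (dist y z)
    obtain ⟨n, hn⟩ := Int.le.dest hl
    refine ⟨n, ?_⟩
    rw [show k - n = l by omega]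
    change dist y (G.ctr (G.cell l z)) < 10 * G.r (G.lev (G.cell l z))
    rw [G.lev_cell]
    linarith [G.dist_ctr l z, dist_triangle y z (G.ctr (G.cell l z)), G.r_pos l]
  have h0 : Nat.find hex ≠ 0 := fun e => hy (by simpa [e] using Nat.find_spec hex)
  obtain ⟨n, hn⟩ := Nat.exists_eq_succ_of_ne_zero h0
  refine mem_iUnion.2 ⟨n, ?_, ?_⟩
  · have := Nat.find_spec hex
    rw [hn] at this
    simpa only [Nat.cast_succ, sub_add_eq_sub_sub] using this
  · rw [sub_add_cancel]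
    exact Nat.find_min hex (by omega)

theorem le_dist_of_notMem {D : ι} {x y : X} {t : ℝ} (hx : x ∈ G.B t D) (hy : y ∉ G.B 10 D) :
    (10 - t) * G.r (G.lev D) ≤ dist x y := by
  have h1 : dist x (G.ctr D) < t * G.r (G.lev D) := hx
  have h2 : ¬ dist y (G.ctr D) < 10 * G.r (G.lev D) := hy
  linarith [dist_triangle_left y (G.ctr D) x]

theorem le_dist_ann {k : ℤ} {z x y : X} (hx : x ∈ G.S (G.cell (k + 1) z)) (hy : y ∈ G.Ann k z) :
    9 * G.r (k + 1) ≤ dist x y := by
  have := G.le_dist_of_notMem (G.S_subset_B le_rfl _ hx) hy.2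
  rw [G.lev_cell] at this
  linarith

theorem measurableSet_Ann [OpensMeasurableSpace X] (k : ℤ) (z : X) : MeasurableSet (G.Ann k z) :=
  (G.measurableSet_B _ _).diff (G.measurableSet_B _ _)

/-- The part of `f` between two dilated cubes. -/
noncomputable def piece (f : X → 𝕜) (D D' : ι) : X → 𝕜 := (G.B 10 D \ G.B 10 D').indicator f

/-- The part of `f` in a dilated cube. -/
noncomputable def loc (f : X → 𝕜) (D : ι) : X → 𝕜 := (G.B 10 D).indicator f

/-- The integral of `‖f‖` over a dilated cube. -/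
noncomputable def F (μ : Measure X) (f : X → 𝕜) (D : ι) : ℝ≥0∞ := ∫⁻ y in G.B 10 D, ‖f y‖ₑ ∂μ

theorem loc_eq (f : X → 𝕜) {D D' : ι} (h : G.le D' D) :
    G.loc f D = G.piece f D D' + G.loc f D' := by
  have := G.B_subset_of_le h (t := 10) (by norm_num)
  ext y
  rw [loc, piece, loc, Pi.add_apply, ← indicator_union_of_notMem_inter fun h => h.1.2 h.2,
    sdiff_union_of_subset this]

theorem piece_eq (f : X → 𝕜) {D D' D'' : ι} (h : G.le D' D) (h' : G.le D'' D') :
    G.piece f D D'' = G.piece f D D' + G.piece f D' D'' := by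
  have h1 := G.B_subset_of_le h (t := 10) (by norm_num)
  have h2 := G.B_subset_of_le h' (t := 10) (by norm_num)
  ext y
  rw [piece, piece, piece, Pi.add_apply, ← indicator_union_of_notMem_inter fun h => h.1.2 h.2.1,
    sdiff_union_sdiff_cancel h1 h2]

end Grid

theorem BB.piece [OpensMeasurableSpace X] {f : X → 𝕜} (hf : BB f) (G : Grid X ι N M) (D D' : ι) :
    BB (G.piece f D D') := hf.indicator ((G.measurableSet_B _ _).diff (G.measurableSet_B _ _))

theorem BB.loc [OpensMeasurableSpace X] {f : X → 𝕜} (hf : BB f) (G : Grid X ι N M) (D : ι) :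
    BB (G.loc f D) := hf.indicator (G.measurableSet_B _ _)

omit [MetricSpace X] in
theorem enorm_integral_indicator_le {μ : Measure X} (k f : X → 𝕜) {s : Set X}
    (hs : MeasurableSet s) :
    ‖∫ y, k y * s.indicator f y ∂μ‖ₑ ≤ ∫⁻ y in s, ‖k y‖ₑ * ‖f y‖ₑ ∂μ := by
  refine (enorm_integral_le_lintegral_enorm _).trans (le_of_eq ?_)
  rw [← lintegral_indicator hs]
  congr 1
  ext y
  by_cases hy : y ∈ s <;> simp [hy]

namespace Setup

variable {μ : Measure X} {d : ℕ} {δ C : ℝ} {K : X → X → 𝕜} {op : (X → 𝕜) → X → 𝕜}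
  (h : Setup μ d δ C K op) (G : Grid X ι N M) [BorelSpace X]
include h

theorem rep_piece [Countable ι] {f : X → 𝕜} (hf : BB f) :
    ∀ᵐ x ∂μ, ∀ D D', x ∈ G.B 10 D' →
      op (G.piece f D D') x = ∫ y, K x y * G.piece f D D' y ∂μ := by
  refine ae_all_iff.2 fun D => ae_all_iff.2 fun D' => ?_
  filter_upwards [h.rep _ (hf.piece G D D')] with x hx hxD
  refine hx fun hmem => ?_
  have : tsupport (G.piece f D D') ⊆ (G.B 10 D')ᶜ :=
    closure_minimal (support_indicator_subset.trans fun y hy => hy.2)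
      (G.isOpen_B _ _).isClosed_compl
  exact this hmem hxD

theorem piece_bound {f : X → 𝕜} (hf : BB f) (k : ℤ) (m : ℕ) (x : X) :
    ‖∫ y, K x y * G.piece f (G.cell k x) (G.cell (k + m) x) y ∂μ‖ₑ ≤
      ∑ n ∈ Finset.range m, kap d C / G.V d (k + n) * G.F μ f (G.cell (k + n) x) := by
  refine (enorm_integral_indicator_le _ _
    ((G.measurableSet_B _ _).diff (G.measurableSet_B _ _))).trans
    ((G.lintegral_ann μ _ k x m).trans (Finset.sum_le_sum fun n _ => ?_))
  rw [Grid.F, ← lintegral_const_mul _ hf.meas.enorm]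
  refine le_trans (setLIntegral_mono' (G.measurableSet_Ann _ _) fun y hy => ?_)
    (lintegral_mono_set sdiff_subset)
  have := G.le_dist_ann (G.mem_cell _ x) hy
  exact mul_le_mul_left (h.size_bound (by linarith [G.r_pos (k + n + 1)])) _

theorem osc_bound {f : X → 𝕜} (hf : BB f) (k : ℤ) (m : ℕ) (x x' : X)
    (hx' : x' ∈ G.B 3 (G.cell (k + m) x)) :
    ‖∫ y, K x y * G.piece f (G.cell k x) (G.cell (k + m) x) y ∂μ -
      ∫ y, K x' y * G.piece f (G.cell k x) (G.cell (k + m) x) y ∂μ‖ₑ ≤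
      ∑ n ∈ Finset.range m, qq δ ^ (m - 1 - n) *
        (kap d C / G.V d (k + n) * G.F μ f (G.cell (k + n) x)) := by
  have hx : x ∈ G.B 3 (G.cell (k + m) x) := G.S_subset_B (by norm_num) _ (G.mem_cell _ x)
  have hint : ∀ z ∈ G.B 3 (G.cell (k + m) x), Integrable
      (fun y => K z y * G.piece f (G.cell k x) (G.cell (k + m) x) y) μ := fun z hz =>
    h.integrable_kernel (hf.piece G _ _) (ρ := (10 - 3) * G.r (G.lev (G.cell (k + m) x)))
      (by have := G.r_pos (G.lev (G.cell (k + m) x)); positivity)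
      fun y hy => G.le_dist_of_notMem hz (support_indicator_subset hy).2
  rw [← integral_sub (hint x hx) (hint x' hx')]
  simp only [← sub_mul]
  refine (enorm_integral_indicator_le (fun y => K x y - K x' y) _
    ((G.measurableSet_B _ _).diff (G.measurableSet_B _ _))).trans
    ((G.lintegral_ann μ _ k x m).trans (Finset.sum_le_sum fun n hn => ?_))
  rw [Grid.F, ← mul_assoc, ← lintegral_const_mul _ hf.meas.enorm]
  refine le_trans (setLIntegral_mono' (G.measurableSet_Ann _ _) fun y hy => ?_)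
    (lintegral_mono_set sdiff_subset)
  refine mul_le_mul_left ?_ _
  have h1 := G.le_dist_ann (G.mem_cell _ x) hy
  have h2 : dist x x' < 4 * G.r (k + m) := by
    have a1 : dist x' (G.ctr (G.cell (k + m) x)) < 3 * G.r (G.lev (G.cell (k + m) x)) := hx'
    rw [G.lev_cell] at a1
    linarith [G.dist_ctr (k + m) x, dist_triangle_right x x' (G.ctr (G.cell (k + m) x))]
  have hn' := Finset.mem_range.1 hn
  have h3 : G.r (k + m) = G.r (k + n + 1) / 1000 ^ (m - 1 - n) := by
    rw [← G.r_add_nat]; congr 1; omega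
  have h4 := G.r_pos (k + n + 1)
  have h5 : G.r (k + m) ≤ G.r (k + n + 1) := G.r_anti (by omega)
  have h6 : dist x x' ≤ dist x y / 1000 ^ (m - 1 - n) := by
    rw [h3, ← mul_div_assoc] at h2
    exact h2.le.trans (div_le_div_of_nonneg_right (by linarith) (by positivity))
  refine le_trans ?_ (h.smooth_bound dist_nonneg h6 (by linarith))
  rw [← ofReal_norm]
  refine ENNReal.ofReal_le_ofReal (le_trans (le_add_of_nonneg_right (norm_nonneg _))
    (h.smooth x x' y (dist_pos.1 (by linarith)) (by linarith)))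

theorem near_bound {f : X → 𝕜} (hf : BB f) (k : ℤ) (m : ℕ) (z : X)
    (hs : Function.support f ⊆ G.S (G.cell (k + m) z)) :
    ∫⁻ x in G.B 10 (G.cell k z) \ G.B 10 (G.cell (k + m) z), ‖op f x‖ₑ ∂μ ≤
      kap d C * (∑ n ∈ Finset.range m, G.θ μ d (G.cell (k + n) z)) * ∫⁻ y, ‖f y‖ₑ ∂μ := by
  refine (G.lintegral_ann μ _ k z m).trans ?_
  rw [Finset.mul_sum, Finset.sum_mul]
  refine Finset.sum_le_sum fun n hn => ?_
  have hn' := Finset.mem_range.1 hn
  have hle := G.cell_le_cell (show k + n + 1 ≤ k + m by omega) z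
  calc ∫⁻ x in G.Ann (k + n) z, ‖op f x‖ₑ ∂μ
      ≤ ∫⁻ x in G.Ann (k + n) z, kap d C / G.V d (k + n) * ∫⁻ y, ‖f y‖ₑ ∂μ ∂μ := by
        refine setLIntegral_mono_ae' (G.measurableSet_Ann _ _) ?_
        filter_upwards [h.rep f hf] with x hx hxA
        have hfar : ∀ y ∈ Function.support f, 9 * G.r (k + n + 1) ≤ dist y x := fun y hy =>
          G.le_dist_ann (G.S_mono hle (hs hy)) hxA
        have h0 := G.r_pos (k + n + 1)
        rw [hx fun hmem => ?_]
        · refine (enorm_integral_le_lintegral_enorm _).trans ?_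
          rw [← lintegral_const_mul _ hf.meas.enorm]
          refine lintegral_mono fun y => ?_
          by_cases hy : f y = 0
          · simp [hy]
          · rw [enorm_mul]
            exact mul_le_mul_left (h.size_bound (by rw [dist_comm]; linarith [hfar y hy])) _
        · have : tsupport f ⊆ {y | 9 * G.r (k + n + 1) ≤ dist y x} :=
            closure_minimal hfar (isClosed_le continuous_const (by fun_prop))
          have := this hmem
          simp only [mem_ofPred_eq, dist_self] at this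
          linarith
    _ ≤ _ := by
        rw [setLIntegral_const, Grid.θ, G.lev_cell]
        have : μ (G.Ann (k + n) z) ≤ μ (G.B 50 (G.cell (k + n) z)) :=
          measure_mono (sdiff_subset.trans (G.B_mono (by norm_num) _))
        calc kap d C / G.V d (k + n) * (∫⁻ y, ‖f y‖ₑ ∂μ) * μ (G.Ann (k + n) z)
            ≤ kap d C / G.V d (k + n) * (∫⁻ y, ‖f y‖ₑ ∂μ) * μ (G.B 50 (G.cell (k + n) z)) := by
              gcongr
          _ = _ := by simp only [div_eq_mul_inv]; ring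

theorem far_bound {b : X → 𝕜} (hb : BB b) (R : ι) (hs : Function.support b ⊆ G.B 3 R)
    (h0 : ∫ y, b y ∂μ = 0) :
    ∫⁻ x in (G.B 10 R)ᶜ, ‖op b x‖ₑ ∂μ ≤ kap d C * Th d C * (1 - qq δ)⁻¹ * ∫⁻ y, ‖b y‖ₑ ∂μ := by
  have := G.lintegral_compl μ (fun x => ‖op b x‖ₑ) (G.lev R) (G.ctr R)
  rw [G.cell_ctr] at this
  refine this.trans ?_
  rw [← ENNReal.tsum_geometric, ← ENNReal.tsum_mul_left, ← ENNReal.tsum_mul_right]
  refine ENNReal.tsum_le_tsum fun n => ?_
  set k := G.lev R - n - 1 with hk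
  have hr := G.r_pos (G.lev R)
  have hr' := G.r_pos (k + 1)
  have e1 : G.r (G.lev R) = G.r (k + 1) / 1000 ^ n := by
    rw [← G.r_add_nat]; congr 1; omega
  have e2 : G.r (G.lev R) ≤ G.r (k + 1) := G.r_anti (by omega)
  calc ∫⁻ x in G.Ann k (G.ctr R), ‖op b x‖ₑ ∂μ
      ≤ ∫⁻ x in G.Ann k (G.ctr R), qq δ ^ n * (kap d C / G.V d k) * ∫⁻ y, ‖b y‖ₑ ∂μ ∂μ := by
        refine setLIntegral_mono_ae' (G.measurableSet_Ann _ _) ?_
        filter_upwards [h.rep b hb] with x hx hxA
        have hc := G.le_dist_ann (G.mem_cell _ (G.ctr R)) hxA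
        have hy3 : ∀ y ∈ Function.support b, dist (G.ctr R) y < 3 * G.r (G.lev R) := fun y hy => by
          rw [dist_comm]; exact hs hy
        have hfar : ∀ y ∈ Function.support b, G.r (k + 1) ≤ dist x y := fun y hy => by
          linarith [hy3 y hy, dist_triangle_right (G.ctr R) x y, dist_triangle (G.ctr R) y x,
            dist_comm x y]
        rw [hx fun hmem => ?_]
        · have e : ∫ y, K x y * b y ∂μ = ∫ y, (K x y - K x (G.ctr R)) * b y ∂μ := by
            simp only [sub_mul]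
            rw [integral_sub (h.integrable_kernel hb hr' hfar)
              ((hb.integrable h.growth).const_mul _), integral_const_mul, h0, mul_zero, sub_zero]
          rw [e]
          refine (enorm_integral_le_lintegral_enorm _).trans ?_
          rw [← lintegral_const_mul _ hb.meas.enorm]
          refine lintegral_mono fun y => ?_
          by_cases hy : b y = 0
          · simp [hy]
          · rw [enorm_mul]
            refine mul_le_mul_left ?_ _
            have h2 := hy3 y hy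
            have h6 : dist (G.ctr R) y ≤ dist (G.ctr R) x / 1000 ^ n := by
              rw [e1, ← mul_div_assoc] at h2
              exact h2.le.trans (div_le_div_of_nonneg_right (by linarith) (by positivity))
            refine le_trans ?_ (h.smooth_bound dist_nonneg h6 (by linarith))
            rw [← ofReal_norm, norm_sub_rev]
            exact ENNReal.ofReal_le_ofReal (le_trans (le_add_of_nonneg_left (norm_nonneg _))
              (h.smooth (G.ctr R) y x (dist_pos.1 (by linarith)) (by linarith)))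
        · have : tsupport b ⊆ {y | G.r (k + 1) ≤ dist x y} :=
            closure_minimal hfar (isClosed_le continuous_const (by fun_prop))
          have := this hmem
          simp only [mem_ofPred_eq, dist_self] at this
          linarith
    _ ≤ _ := by
        rw [setLIntegral_const]
        have h1 : μ (G.Ann k (G.ctr R)) ≤ Th d C * G.V d k := by
          have := Grid.meas_B_le (G := G) h.growth (G.cell k (G.ctr R))
          rw [G.lev_cell] at this
          exact (measure_mono (sdiff_subset.trans (G.B_mono (by norm_num) _))).trans this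
        calc qq δ ^ n * (kap d C / G.V d k) * (∫⁻ y, ‖b y‖ₑ ∂μ) * μ (G.Ann k (G.ctr R))
            ≤ qq δ ^ n * (kap d C / G.V d k) * (∫⁻ y, ‖b y‖ₑ ∂μ) * (Th d C * G.V d k) := by
              gcongr
          _ = kap d C * Th d C * qq δ ^ n * (∫⁻ y, ‖b y‖ₑ ∂μ) * ((G.V d k)⁻¹ * G.V d k) := by
              simp only [div_eq_mul_inv]; ring
          _ = _ := by rw [ENNReal.inv_mul_cancel (G.V_ne_zero _ _) (G.V_ne_top _ _), mul_one]

end Setup

end Pool.Agent.Lib.MP_f88263_an.A2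
end

-- part Pool.Agent.Lib.MP_f88263_an.A2.Tolsa
section

/-! Covering lemmas and the correcting functions of the Calderón-Zygmund decomposition. -/

open MeasureTheory Metric Set
open scoped ENNReal

namespace Pool.Agent.Lib.MP_f88263_an.A2

variable {X ι 𝕜 : Type} [MetricSpace X] [MeasurableSpace X] [RCLike 𝕜] {N M : ℕ}

omit [MetricSpace X] in
theorem cauchy_schwarz (μ : Measure X) {g h : X → ℝ≥0∞} (hg : AEMeasurable g μ)
    (hh : AEMeasurable h μ) :
    (∫⁻ x, g x * h x ∂μ) ^ 2 ≤ (∫⁻ x, g x ^ 2 ∂μ) * ∫⁻ x, h x ^ 2 ∂μ := by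
  have H := ENNReal.lintegral_mul_le_Lp_mul_Lq μ Real.HolderConjugate.two_two hg hh
  have := pow_le_pow_left' H 2
  simp only [Pi.mul_apply, ENNReal.rpow_ofNat] at this
  rwa [mul_pow, ← ENNReal.rpow_natCast (_ ^ (1 / 2 : ℝ)), ← ENNReal.rpow_natCast (_ ^ (1 / 2 : ℝ)),
    ← ENNReal.rpow_mul, ← ENNReal.rpow_mul, show (1 / 2 : ℝ) * (2 : ℕ) = 1 by norm_num,
    ENNReal.rpow_one, ENNReal.rpow_one] at this

theorem le_of_sq_le_sq' {a b : ℝ≥0∞} (h : a ^ 2 ≤ b ^ 2) : a ≤ b :=
  (ENNReal.pow_le_pow_left_iff (by norm_num)).1 h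

omit [MetricSpace X] in
theorem tsum_setLIntegral_le [Countable ι] (μ : Measure X) (φ : X → ℝ≥0∞) (S : ι → Set X)
    (hS : ∀ i, MeasurableSet (S i)) (𝒲 : Set ι) (hd : 𝒲.PairwiseDisjoint S) {V : Set X}
    (hV : ∀ i ∈ 𝒲, S i ⊆ V) :
    ∑' i, 𝒲.indicator (fun i => ∫⁻ x in S i, φ x ∂μ) i ≤ ∫⁻ x in V, φ x ∂μ := by
  rw [← tsum_subtype, ← lintegral_biUnion 𝒲.to_countable (fun i _ => hS i) hd]
  exact lintegral_mono_set (iUnion₂_subset hV)

omit [MetricSpace X] in
theorem sum_setLIntegral_le (μ : Measure X) (φ : X → ℝ≥0∞) (S : ι → Set X) (s : Finset ι)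
    (hS : ∀ i ∈ s, MeasurableSet (S i)) (hd : (s : Set ι).PairwiseDisjoint S) {V : Set X}
    (hV : ∀ i ∈ s, S i ⊆ V) :
    ∑ i ∈ s, ∫⁻ x in S i, φ x ∂μ ≤ ∫⁻ x in V, φ x ∂μ := by
  rw [← lintegral_biUnion_finset hd hS]
  exact lintegral_mono_set (iUnion₂_subset hV)

namespace Grid

variable (G : Grid X ι N M)

theorem vitali [OpensMeasurableSpace X] [Countable ι] (μ ν : Measure X) (c : ℝ≥0∞) (𝓑 : Set ι)
    (h : ∀ R ∈ 𝓑, c * μ (G.B 50 R) ≤ ν (G.B 10 R)) : c * μ (⋃ R ∈ 𝓑, G.B 10 R) ≤ ν univ := by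
  have e : (⋃ R ∈ 𝓑, G.B 10 R) = ⋃ n : ℕ, ⋃ R ∈ {R ∈ 𝓑 | -(n : ℤ) ≤ G.lev R}, G.B 10 R := by
    ext x
    simp only [mem_iUnion, mem_ofPred_eq, exists_prop]
    constructor
    · rintro ⟨R, hR, hx⟩
      exact ⟨(G.lev R).natAbs, R, ⟨hR, by omega⟩, hx⟩
    · rintro ⟨n, R, hR, hx⟩
      exact ⟨R, hR.1, hx⟩
  rw [e, Monotone.measure_iUnion, ENNReal.mul_iSup]
  · refine iSup_le fun n => ?_
    obtain ⟨u, hu, hd, hc⟩ := Vitali.exists_disjoint_subfamily_covering_enlargement_ball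
      {R ∈ 𝓑 | -(n : ℤ) ≤ G.lev R} G.ctr (fun R => 10 * G.r (G.lev R)) (10 * G.r (-n))
      (fun R hR => by linarith [G.r_anti hR.2]) 5 (by norm_num)
    calc c * μ (⋃ R ∈ {R ∈ 𝓑 | -(n : ℤ) ≤ G.lev R}, G.B 10 R) ≤ c * μ (⋃ R ∈ u, G.B 50 R) := by
          refine mul_le_mul_right (measure_mono (iUnion₂_subset fun R hR => ?_)) _
          obtain ⟨b, hb, hb'⟩ := hc R hR
          refine Subset.trans hb' (Subset.trans (subset_of_eq ?_) (subset_biUnion_of_mem hb))
          rw [B]; congr 1; ring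
      _ ≤ c * ∑' R : u, μ (G.B 50 R) := mul_le_mul_right (measure_biUnion_le μ u.to_countable _) _
      _ ≤ ∑' R : u, ν (G.B 10 R) := by
          rw [← ENNReal.tsum_mul_left]
          exact ENNReal.tsum_le_tsum fun R => h R (hu R.2).1
      _ = ν (⋃ R ∈ u, G.B 10 R) :=
          (measure_biUnion u.to_countable hd fun R _ => G.measurableSet_B _ _).symm
      _ ≤ _ := measure_mono (subset_univ _)
  · intro n m hnm
    exact biUnion_subset_biUnion_left fun R hR => ⟨hR.1, by have := hR.2; omega⟩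

theorem wh_disjoint (U : Set X) (k₀ : ℤ) : {D | G.Wh U k₀ D}.PairwiseDisjoint G.S := by
  intro D hD D' hD' hne
  rw [Function.onFun, Set.disjoint_left]
  intro x hx hx'
  rcases le_total (G.lev D) (G.lev D') with e | e
  · exact hne (G.wh_eq_of_le hD' hD (G.le_of_mem hx' hx e)).symm
  · exact hne (G.wh_eq_of_le hD hD' (G.le_of_mem hx hx' e))

theorem exists_phi [BorelSpace X] {μ : Measure X} {d : ℕ} {C : ℝ} (hg : Growth μ d C)
    {f : X → 𝕜} {lam : ℝ≥0∞} (hlam0 : lam ≠ 0) (hlam : lam ≠ ∞) (R : ι → ι) (s : Finset ι)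
    (hd : (s : Set ι).PairwiseDisjoint G.S)
    (hR : ∀ W ∈ s, G.le W (R W) ∧ G.Dbl μ d (R W) ∧ G.F μ f (R W) ≤ lam * μ (G.B 50 (R W))) :
    ∃ φ : ι → X → 𝕜, (∀ W ∈ s, BB (φ W) ∧ Function.support (φ W) ⊆ G.B 3 (R W) ∧
      ∫ x, φ W x ∂μ = ∫ x in G.S W, f x ∂μ ∧
      ∫⁻ x, ‖φ W x‖ₑ ∂μ ≤ ∫⁻ x in G.S W, ‖f x‖ₑ ∂μ ∧
      μ (G.B 10 (R W)) * ∫⁻ x, ‖φ W x‖ₑ ^ 2 ∂μ ≤ 2 * bt N d * (∫⁻ x in G.S W, ‖f x‖ₑ ∂μ) ^ 2) ∧
      ∀ x, ∑ W ∈ s, ‖φ W x‖ₑ ≤ 4 * bt N d * lam := by
  classical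
  induction s using Finset.induction_on_min_value (fun W => G.lev (R W)) with
  | empty => exact ⟨fun _ => 0, by simp, by simp⟩
  | insert a s ha hmin ih =>
    obtain ⟨φ, hφ, hsum⟩ := ih (hd.subset (by simp)) fun W hW => hR W (Finset.mem_insert_of_mem hW)
    obtain ⟨hle, hdbl, hF⟩ := hR a (Finset.mem_insert_self a s)
    set β := bt N d
    have hβ0 : β ≠ 0 := bt_ne_zero N d
    have hβ : β ≠ ∞ := bt_ne_top N d
    set m := μ (G.B 3 (R a))
    have hm : m ≠ ∞ := meas_B_ne_top hg _ _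
    have hF' : G.F μ f (R a) ≤ β * lam * m :=
      hF.trans ((mul_le_mul_right hdbl _).trans (le_of_eq (by ring)))
    set Φ : X → ℝ≥0∞ := fun x => ∑ W ∈ s, ‖φ W x‖ₑ
    have hΦ : Measurable Φ := Finset.measurable_sum s fun W hW => (hφ W hW).1.meas.enorm
    have h1 : ∫⁻ x in G.B 3 (R a), Φ x ∂μ ≤ β * lam * m := by
      rw [lintegral_finsetSum s fun W hW => (hφ W hW).1.meas.enorm]
      refine le_trans ?_ ((sum_setLIntegral_le μ (fun x => ‖f x‖ₑ) G.S
        (s.filter fun W => G.S W ⊆ G.B 10 (R a)) (fun W _ => G.measurableSet_S W)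
        (hd.subset (by intro W hW; simp only [Finset.coe_filter, mem_ofPred_eq] at hW; simp [hW.1]))
        (fun W hW => (Finset.mem_filter.1 hW).2)).trans hF')
      rw [Finset.sum_filter]
      refine Finset.sum_le_sum fun W hW => ?_
      split_ifs with hsub
      · exact (setLIntegral_le_lintegral _ _).trans (hφ W hW).2.2.2.1
      · refine le_of_eq ((setLIntegral_congr_fun (g := fun _ => 0) (G.measurableSet_B _ _)
          fun x hx => ?_).trans (by simp))
        by_contra hne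
        refine hsub fun y hy => ?_
        have a1 : dist x (G.ctr (R W)) < 3 * G.r (G.lev (R W)) :=
          (hφ W hW).2.1 (show φ W x ≠ 0 by simpa using hne)
        have a2 : dist x (G.ctr (R a)) < 3 * G.r (G.lev (R a)) := hx
        have a3 := G.dist_lt_of_mem (G.S_mono (hR W (Finset.mem_insert_of_mem hW)).1 hy)
        have a4 := G.r_anti (hmin W hW)
        have a5 := G.r_pos (G.lev (R a))
        change dist y (G.ctr (R a)) < 10 * G.r (G.lev (R a))
        linarith [dist_triangle y x (G.ctr (R a)), dist_triangle_right y x (G.ctr (R W))]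
    set A := G.B 3 (R a) ∩ {x | Φ x ≤ 2 * β * lam} with hA
    have mA : MeasurableSet A :=
      (G.measurableSet_B _ _).inter (measurableSet_le hΦ measurable_const)
    have hAm : μ A ≤ m := measure_mono inter_subset_left
    have hAt : μ A ≠ ∞ := ne_top_of_le_ne_top hm hAm
    have h2 : m ≤ 2 * μ A := by
      have b1 := (mul_meas_ge_le_lintegral₀ (μ := μ.restrict (G.B 3 (R a))) hΦ.aemeasurable
        (2 * β * lam)).trans h1
      rw [Measure.restrict_apply (measurableSet_le measurable_const hΦ)] at b1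
      set u := μ ({x | 2 * β * lam ≤ Φ x} ∩ G.B 3 (R a))
      have b2 : 2 * u ≤ m := by
        refine (ENNReal.mul_le_mul_iff_right (a := β * lam) (mul_ne_zero hβ0 hlam0)
          (ENNReal.mul_ne_top hβ hlam)).1 (le_trans (le_of_eq (by ring)) b1)
      have b3 : m ≤ μ A + u := by
        refine le_trans (measure_mono fun x hx => ?_) (measure_union_le _ _)
        rcases le_total (Φ x) (2 * β * lam) with e | e
        · exact Or.inl ⟨hx, e⟩
        · exact Or.inr ⟨e, hx⟩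
      refine (ENNReal.add_le_add_iff_right hm).1 ?_
      calc m + m = 2 * m := by ring
        _ ≤ 2 * (μ A + u) := mul_le_mul_right b3 _
        _ = 2 * μ A + 2 * u := by ring
        _ ≤ _ := add_le_add le_rfl b2
    set I := ∫⁻ x in G.S a, ‖f x‖ₑ ∂μ
    have hI : I ≤ 2 * β * lam * μ A := by
      calc I ≤ G.F μ f (R a) :=
            lintegral_mono_set ((G.S_mono hle).trans (G.S_subset_B (by norm_num) _))
        _ ≤ β * lam * (2 * μ A) := hF'.trans (mul_le_mul_right h2 _)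
        _ = _ := by ring
    have hJ : ‖∫ x in G.S a, f x ∂μ‖ₑ ≤ I := enorm_integral_le_lintegral_enorm _
    obtain ⟨c, hc1, hc2, hc3⟩ : ∃ c : 𝕜, μ.real A • c = ∫ x in G.S a, f x ∂μ ∧
        ‖c‖ₑ * μ A ≤ I ∧ ‖c‖ₑ ≤ 2 * β * lam := by
      by_cases h0 : μ A = 0
      · refine ⟨0, ?_, by simp, by simp⟩
        rw [h0, mul_zero] at hI
        rw [smul_zero, eq_comm, ← enorm_eq_zero]
        exact le_zero_iff.1 (hJ.trans hI)
      · have hpos : 0 < μ.real A := ENNReal.toReal_pos h0 hAt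
        have e1 : μ.real A • ((μ.real A)⁻¹ • ∫ x in G.S a, f x ∂μ) = ∫ x in G.S a, f x ∂μ := by
          rw [smul_smul, mul_inv_cancel₀ hpos.ne', one_smul]
        have e2 : ‖(μ.real A)⁻¹ • ∫ x in G.S a, f x ∂μ‖ₑ * μ A ≤ I := by
          refine le_trans (le_of_eq ?_) hJ
          conv_rhs => rw [← e1, enorm_smul, Real.enorm_eq_ofReal hpos.le, Measure.real,
            ENNReal.ofReal_toReal hAt, mul_comm]
          rfl
        exact ⟨_, e1, e2, (ENNReal.mul_le_mul_iff_left h0 hAt).1 (e2.trans hI)⟩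
    have hne : ∀ W ∈ s, Function.update φ a (A.indicator fun _ => c) W = φ W := fun W hW =>
      Function.update_of_ne (ne_of_mem_of_not_mem hW ha) _ _
    refine ⟨Function.update φ a (A.indicator fun _ => c), fun W hW => ?_, fun x => ?_⟩
    · rcases Finset.mem_insert.1 hW with rfl | hW
      · rw [Function.update_self]
        refine ⟨BB.const mA (isBounded_ball.subset inter_subset_left) c,
          support_indicator_subset.trans inter_subset_left, ?_, ?_, ?_⟩
        · rw [integral_indicator_const _ mA, hc1]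
        · simpa only [enorm_indicator_eq_indicator_enorm, lintegral_indicator_const mA] using hc2
        · have e : ∀ x, ‖A.indicator (fun _ => c) x‖ₑ ^ 2 = A.indicator (fun _ => ‖c‖ₑ ^ 2) x := by
            intro x; by_cases hx : x ∈ A <;> simp [hx]
          simp only [e, lintegral_indicator_const mA]
          have b1 : μ (G.B 10 (R W)) ≤ β * (2 * μ A) :=
            (measure_mono (G.B_mono (by norm_num) _)).trans (hdbl.trans (mul_le_mul_right h2 _))
          calc μ (G.B 10 (R W)) * (‖c‖ₑ ^ 2 * μ A) ≤ β * (2 * μ A) * (‖c‖ₑ ^ 2 * μ A) := by gcongr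
            _ = 2 * β * (‖c‖ₑ * μ A) ^ 2 := by ring
            _ ≤ _ := by gcongr
      · rw [hne W hW]; exact hφ W hW
    · rw [Finset.sum_insert ha, Function.update_self, Finset.sum_congr rfl fun W hW => by
        rw [hne W hW]]
      by_cases hx : x ∈ A
      · rw [indicator_of_mem hx]
        exact (add_le_add hc3 hx.2).trans (le_of_eq (by ring))
      · rw [indicator_of_notMem hx, enorm_zero, zero_add]
        exact hsum x

end Grid

end Pool.Agent.Lib.MP_f88263_an.A2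
end

-- part Pool.Agent.Lib.MP_f88263_an.A2.GridEuc
section

/-! The grid of `1000`-adic cubes of Euclidean space. -/

open MeasureTheory Metric Set

namespace Pool.Agent.Lib.MP_f88263_an.A2

/-- The grid of `1000`-adic cubes. -/
noncomputable def gridEuc (d : ℕ) : Grid (EuclideanSpace ℝ (Fin d)) (ℤ × (Fin d → ℤ))
    ((2 * (1000 * (d + 1)) + 1) ^ d) (Fintype.card (Fin d → ZMod (1000 * (d + 1)))) where
  lev := Prod.fst
  cell k x := (k, fun i => ⌊x i * 1000 ^ k⌋)
  ctr Q := WithLp.toLp 2 fun i => Q.2 i / 1000 ^ Q.1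
  r k := (d + 1) / 1000 ^ k
  col Q := Fintype.equivFin _ fun i => (Q.2 i : ZMod (1000 * (d + 1)))
  r_pos k := by positivity
  r_succ k := by rw [zpow_add_one₀ (by norm_num), div_div]
  lev_cell _ _ := rfl
  cell_ctr Q := by
    refine Prod.ext rfl (funext fun i => ?_)
    simp only
    rw [div_mul_cancel₀ _ (by positivity), Int.floor_intCast]
  dist_ctr k x := by
    have hs : (0 : ℝ) < 1000 ^ k := by positivity
    rw [EuclideanSpace.dist_eq, Real.sqrt_lt' (by positivity)]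
    calc _ ≤ ∑ _i : Fin d, (1 / 1000 ^ k : ℝ) ^ 2 := by
          refine Finset.sum_le_sum fun i _ => pow_le_pow_left₀ dist_nonneg ?_ 2
          have h1 := Int.floor_le (x i * 1000 ^ k)
          have h2 := Int.lt_floor_add_one (x i * 1000 ^ k)
          rw [Real.dist_eq, show x i - (⌊x i * 1000 ^ k⌋ : ℝ) / 1000 ^ k =
            (x i * 1000 ^ k - ⌊x i * 1000 ^ k⌋) / 1000 ^ k by field_simp, abs_div, abs_of_pos hs]
          exact div_le_div_of_nonneg_right (abs_le.2 ⟨by linarith, by linarith⟩) hs.le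
      _ < _ := by
          rw [Finset.sum_const, Finset.card_univ, Fintype.card_fin, nsmul_eq_mul, div_pow, div_pow,
            one_pow, mul_one_div]
          exact div_lt_div_of_pos_right (by nlinarith [Nat.cast_nonneg (α := ℝ) d]) (by positivity)
  nested_succ k x y h := by
    refine Prod.ext rfl (funext fun i => ?_)
    have e : ∀ t : ℝ, ⌊t * 1000 ^ k⌋ = ⌊t * 1000 ^ (k + 1)⌋ / (1000 : ℕ) := fun t => by
      rw [← Int.floor_div_natCast, zpow_add_one₀ (by norm_num)]
      congr 1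
      push_cast; ring
    simp only [e]
    rw [show ⌊x i * 1000 ^ (k + 1)⌋ = ⌊y i * 1000 ^ (k + 1)⌋ from congrFun (congrArg Prod.snd h) i]
  meas k Q := by
    have : Measurable fun x : EuclideanSpace ℝ (Fin d) => (k, fun i => ⌊x i * 1000 ^ k⌋) :=
      measurable_const.prodMk (measurable_pi_lambda _ fun i => Measurable.floor (by fun_prop))
    exact this (measurableSet_singleton Q)
  count k y := by
    refine ⟨(Fintype.piFinset fun i => Finset.Icc (⌊y i * 1000 ^ k⌋ - (1000 * (d + 1) : ℕ))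
      (⌊y i * 1000 ^ k⌋ + (1000 * (d + 1) : ℕ))).image fun z => (k, z), ?_, ?_⟩
    · refine Finset.card_image_le.trans (le_of_eq ?_)
      rw [Fintype.card_piFinset, Finset.prod_congr rfl (g := fun _ => 2 * (1000 * (d + 1)) + 1)]
      · simp
      · intro i _
        rw [Int.card_Icc]
        omega
    · rintro ⟨l, z⟩ rfl h
      refine Finset.mem_image.2 ⟨z, Fintype.mem_piFinset.2 fun i => ?_, rfl⟩
      have hs : (0 : ℝ) < 1000 ^ l := by positivity
      have h1 := (PiLp.dist_apply_le _ y i).trans_lt h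
      simp only [Real.dist_eq] at h1
      rw [show (z i : ℝ) / 1000 ^ l - y i = (z i - y i * 1000 ^ l) / 1000 ^ l by field_simp,
        abs_div, abs_of_pos hs, ← mul_div_assoc, div_lt_div_iff_of_pos_right hs, abs_lt] at h1
      have h2 := Int.floor_le (y i * 1000 ^ l)
      have h3 := Int.lt_floor_add_one (y i * 1000 ^ l)
      refine Finset.mem_Icc.2 ⟨?_, Int.le_of_lt_add_one ?_⟩
      · rw [← Int.cast_le (R := ℝ)]; push_cast; linarith
      · rw [← Int.cast_lt (R := ℝ)]; push_cast; linarith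
  sep := by
    rintro ⟨k, z⟩ ⟨l, z'⟩ (rfl : k = l) hc hne
    obtain ⟨i, hi⟩ := Function.ne_iff.1 fun e : z = z' => hne (by rw [e])
    have h1 := congrFun ((Fintype.equivFin _).injective hc) i
    have h2 := Int.le_of_dvd (abs_pos.2 (sub_ne_zero.2 hi))
      ((dvd_abs _ _).2 ((ZMod.intCast_eq_intCast_iff_dvd_sub _ _ _).1 h1.symm))
    refine le_trans ?_ (PiLp.dist_apply_le _ _ i)
    have hs : (0 : ℝ) < 1000 ^ k := by positivity
    simp only [Real.dist_eq]
    rw [← sub_div, abs_div, abs_of_pos hs, ← mul_div_assoc]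
    refine div_le_div_of_nonneg_right ?_ hs.le
    exact_mod_cast h2

end Pool.Agent.Lib.MP_f88263_an.A2
end
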