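import Mathlib
import Pool.Agent.Lib.MP_f88263_an.A2.GridEuc

/-! Maximal inequality and Carleson embedding for finite laminar families. -/

open MeasureTheory Metric Set
open scoped ENNReal

namespace Pool.Agent.Lib.MP_f88263_an.A2

variable {X ι : Type} [MeasurableSpace X]

omit [MeasurableSpace X] in
theorem setOf_lt_toReal {h : X → ℝ≥0∞} (hf : ∀ x, h x ≠ ∞) {t : ℝ} (ht : 0 < t) :
    {x | t < (h x).toReal} = {x | ENNReal.ofReal t < h x} := by
  ext x
  exact (ENNReal.ofReal_lt_iff_lt_toReal ht.le (hf x)).symm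

theorem layer (ν : Measure X) {h : X → ℝ≥0∞} (hm : Measurable h) (hf : ∀ x, h x ≠ ∞) :
    ∫⁻ x, h x ∂ν = ∫⁻ t in Ioi (0 : ℝ), ν {x | ENNReal.ofReal t < h x} := by
  have := lintegral_eq_lintegral_meas_lt ν (f := fun x => (h x).toReal)
    (Filter.Eventually.of_forall fun _ => ENNReal.toReal_nonneg) hm.ennreal_toReal.aemeasurable
  simp only [ENNReal.ofReal_toReal (hf _)] at this
  rw [this]
  exact setLIntegral_congr_fun measurableSet_Ioi fun t ht => by simp only [setOf_lt_toReal hf ht]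

theorem layer_sq (ν : Measure X) {h : X → ℝ≥0∞} (hm : Measurable h) (hf : ∀ x, h x ≠ ∞) :
    ∫⁻ x, h x ^ 2 ∂ν =
      2 * ∫⁻ t in Ioi (0 : ℝ), ENNReal.ofReal t * ν {x | ENNReal.ofReal t < h x} := by
  have := lintegral_rpow_eq_lintegral_meas_lt_mul ν (f := fun x => (h x).toReal)
    (Filter.Eventually.of_forall fun _ => ENNReal.toReal_nonneg) hm.ennreal_toReal.aemeasurable
    (p := 2) (by norm_num)
  simp only [Real.rpow_ofNat, ENNReal.ofReal_pow ENNReal.toReal_nonneg,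
    ENNReal.ofReal_toReal (hf _), ENNReal.ofReal_ofNat, show (2 : ℝ) - 1 = 1 by norm_num,
    Real.rpow_one] at this
  rw [this]
  congr 1
  exact setLIntegral_congr_fun measurableSet_Ioi fun t ht => by
    simp only [setOf_lt_toReal hf ht, mul_comm]

theorem cs_weighted (μ : Measure X) {a b w σ : X → ℝ≥0∞} (ha : Measurable a) (hb : Measurable b)
    (hw : Measurable w) (hσ : Measurable σ) (h : ∀ᵐ x ∂μ, w x * σ x = 1) :
    (∫⁻ x, a x * b x ∂μ) ^ 2 ≤ (∫⁻ x, a x ^ 2 * w x ∂μ) * ∫⁻ x, b x ^ 2 * σ x ∂μ := by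
  have e : ∀ y : ℝ≥0∞, (y ^ (1 / 2 : ℝ)) ^ 2 = y := fun y => by
    rw [← ENNReal.rpow_natCast, ← ENNReal.rpow_mul]; norm_num
  have := cauchy_schwarz μ (g := fun x => a x * w x ^ (1 / 2 : ℝ))
    (h := fun x => b x * σ x ^ (1 / 2 : ℝ)) (ha.mul (hw.pow_const _)).aemeasurable
    (hb.mul (hσ.pow_const _)).aemeasurable
  simp only [mul_pow, e] at this
  refine le_trans (le_of_eq ?_) this
  congr 1
  refine lintegral_congr_ae ?_
  filter_upwards [h] with x hx
  rw [mul_mul_mul_comm, ← ENNReal.mul_rpow_of_nonneg _ _ (by norm_num), hx, ENNReal.one_rpow,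
    mul_one]

/-- Finite laminar families. -/
def Lam (ρ : ι → ℤ) (L : ι → Set X) (s : Finset ι) : Prop :=
  ∀ S ∈ s, ∀ S' ∈ s, ρ S' ≤ ρ S → L S ⊆ L S' ∨ Disjoint (L S) (L S')

omit [MeasurableSpace X] in
theorem Lam.select {ρ : ι → ℤ} {L : ι → Set X} {s : Finset ι} (h : Lam ρ L s) :
    ∃ v ⊆ s, (v : Set ι).PairwiseDisjoint L ∧ ⋃ S ∈ s, L S = ⋃ S ∈ v, L S := by
  classical
  induction s using Finset.induction_on_min_value ρ with
  | empty => exact ⟨∅, by simp⟩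
  | insert a s ha hmin ih =>
    obtain ⟨v, hv, hd, he⟩ := ih fun S hS S' hS' =>
      h S (Finset.mem_insert_of_mem hS) S' (Finset.mem_insert_of_mem hS')
    refine ⟨insert a (v.filter fun S => Disjoint (L S) (L a)),
      Finset.insert_subset_insert a ((Finset.filter_subset _ _).trans hv), ?_, ?_⟩
    · rw [Finset.coe_insert]
      exact (hd.subset (Finset.coe_subset.2 (Finset.filter_subset _ _))).insert fun S hS _ =>
        (Finset.mem_filter.1 (Finset.mem_coe.1 hS)).2.symm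
    · rw [Finset.set_biUnion_insert, Finset.set_biUnion_insert, he]
      refine Subset.antisymm (union_subset subset_union_left (iUnion₂_subset fun S hS => ?_))
        (union_subset_union_right _ (biUnion_subset_biUnion_left (Finset.filter_subset _ _)))
      rcases h S (Finset.mem_insert_of_mem (hv hS)) a (Finset.mem_insert_self a s)
        (hmin S (hv hS)) with e | e
      · exact e.trans subset_union_left
      · exact (subset_biUnion_of_mem (u := L) (show S ∈ (v.filter fun S => Disjoint (L S) (L a))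
          from Finset.mem_filter.2 ⟨hS, e⟩)).trans subset_union_right

/-- The maximal function of a finite family of numbers attached to sets. -/
noncomputable def mx (L : ι → Set X) (s : Finset ι) (c : ι → ℝ≥0∞) (y : X) : ℝ≥0∞ :=
  ⨆ S ∈ s, (L S).indicator (fun _ => c S) y

theorem measurable_mx {L : ι → Set X} {s : Finset ι} (hL : ∀ S ∈ s, MeasurableSet (L S))
    (c : ι → ℝ≥0∞) : Measurable (mx L s c) :=
  Measurable.biSup _ s.countable_toSet fun S hS => measurable_const.indicator (hL S hS)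

omit [MeasurableSpace X] in
theorem mx_sq_le (L : ι → Set X) (s : Finset ι) (c : ι → ℝ≥0∞) (y : X) :
    mx L s c y ^ 2 ≤ ∑ S ∈ s, (L S).indicator (fun _ => c S ^ 2) y := by
  have : mx L s c y ≤ (∑ S ∈ s, (L S).indicator (fun _ => c S ^ 2) y) ^ (1 / 2 : ℝ) := by
    refine iSup₂_le fun S hS => ?_
    rw [one_div, ENNReal.le_rpow_inv_iff (by norm_num)]
    refine le_trans (le_of_eq ?_) (Finset.single_le_sum (fun _ _ => zero_le) hS)
    by_cases hy : y ∈ L S <;> simp [hy]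
  rwa [one_div, ENNReal.le_rpow_inv_iff (by norm_num), ENNReal.rpow_ofNat] at this

omit [MeasurableSpace X] in
theorem mx_ne_top {L : ι → Set X} {s : Finset ι} {c : ι → ℝ≥0∞} (hc : ∀ S ∈ s, c S ≠ ∞) (y : X) :
    mx L s c y ≠ ∞ := by
  refine ne_top_of_le_ne_top (ENNReal.sum_ne_top.2 hc) (iSup₂_le fun S hS => ?_)
  exact (indicator_le_self' (fun _ _ => zero_le) y).trans
    (Finset.single_le_sum (fun _ _ => zero_le) hS)

omit [MeasurableSpace X] in
open Classical in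
theorem lt_mx (L : ι → Set X) (s : Finset ι) (c : ι → ℝ≥0∞) (t : ℝ≥0∞) :
    {y | t < mx L s c y} = ⋃ S ∈ s.filter (fun S => t < c S), L S := by
  ext y
  simp only [mx, mem_ofPred_eq, lt_iSup_iff, mem_iUnion, Finset.mem_filter, exists_prop]
  refine exists_congr fun S => ?_
  by_cases hy : y ∈ L S <;> simp [hy]

theorem doob (μ : Measure X) {φ w σ : X → ℝ≥0∞} (hφ : Measurable φ) (hw : Measurable w)
    (hσ : Measurable σ) (h : ∀ᵐ x ∂μ, w x * σ x = 1) {ρ : ι → ℤ} {L : ι → Set X} {s : Finset ι}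
    (hl : Lam ρ L s) (hL : ∀ S ∈ s, MeasurableSet (L S)) {c : ι → ℝ≥0∞} (hc : ∀ S ∈ s, c S ≠ ∞)
    (hfin : ∀ S ∈ s, ∫⁻ x in L S, σ x ∂μ ≠ ∞)
    (hle : ∀ S ∈ s, c S * ∫⁻ x in L S, σ x ∂μ ≤ ∫⁻ x in L S, φ x ∂μ) :
    ∫⁻ x, mx L s c x ^ 2 * σ x ∂μ ≤ 4 * ∫⁻ x, φ x ^ 2 * w x ∂μ := by
  classical
  have hM := measurable_mx hL c
  set J := ∫⁻ x, mx L s c x ^ 2 * σ x ∂μ with hJ
  have hJt : J ≠ ∞ := by
    refine ne_top_of_le_ne_top (ENNReal.sum_ne_top.2 fun S hS =>
      ENNReal.mul_ne_top (ENNReal.pow_ne_top (n := 2) (hc S hS)) (hfin S hS)) ?_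
    refine (lintegral_mono fun x => mul_le_mul_left (mx_sq_le L s c x) _).trans (le_of_eq ?_)
    simp only [Finset.sum_mul]
    rw [lintegral_finsetSum s fun S hS => (measurable_const.indicator (hL S hS)).fun_mul hσ]
    refine Finset.sum_congr rfl fun S hS => ?_
    rw [← lintegral_const_mul _ hσ, ← lintegral_indicator (hL S hS)]
    simp only [indicator_mul_left]
  have h1 : J ≤ 2 * ∫⁻ x, φ x * mx L s c x ∂μ := by
    have e1 := lintegral_withDensity_eq_lintegral_mul μ hσ (hM.pow_const 2)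
    have e2 := lintegral_withDensity_eq_lintegral_mul μ hφ hM
    simp only [Pi.mul_apply, mul_comm (σ _)] at e1 e2
    rw [hJ, ← e1, ← e2, layer_sq _ hM (mx_ne_top hc), layer _ hM (mx_ne_top hc)]
    refine mul_le_mul_right (lintegral_mono fun t => ?_) _
    simp only [lt_mx]
    obtain ⟨v, hv, hd, he⟩ := Lam.select (ρ := ρ) (L := L)
      (s := s.filter fun S => ENNReal.ofReal t < c S) fun S hS S' hS' =>
        hl S (Finset.mem_filter.1 hS).1 S' (Finset.mem_filter.1 hS').1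
    have mv : ∀ S ∈ v, MeasurableSet (L S) := fun S hS => hL S (Finset.mem_filter.1 (hv hS)).1
    rw [he, measure_biUnion_finset hd mv, measure_biUnion_finset hd mv, Finset.mul_sum]
    refine Finset.sum_le_sum fun S hS => ?_
    obtain ⟨a1, a2⟩ := Finset.mem_filter.1 (hv hS)
    rw [withDensity_apply _ (mv S hS), withDensity_apply _ (mv S hS)]
    exact (mul_le_mul_left a2.le _).trans (hle S a1)
  rcases eq_or_ne J 0 with h0 | h0
  · rw [h0]; exact zero_le
  refine (ENNReal.mul_le_mul_iff_left h0 hJt).1 ?_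
  calc J * J = J ^ 2 := by ring
    _ ≤ (2 * ∫⁻ x, φ x * mx L s c x ∂μ) ^ 2 := pow_le_pow_left' h1 2
    _ = 4 * (∫⁻ x, φ x * mx L s c x ∂μ) ^ 2 := by ring
    _ ≤ 4 * ((∫⁻ x, φ x ^ 2 * w x ∂μ) * J) := mul_le_mul_right (cs_weighted μ hφ hM hw hσ h) _
    _ = _ := by ring

theorem carleson (μ : Measure X) {L : ι → Set X} {s : Finset ι} (hL : ∀ S ∈ s, MeasurableSet (L S))
    {c y : ι → ℝ≥0∞} {Λ : ℝ≥0∞} (hΛ : Λ ≠ ∞) (hy : ∀ S ∈ s, y S ≠ ∞)
    (hc : ∀ u ⊆ s, ∑ S ∈ u, c S ≤ Λ * μ (⋃ S ∈ u, L S)) :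
    ∑ S ∈ s, c S * y S ≤ Λ * ∫⁻ x, mx L s y x ∂μ := by
  classical
  have m : ∀ S, Measurable fun t : ℝ => if ENNReal.ofReal t < y S then c S else 0 := fun S =>
    Measurable.ite (measurableSet_lt ENNReal.measurable_ofReal measurable_const) measurable_const
      measurable_const
  have e : ∀ S ∈ s, c S * y S = ∫⁻ t in Ioi (0 : ℝ), if ENNReal.ofReal t < y S then c S else 0 := by
    intro S hS
    have := layer (c S • Measure.dirac ()) (h := fun _ => y S) measurable_const fun _ => hy S hS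
    simp only [lintegral_const, Measure.smul_apply, measure_univ, smul_eq_mul, mul_one] at this
    rw [mul_comm, this]
    refine lintegral_congr fun t => ?_
    split_ifs with ht <;> simp [ht]
  rw [Finset.sum_congr rfl e, ← lintegral_finsetSum s fun S _ => m S,
    layer μ (measurable_mx hL y) (mx_ne_top hy), ← lintegral_const_mul' _ _ hΛ]
  refine lintegral_mono fun t => ?_
  simp only [lt_mx, ← Finset.sum_filter]
  exact hc _ (Finset.filter_subset _ _)

theorem embed (μ : Measure X) {φ g w σ : X → ℝ≥0∞} (hφ : Measurable φ) (hg : Measurable g)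
    (hw : Measurable w) (hσ : Measurable σ) (h : ∀ᵐ x ∂μ, w x * σ x = 1) {ρ : ι → ℤ}
    {L : ι → Set X} {s : Finset ι} (hl : Lam ρ L s) (hL : ∀ S ∈ s, MeasurableSet (L S))
    {c x y : ι → ℝ≥0∞} {Λ : ℝ≥0∞} (hΛ : Λ ≠ ∞) (hx : ∀ S ∈ s, x S ≠ ∞) (hy : ∀ S ∈ s, y S ≠ ∞)
    (hc : ∀ u ⊆ s, ∑ S ∈ u, c S ≤ Λ * μ (⋃ S ∈ u, L S))
    (hσf : ∀ S ∈ s, ∫⁻ x in L S, σ x ∂μ ≠ ∞) (hwf : ∀ S ∈ s, ∫⁻ x in L S, w x ∂μ ≠ ∞)
    (hxl : ∀ S ∈ s, x S * ∫⁻ x in L S, σ x ∂μ ≤ ∫⁻ x in L S, φ x ∂μ)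
    (hyl : ∀ S ∈ s, y S * ∫⁻ x in L S, w x ∂μ ≤ ∫⁻ x in L S, g x ∂μ) {a b : ℝ≥0∞}
    (ha : ∫⁻ x, φ x ^ 2 * w x ∂μ ≤ a ^ 2) (hb : ∫⁻ x, g x ^ 2 * σ x ∂μ ≤ b ^ 2) :
    ∑ S ∈ s, c S * (x S * y S) ≤ Λ * (4 * (a * b)) := by
  have h' : ∀ᵐ x ∂μ, σ x * w x = 1 := by simpa only [mul_comm] using h
  refine (carleson μ hL hΛ (fun S hS => ENNReal.mul_ne_top (hx S hS) (hy S hS)) hc).trans
    (mul_le_mul_right ?_ _)
  have h1 : ∀ z, mx L s (fun S => x S * y S) z ≤ mx L s x z * mx L s y z := fun z => by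
    refine iSup₂_le fun S hS => le_trans (le_of_eq ?_)
      (mul_le_mul' (le_iSup₂_of_le S hS le_rfl) (le_iSup₂_of_le S hS le_rfl))
    by_cases hz : z ∈ L S <;> simp [hz]
  refine (lintegral_mono h1).trans (le_of_sq_le_sq' ?_)
  refine (cs_weighted μ (measurable_mx hL x) (measurable_mx hL y) hσ hw h').trans
    ((mul_le_mul' ((doob μ hφ hw hσ h hl hL hx hσf hxl).trans (mul_le_mul_right ha _))
      ((doob μ hg hσ hw h' hl hL hy hwf hyl).trans (mul_le_mul_right hb _))).trans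
      (le_of_eq (by ring)))

end Pool.Agent.Lib.MP_f88263_an.A2
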