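import Mathlib
import Pool.Agent.Lib.MP_f88263_an.A2.GridEuc
import Pool.Agent.Lib.MP_f88263_an.A2.Doob

-- part Pool.Agent.Lib.MP_f88263_an.A2.Weak
section

/-! The weak type `(1,1)` inequality. -/

open MeasureTheory Metric Set
open scoped ENNReal

namespace Pool.Agent.Lib.MP_f88263_an.A2

variable {X ι 𝕜 : Type} [MetricSpace X] [MeasurableSpace X] [RCLike 𝕜] {N M : ℕ}

theorem add_sq_le_two (a b : ℝ≥0∞) : (a + b) ^ 2 ≤ 2 * a ^ 2 + 2 * b ^ 2 := by
  have := ENNReal.rpow_add_le_mul_rpow_add_rpow a b (p := 2) (by norm_num)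
  norm_num at this
  rwa [mul_add] at this

/-- The constant for the bad part. -/
noncomputable def cb (N d : ℕ) (δ C : ℝ) : ℝ≥0∞ :=
  2 * (kap d C * Th d C * (1 - qq δ)⁻¹) + 3 * (kap d C * Th d C) + 2 * bt N d * ENNReal.ofReal C

/-- The weak type constant. -/
noncomputable def cw (N d : ℕ) (δ C : ℝ) : ℝ≥0∞ :=
  2 * (3 + ENNReal.ofReal C ^ 2 * (4 + 8 * bt N d) + cb N d δ C)

theorem cw_ne_top (N d : ℕ) {δ : ℝ} (hδ : 0 < δ) (C : ℝ) : cw N d δ C ≠ ∞ := by
  have := geo_ne_top hδ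
  have := bt_ne_top N d
  unfold cw cb kap Th
  finiteness

theorem Grid.not_subset_of_wh (G : Grid X ι N M) {U : Set X} {k₀ : ℤ} {W : ι} (hW : G.Wh U k₀ W)
    (hk : G.lev W ≠ k₀) {l : ℤ} (hl : l ≤ G.lev W - 2) : ¬ G.B 10 (G.cell l (G.ctr W)) ⊆ U :=
  fun h => hW.2.2.resolve_left hk (Subset.trans (G.B_subset_of_lt (G.cell_le_cell (by omega) _)
    (by rw [G.lev_cell, G.lev_cell]; omega) (by norm_num) (by norm_num)) h)

namespace Setup

variable {μ : Measure X} {d : ℕ} {δ C : ℝ} {K : X → X → 𝕜} {op : (X → 𝕜) → X → 𝕜}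
  (h : Setup μ d δ C K op) (G : Grid X ι N M) [BorelSpace X]
include h

theorem bad_bound {f φ : X → 𝕜} (hf : BB f) (hφ : BB φ) (W : ι) (k : ℤ) (hk : k ≤ G.lev W)
    (hnd : ∀ l, k < l → l ≤ G.lev W - 2 → ¬ G.Dbl μ d (G.cell l (G.ctr W)))
    (h1 : Function.support φ ⊆ G.B 3 (G.cell k (G.ctr W)))
    (h2 : ∫ x, φ x ∂μ = ∫ x in G.S W, f x ∂μ)
    (h3 : ∫⁻ x, ‖φ x‖ₑ ∂μ ≤ ∫⁻ x in G.S W, ‖f x‖ₑ ∂μ)
    (h4 : μ (G.B 10 (G.cell k (G.ctr W))) * ∫⁻ x, ‖φ x‖ₑ ^ 2 ∂μ ≤
      2 * bt N d * (∫⁻ x in G.S W, ‖f x‖ₑ ∂μ) ^ 2) :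
    ∫⁻ x in (G.B 10 W)ᶜ, ‖op ((G.S W).indicator f - φ) x‖ₑ ∂μ ≤
      cb N d δ C * ∫⁻ x in G.S W, ‖f x‖ₑ ∂μ := by
  set R := G.cell k (G.ctr W) with hR
  set I := ∫⁻ x in G.S W, ‖f x‖ₑ ∂μ
  have hfW := hf.indicator (G.measurableSet_S W)
  have hb := hfW.sub hφ
  have hI : ∫⁻ x, ‖(G.S W).indicator f x‖ₑ ∂μ = I := by
    simp only [enorm_indicator_eq_indicator_enorm, lintegral_indicator (G.measurableSet_S W), I]
  obtain ⟨m, hm⟩ := Int.le.dest hk
  have hW : G.cell (k + m) (G.ctr W) = W := by rw [hm, G.cell_ctr]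
  have hle : G.le W R := by
    have := G.cell_le_cell (show k ≤ k + m by omega) (G.ctr W)
    rwa [hW] at this
  have a1 : ∫⁻ x in (G.B 10 R)ᶜ, ‖op ((G.S W).indicator f - φ) x‖ₑ ∂μ ≤
      kap d C * Th d C * (1 - qq δ)⁻¹ * (I + I) := by
    refine (h.far_bound G hb R ?_ ?_).trans (mul_le_mul_right ?_ _)
    · exact (Function.support_sub _ _).trans (union_subset (support_indicator_subset.trans
        ((G.S_mono hle).trans (G.S_subset_B (by norm_num) _))) h1)
    · simp only [Pi.sub_apply]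
      rw [integral_sub (hfW.integrable h.growth) (hφ.integrable h.growth),
        integral_indicator (G.measurableSet_S W), h2, sub_self]
    · refine (lintegral_mono fun x => enorm_sub_le).trans ?_
      rw [lintegral_add_left hfW.meas.enorm, hI]
      exact add_le_add le_rfl h3
  have a2 : ∫⁻ x in G.B 10 R \ G.B 10 W, ‖op ((G.S W).indicator f) x‖ₑ ∂μ ≤
      kap d C * (3 * Th d C) * I := by
    have := h.near_bound G hfW k m (G.ctr W) (by rw [hW]; exact support_indicator_subset)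
    rw [hW, hI] at this
    refine this.trans ?_
    gcongr
    exact Grid.θ_sum h.growth k _ m fun n hn hn' => hnd _ (by omega) (by omega)
  have a3 : ∫⁻ x in G.B 10 R, ‖op φ x‖ₑ ∂μ ≤ 2 * bt N d * ENNReal.ofReal C * I := by
    refine le_of_sq_le_sq' ?_
    have := cauchy_schwarz (μ.restrict (G.B 10 R)) (g := fun _ => 1) (h := fun x => ‖op φ x‖ₑ)
      aemeasurable_const (h.meas φ).enorm.aemeasurable
    simp only [one_mul, one_pow, lintegral_const, Measure.restrict_apply_univ] at this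
    have hβ : 1 ≤ 2 * bt N d := one_le_mul_of_one_le_of_one_le (by norm_num) (one_le_bt N d)
    calc _ ≤ μ (G.B 10 R) * (ENNReal.ofReal C ^ 2 * ∫⁻ x, ‖φ x‖ₑ ^ 2 ∂μ) :=
          this.trans (mul_le_mul_right ((setLIntegral_le_lintegral _ _).trans (h.bound φ hφ)) _)
      _ = ENNReal.ofReal C ^ 2 * (μ (G.B 10 R) * ∫⁻ x, ‖φ x‖ₑ ^ 2 ∂μ) := by ring
      _ ≤ ENNReal.ofReal C ^ 2 * (2 * bt N d * I ^ 2) * (2 * bt N d) :=
          (mul_le_mul_right h4 _).trans (le_mul_of_one_le_right' hβ)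
      _ = _ := by ring
  have a4 : ∫⁻ x in G.B 10 R \ G.B 10 W, ‖op ((G.S W).indicator f - φ) x‖ₑ ∂μ ≤
      kap d C * (3 * Th d C) * I + 2 * bt N d * ENNReal.ofReal C * I := by
    refine le_trans ?_ (add_le_add a2 ((lintegral_mono_set (sdiff_subset (t := G.B 10 W))).trans a3))
    rw [← lintegral_add_left (h.meas _).enorm]
    refine lintegral_mono_ae (ae_restrict_of_ae ?_)
    filter_upwards [h.add _ _ hb hφ] with x hx
    rw [sub_add_cancel, Pi.add_apply] at hx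
    rw [eq_sub_of_add_eq hx.symm]
    exact enorm_sub_le
  calc _ ≤ ∫⁻ x in (G.B 10 R)ᶜ ∪ G.B 10 R \ G.B 10 W,
        ‖op ((G.S W).indicator f - φ) x‖ₑ ∂μ := by
        refine lintegral_mono_set fun x hx => ?_
        by_cases hxR : x ∈ G.B 10 R
        · exact Or.inr ⟨hxR, hx⟩
        · exact Or.inl hxR
    _ ≤ _ := (lintegral_union_le _ _ _).trans (add_le_add a1 a4)
    _ = _ := by unfold cb; ring

omit [BorelSpace X] in
theorem cheb {g : X → 𝕜} (hg : BB g) (lam : ℝ≥0∞) :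
    lam ^ 2 * μ {x | lam < ‖op g x‖ₑ} ≤ ENNReal.ofReal C ^ 2 * ∫⁻ x, ‖g x‖ₑ ^ 2 ∂μ := by
  refine le_trans ?_ ((mul_meas_ge_le_lintegral₀ ((h.meas g).enorm.pow_const 2).aemeasurable
    (lam ^ 2)).trans (h.bound g hg))
  exact mul_le_mul_right (measure_mono fun x (hx : lam < ‖op g x‖ₑ) =>
    show lam ^ 2 ≤ ‖op g x‖ₑ ^ 2 from pow_le_pow_left' hx.le 2) _

theorem weak_aux [Countable ι] {f : X → 𝕜} (hf : BB f) {lam : ℝ≥0∞} (hl0 : lam ≠ 0)
    (hlt : lam ≠ ∞) (hI0 : ∫⁻ x, ‖f x‖ₑ ∂μ ≠ 0) {Ω : Set X} (hΩ : IsOpen Ω) {p : X} (hp : p ∉ Ω)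
    (hΩ1 : ∀ x, x ∉ Ω → ‖f x‖ₑ ≤ lam)
    (hΩ2 : ∀ R, ¬ G.B 10 R ⊆ Ω → G.F μ f R ≤ lam * μ (G.B 50 R)) :
    lam * μ ({x | 2 * lam < ‖op f x‖ₑ} \ Ω) ≤
      (ENNReal.ofReal C ^ 2 * (4 + 8 * bt N d) + cb N d δ C) * ∫⁻ x, ‖f x‖ₑ ∂μ := by
  classical
  set I := ∫⁻ x, ‖f x‖ₑ ∂μ
  obtain ⟨ρ, -, hρ⟩ := hf.supp.subset_ball_lt 0 p
  obtain ⟨k₀, -, hk₀⟩ := G.exists_lt_r 0 ρ
  set 𝒲 := {W | G.Wh Ω k₀ W ∧ G.lev W ≠ k₀} with h𝒲
  have hcov : ∀ x ∈ Ω, f x ≠ 0 → ∃ W ∈ 𝒲, x ∈ G.S W := by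
    intro x hx hfx
    obtain ⟨W, hW, hxW⟩ := G.exists_wh_of_isOpen hΩ k₀ hx
    refine ⟨W, ⟨hW, fun e => hp (hW.2.1 ?_)⟩, hxW⟩
    have a1 : dist x p < ρ := hρ hfx
    have a2 := G.dist_lt_of_mem hxW
    have a3 := G.r_pos k₀
    change dist p (G.ctr W) < 100 * G.r (G.lev W)
    rw [e] at a2 ⊢
    linarith [dist_triangle_left p (G.ctr W) x]
  have hdis : 𝒲.PairwiseDisjoint G.S := (G.wh_disjoint Ω k₀).subset fun W hW => hW.1
  have hfin : ∫⁻ x, ‖f x‖ₑ ^ 2 ∂μ ≠ ∞ := by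
    obtain ⟨R, hR⟩ := hf.bdd
    refine ne_top_of_le_ne_top (ENNReal.mul_ne_top (ENNReal.ofReal_ne_top (r := R))
      (hf.integrable h.growth).2.ne) ?_
    rw [← lintegral_const_mul _ hf.meas.enorm]
    refine lintegral_mono fun x => ?_
    rw [sq]
    exact mul_le_mul_left (by rw [← ofReal_norm]; exact ENNReal.ofReal_le_ofReal (hR x)) _
  obtain ⟨s₀, hs₀⟩ := ((ENNReal.tendsto_tsum_compl_atTop_zero (ne_top_of_le_ne_top hfin
    ((tsum_setLIntegral_le μ (fun x => ‖f x‖ₑ ^ 2) G.S G.measurableSet_S 𝒲 hdis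
      fun _ _ => subset_univ _).trans (setLIntegral_le_lintegral _ _)))).eventually
    (gt_mem_nhds (ENNReal.mul_pos hl0 hI0))).exists
  set s := s₀.filter (· ∈ 𝒲) with hs
  have hs𝒲 : ∀ W ∈ s, W ∈ 𝒲 := fun W hW => (Finset.mem_filter.1 hW).2
  have hsd : (s : Set ι).PairwiseDisjoint G.S := hdis.subset hs𝒲
  choose k hk hkd hkn using fun W => Grid.exists_greatest_dbl (G := G) h.growth (G.lev W - 2)
    (G.ctr W)
  obtain ⟨φ, hφ, hφs⟩ := G.exists_phi h.growth (f := f) hl0 hlt (fun W => G.cell (k W) (G.ctr W)) s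
    hsd fun W hW => ⟨by
      have := G.cell_le_cell (show k W ≤ G.lev W by have := hk W; omega) (G.ctr W)
      rwa [G.cell_ctr] at this, hkd W,
      hΩ2 _ (G.not_subset_of_wh (hs𝒲 W hW).1 (hs𝒲 W hW).2 (hk W))⟩
  set Z := ⋃ W ∈ s, G.S W with hZ
  have mZ : MeasurableSet Z := Finset.measurableSet_biUnion s fun W _ => G.measurableSet_S W
  set g : X → 𝕜 := Zᶜ.indicator f + ∑ W ∈ s, φ W with hg
  set b : ι → X → 𝕜 := fun W => (G.S W).indicator f - φ W with hb
  have bg : BB g := (hf.indicator mZ.compl).add (BB.sum s fun W hW => (hφ W hW).1)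
  have bb : ∀ W ∈ s, BB (b W) := fun W hW =>
    (hf.indicator (G.measurableSet_S W)).sub (hφ W hW).1
  have hdec : f = g + ∑ W ∈ s, b W := by
    rw [hg, hb, Finset.sum_sub_distrib, add_add_sub_cancel]
    ext x
    rw [Pi.add_apply, Finset.sum_apply, ← Finset.indicator_biUnion_apply s _ hsd,
      indicator_compl_add_self_apply]
  have hsumI : ∑ W ∈ s, ∫⁻ x in G.S W, ‖f x‖ₑ ∂μ ≤ I :=
    (sum_setLIntegral_le μ _ G.S s (fun W _ => G.measurableSet_S W) hsd
      fun _ _ => subset_univ _).trans (setLIntegral_le_lintegral _ _)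
  have g1 : ∫⁻ x in Zᶜ, ‖f x‖ₑ ^ 2 ∂μ ≤ lam * I + lam * I := by
    have : ∫⁻ x in Zᶜ, ‖f x‖ₑ ^ 2 ∂μ ≤ ∫⁻ x in Ωᶜ ∪ ⋃ W : {W // W ∉ s₀},
        if W.1 ∈ 𝒲 then G.S W else ∅, ‖f x‖ₑ ^ 2 ∂μ := by
      rw [← lintegral_indicator mZ.compl]
      refine le_trans (lintegral_mono fun x => ?_) (lintegral_indicator_le _ _)
      by_cases hx : x ∈ Zᶜ ∧ f x ≠ 0
      · rw [indicator_of_mem hx.1, indicator_of_mem]
        by_cases hxΩ : x ∈ Ω
        · obtain ⟨W, hW, hxW⟩ := hcov x hxΩ hx.2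
          refine Or.inr (mem_iUnion.2 ⟨⟨W, fun hW' => hx.1 ?_⟩, by rwa [if_pos hW]⟩)
          exact mem_biUnion (Finset.mem_filter.2 ⟨hW', hW⟩) hxW
        · exact Or.inl hxΩ
      · refine le_trans (le_of_eq ?_) zero_le
        by_cases hx' : x ∈ Zᶜ
        · simp [hx', not_not.1 fun e => hx ⟨hx', e⟩]
        · simp [hx']
    refine this.trans ((lintegral_union_le _ _ _).trans (add_le_add ?_
      ((lintegral_iUnion_le _ _).trans (le_trans (ENNReal.tsum_le_tsum fun W => ?_) hs₀.le))))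
    · rw [← lintegral_const_mul _ hf.meas.enorm]
      refine le_trans (setLIntegral_mono' hΩ.measurableSet.compl fun x hx => ?_)
        (setLIntegral_le_lintegral _ _)
      rw [sq]
      exact mul_le_mul_left (hΩ1 x hx) _
    · split_ifs with hW
      · rw [indicator_of_mem hW]
      · simp
  have g2 : ∫⁻ x, ‖g x‖ₑ ^ 2 ∂μ ≤ lam * ((4 + 8 * bt N d) * I) := by
    have mΦ : Measurable fun x => ∑ W ∈ s, ‖φ W x‖ₑ :=
      Finset.measurable_sum s fun W hW => (hφ W hW).1.meas.enorm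
    calc ∫⁻ x, ‖g x‖ₑ ^ 2 ∂μ ≤ ∫⁻ x, 2 * Zᶜ.indicator (fun x => ‖f x‖ₑ ^ 2) x +
          2 * (4 * bt N d * lam) * ∑ W ∈ s, ‖φ W x‖ₑ ∂μ := by
          refine lintegral_mono fun x => ?_
          have e1 : ‖g x‖ₑ ≤ ‖Zᶜ.indicator f x‖ₑ + ∑ W ∈ s, ‖φ W x‖ₑ := by
            rw [hg, Pi.add_apply, Finset.sum_apply]
            exact (enorm_add_le _ _).trans (add_le_add le_rfl (enorm_sum_le _ _))
          refine (pow_le_pow_left' e1 2).trans ((add_sq_le_two _ _).trans (add_le_add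
            (le_of_eq ?_) ?_))
          · by_cases hx : x ∈ Zᶜ <;> simp [hx]
          · rw [sq, mul_assoc 2]
            exact mul_le_mul_right (mul_le_mul_left (hφs x) _) _
      _ ≤ 2 * (lam * I + lam * I) + 2 * (4 * bt N d * lam) * I := by
          rw [lintegral_add_right _ (mΦ.const_mul _), lintegral_const_mul _ mΦ,
            lintegral_const_mul _ ((hf.meas.enorm.pow_const 2).indicator mZ.compl),
            lintegral_indicator mZ.compl,
            lintegral_finsetSum s fun W hW => (hφ W hW).1.meas.enorm]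
          gcongr
          exact (Finset.sum_le_sum fun W hW => (hφ W hW).2.2.2.1).trans hsumI
      _ = _ := by ring
  have g3 : lam * μ {x | lam < ‖op g x‖ₑ} ≤ ENNReal.ofReal C ^ 2 * (4 + 8 * bt N d) * I := by
    refine (ENNReal.mul_le_mul_iff_right hl0 hlt).1 ?_
    rw [← mul_assoc, ← sq]
    exact (h.cheb bg lam).trans ((mul_le_mul_right g2 _).trans (le_of_eq (by ring)))
  have mB : Measurable fun x => ∑ W ∈ s, ‖op (b W) x‖ₑ :=
    Finset.measurable_sum s fun W _ => (h.meas _).enorm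
  have g4 : lam * μ ({x | lam ≤ ∑ W ∈ s, ‖op (b W) x‖ₑ} ∩ Ωᶜ) ≤ cb N d δ C * I := by
    rw [← Measure.restrict_apply (measurableSet_le measurable_const mB)]
    refine (mul_meas_ge_le_lintegral₀ mB.aemeasurable lam).trans ?_
    rw [lintegral_finsetSum s fun W _ => (h.meas _).enorm]
    refine le_trans (Finset.sum_le_sum fun W hW => ?_)
      ((Finset.mul_sum _ _ _).symm.le.trans (mul_le_mul_right hsumI _))
    obtain ⟨p1, p2, p3, p4, p5⟩ := hφ W hW
    exact (lintegral_mono_set (compl_subset_compl.2 ((G.B_mono (by norm_num) W).trans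
      (hs𝒲 W hW).1.2.1))).trans (h.bad_bound G hf p1 W (k W) (by have := hk W; omega) (hkn W)
        p2 p3 p4 p5)
  rw [add_mul]
  refine le_trans ?_ (add_le_add g3 g4)
  rw [← mul_add]
  refine mul_le_mul_right (le_trans (measure_mono_ae ?_) (measure_union_le _ _)) _
  filter_upwards [h.add _ _ bg (BB.sum s bb), h.op_sum s bb] with x hx hx' hmem
  rw [← hdec, Pi.add_apply, hx'] at hx
  by_contra hcon
  have c1 : ‖op g x‖ₑ ≤ lam := not_lt.1 fun e => hcon (Or.inl e)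
  have c2 : ∑ W ∈ s, ‖op (b W) x‖ₑ ≤ lam := (not_le.1 fun e => hcon (Or.inr ⟨e, hmem.2⟩)).le
  refine absurd (show 2 * lam < ‖op f x‖ₑ from hmem.1) (not_lt.2 ?_)
  rw [hx, two_mul]
  exact (enorm_add_le _ _).trans (add_le_add c1 ((enorm_sum_le _ _).trans c2))

include G in
theorem weak [Countable ι] {f : X → 𝕜} (hf : BB f) {t : ℝ≥0∞} (ht : t ≠ ∞) :
    t * μ {x | t < ‖op f x‖ₑ} ≤ cw N d δ C * ∫⁻ x, ‖f x‖ₑ ∂μ := by
  rcases eq_or_ne t 0 with rfl | ht0
  · simp
  by_cases hI0 : ∫⁻ x, ‖f x‖ₑ ∂μ = 0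
  · have : μ {x | t < ‖op f x‖ₑ} = 0 := by
      rw [measure_eq_zero_iff_ae_notMem]
      filter_upwards [h.op_zero_of hf hI0] with x hx
      simp [hx]
    simp [this]
  obtain ⟨lam, rfl⟩ : ∃ lam, t = 2 * lam :=
    ⟨t / 2, by rw [ENNReal.mul_div_cancel (by norm_num) (by norm_num)]⟩
  have hl0 : lam ≠ 0 := right_ne_zero_of_mul ht0
  have hlt : lam ≠ ∞ := fun e => ht (by simp [e])
  set I := ∫⁻ x, ‖f x‖ₑ ∂μ
  have := h.reg
  obtain ⟨U, hU1, hU2, hU3⟩ := Set.exists_isOpen_le_add {x | lam ≤ ‖f x‖ₑ} μ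
    (ε := I / lam) (ENNReal.div_pos hI0 hlt).ne'
  set 𝓑 := {R | lam * μ (G.B 50 R) ≤ G.F μ f R}
  set Ω := U ∪ ⋃ R ∈ 𝓑, G.B 10 R
  have hΩ : IsOpen Ω := hU2.union (isOpen_biUnion fun R _ => G.isOpen_B _ _)
  have hΩm : lam * μ Ω ≤ 3 * I := by
    have a1 := G.vitali μ (μ.withDensity fun x => ‖f x‖ₑ) lam 𝓑 fun R hR => by
      rw [withDensity_apply _ (G.measurableSet_B _ _)]; exact hR
    rw [withDensity_apply _ MeasurableSet.univ, Measure.restrict_univ] at a1
    have a2 := mul_meas_ge_le_lintegral₀ (μ := μ) hf.meas.enorm.aemeasurable lam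
    calc lam * μ Ω ≤ lam * (μ {x | lam ≤ ‖f x‖ₑ} + I / lam + μ (⋃ R ∈ 𝓑, G.B 10 R)) :=
          mul_le_mul_right ((measure_union_le _ _).trans (add_le_add hU3 le_rfl)) _
      _ ≤ I + I + I := by
          rw [mul_add, mul_add, ENNReal.mul_div_cancel hl0 hlt]
          gcongr
      _ = _ := by ring
  have key : lam * μ ({x | 2 * lam < ‖op f x‖ₑ} \ Ω) ≤
      (ENNReal.ofReal C ^ 2 * (4 + 8 * bt N d) + cb N d δ C) * I := by
    rcases Ωᶜ.eq_empty_or_nonempty with e | ⟨p, hp⟩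
    · rw [compl_empty_iff.1 e, sdiff_univ, measure_empty, mul_zero]
      exact zero_le
    · exact h.weak_aux G hf hl0 hlt hI0 hΩ hp
        (fun x hx => (not_le.1 fun e => hx (Or.inl (hU1 e))).le)
        fun R hR => (not_le.1 fun e => hR ((subset_biUnion_of_mem (u := G.B 10)
          (show R ∈ 𝓑 from e)).trans
          subset_union_right)).le
  calc 2 * lam * μ {x | 2 * lam < ‖op f x‖ₑ}
      ≤ 2 * lam * (μ Ω + μ ({x | 2 * lam < ‖op f x‖ₑ} \ Ω)) := by
        refine mul_le_mul_right (le_trans (measure_mono fun x hx => ?_) (measure_union_le _ _)) _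
        by_cases hxΩ : x ∈ Ω
        · exact Or.inl hxΩ
        · exact Or.inr ⟨hx, hxΩ⟩
    _ = 2 * (lam * μ Ω + lam * μ ({x | 2 * lam < ‖op f x‖ₑ} \ Ω)) := by ring
    _ ≤ _ := (mul_le_mul_right (add_le_add hΩm key) _).trans (le_of_eq (by unfold cw; ring))

end Setup

end Pool.Agent.Lib.MP_f88263_an.A2
end

-- part Pool.Agent.Lib.MP_f88263_an.A2.Point
section

/-! The pointwise estimate of the stopping step. -/

open MeasureTheory Metric Set
open scoped ENNReal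

namespace Pool.Agent.Lib.MP_f88263_an.A2

variable {X ι 𝕜 : Type} [MetricSpace X] [MeasurableSpace X] [RCLike 𝕜] {N M : ℕ}

/-- The constant of the pointwise estimate. -/
noncomputable def cp (N d : ℕ) (δ C : ℝ) : ℝ≥0∞ :=
  1 + 4 * cw N d δ C * bt N d + kap d C * Th d C * (1 - qq δ)⁻¹ + 3 * (kap d C * Th d C) +
    1000 ^ d * (kap d C * Th d C)

theorem cp_ne_top (N d : ℕ) {δ : ℝ} (hδ : 0 < δ) (C : ℝ) : cp N d δ C ≠ ∞ := by
  have := geo_ne_top hδ
  have := bt_ne_top N d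
  have := cw_ne_top N d hδ C
  unfold cp kap Th
  finiteness

theorem one_le_cp (N d : ℕ) (δ C : ℝ) : 1 ≤ cp N d δ C := by
  unfold cp
  exact le_self_add.trans (le_self_add.trans (le_self_add.trans le_self_add))

theorem cw_ne_zero (N d : ℕ) (δ C : ℝ) : cw N d δ C ≠ 0 := by
  unfold cw
  simp

theorem Grid.lintegral_loc [OpensMeasurableSpace X] (G : Grid X ι N M) (μ : Measure X) (f : X → 𝕜)
    (D : ι) : ∫⁻ x, ‖G.loc f D x‖ₑ ∂μ = G.F μ f D := by
  simp only [Grid.loc, Grid.F, enorm_indicator_eq_indicator_enorm,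
    lintegral_indicator (G.measurableSet_B 10 D)]

theorem Grid.F_mono (G : Grid X ι N M) (μ : Measure X) (f : X → 𝕜) {D D' : ι} (h : G.le D' D) :
    G.F μ f D' ≤ G.F μ f D := lintegral_mono_set (G.B_subset_of_le h (by norm_num))

theorem Grid.term_le (G : Grid X ι N M) {μ : Measure X} {d : ℕ} {f : X → 𝕜} {l : ℤ} {x : X}
    {t : ℝ≥0∞} (κ : ℝ≥0∞) (h : G.F μ f (G.cell l x) ≤ t * μ (G.B 50 (G.cell l x))) :
    κ / G.V d l * G.F μ f (G.cell l x) ≤ κ * t * G.θ μ d (G.cell l x) := by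
  refine (mul_le_mul_right h _).trans (le_of_eq ?_)
  simp only [Grid.θ, G.lev_cell, div_eq_mul_inv]
  ring

/-- Points at which the operator splits along the grid. -/
def Grid.Reg (G : Grid X ι N M) (μ : Measure X) (K : X → X → 𝕜) (op : (X → 𝕜) → X → 𝕜)
    (f : X → 𝕜) (x : X) : Prop :=
  ∀ D D', G.le D' D → x ∈ G.B 10 D' →
    op (G.loc f D) x = ∫ y, K x y * G.piece f D D' y ∂μ + op (G.loc f D') x

namespace Setup

variable {μ : Measure X} {d : ℕ} {δ C : ℝ} {K : X → X → 𝕜} {op : (X → 𝕜) → X → 𝕜}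
  (h : Setup μ d δ C K op) (G : Grid X ι N M) [BorelSpace X] [Countable ι]
include h

theorem ae_reg {f : X → 𝕜} (hf : BB f) : ∀ᵐ x ∂μ, G.Reg μ K op f x := by
  have : ∀ᵐ x ∂μ, ∀ D D', op (G.piece f D D' + G.loc f D') x =
      op (G.piece f D D') x + op (G.loc f D') x :=
    ae_all_iff.2 fun D => ae_all_iff.2 fun D' => h.add _ _ (hf.piece G D D') (hf.loc G D')
  filter_upwards [this, h.rep_piece G hf] with x h1 h2 D D' hle hx
  rw [G.loc_eq f hle, h1, h2 D D' hx]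

theorem good_point {f : X → 𝕜} (hf : BB f) {R : ι} {E : Set X} {t : ℝ≥0∞} (ht0 : t ≠ 0)
    (ht : t ≠ ∞) (hR : G.Dbl μ d R) (h0 : μ (G.B 3 R) ≠ 0)
    (hE : 2 * μ (G.B 3 R ∩ E) ≤ μ (G.B 3 R)) (hF : G.F μ f R ≤ t * μ (G.B 50 R)) :
    ∃ x ∈ G.B 3 R, x ∉ E ∧ ‖op (G.loc f R) x‖ₑ ≤ 4 * cw N d δ C * bt N d * t ∧
      G.Reg μ K op f x := by
  by_contra hcon
  push Not at hcon
  have hc := cw_ne_top N d h.hδ C
  have hc0 := cw_ne_zero N d δ C
  have hβ := bt_ne_top N d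
  have hβ0 := bt_ne_zero N d
  set m := μ (G.B 3 R)
  have hm : m ≠ ∞ := Grid.meas_B_ne_top h.growth _ _
  set E' := {x | 4 * cw N d δ C * bt N d * t < ‖op (G.loc f R) x‖ₑ}
  have h1 : 4 * μ E' ≤ m := by
    have := h.weak G (hf.loc G R) (t := 4 * cw N d δ C * bt N d * t) (by finiteness)
    rw [G.lintegral_loc] at this
    refine (ENNReal.mul_le_mul_iff_right (a := cw N d δ C * bt N d * t)
      (by simp [hc0, hβ0, ht0]) (by finiteness)).1 ?_
    calc cw N d δ C * bt N d * t * (4 * μ E') = 4 * cw N d δ C * bt N d * t * μ E' := by ring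
      _ ≤ cw N d δ C * (t * (bt N d * m)) :=
          this.trans (mul_le_mul_right (hF.trans (mul_le_mul_right hR _)) _)
      _ = _ := by ring
  have h2 : m ≤ μ (G.B 3 R ∩ E) + μ E' := by
    refine le_trans (measure_mono_ae ?_) (measure_union_le _ _)
    filter_upwards [h.ae_reg G hf] with x hx hxB
    by_cases hxE : x ∈ E
    · exact Or.inl ⟨hxB, hxE⟩
    · exact Or.inr (not_le.1 fun e => hcon x hxB hxE e hx)
  refine h0 (le_zero_iff.1 ((ENNReal.add_le_add_iff_left (a := 3 * m) (by finiteness)).1 ?_))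
  calc 3 * m + m = 4 * m := by ring
    _ ≤ 4 * (μ (G.B 3 R ∩ E) + μ E') := mul_le_mul_right h2 _
    _ = 2 * (2 * μ (G.B 3 R ∩ E)) + 4 * μ E' := by ring
    _ ≤ 2 * m + m := by gcongr
    _ = _ := by ring

omit [Countable ι] in
theorem split {f : X → 𝕜} (hf : BB f) {x : X} (hx : G.Reg μ K op f x) (k : ℤ) (m : ℕ) :
    ‖op (G.loc f (G.cell k x)) x‖ₑ ≤
      ∑ n ∈ Finset.range m, kap d C / G.V d (k + n) * G.F μ f (G.cell (k + n) x) +
        ‖op (G.loc f (G.cell (k + m) x)) x‖ₑ := by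
  rw [hx _ _ (G.cell_le_cell (show k ≤ k + m by omega) x)
    (G.S_subset_B (by norm_num) _ (G.mem_cell _ x))]
  exact (enorm_add_le _ _).trans (add_le_add (h.piece_bound G hf k m x) le_rfl)

theorem point {f : X → 𝕜} (hf : BB f) {x : X} (hx : G.Reg μ K op f x)
    (hpos : ∀ k, μ (G.S (G.cell k x)) ≠ 0) {k w : ℤ} (hkw : k + 2 ≤ w) {t : ℝ≥0∞} (ht0 : t ≠ 0)
    (ht : t ≠ ∞) (hQ : G.Dbl μ d (G.cell k x))
    (hnb : ∀ l, k ≤ l → l ≤ w - 2 → (G.Dbl μ d (G.cell l x) →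
      2 * μ (G.B 3 (G.cell l x) ∩ {y | t < ‖op (G.loc f (G.cell k x)) y‖ₑ}) ≤
        μ (G.B 3 (G.cell l x))) ∧ G.F μ f (G.cell l x) ≤ t * μ (G.B 50 (G.cell l x))) :
    ‖op (G.loc f (G.cell k x)) x‖ₑ ≤ cp N d δ C * t + ‖op (G.loc f (G.cell w x)) x‖ₑ := by
  obtain ⟨j, hj, hjd, hjn⟩ := Grid.exists_greatest_dbl (G := G) h.growth (w - 2) x
  have hkj : k ≤ j := not_lt.1 fun e => hjn k e (by omega) hQ
  obtain ⟨m, rfl⟩ := Int.le.dest hkj
  obtain ⟨x', hx'B, hx'E, hx'R, hx'⟩ := h.good_point G hf ht0 ht hjd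
    (fun e => hpos _ (measure_mono_null (G.S_subset_B (by norm_num) _) e))
    ((hnb _ hkj hj).1 hjd) (hnb _ hkj hj).2
  have hle := G.cell_le_cell hkj x
  have a1 : ‖∫ y, K x' y * G.piece f (G.cell k x) (G.cell (k + m) x) y ∂μ‖ₑ ≤
      t + 4 * cw N d δ C * bt N d * t := by
    rw [eq_sub_of_add_eq (hx' _ _ hle (G.B_mono (by norm_num) _ hx'B)).symm]
    exact enorm_sub_le.trans (add_le_add (not_lt.1 hx'E) hx'R)
  have a2 : ∑ n ∈ Finset.range m, qq δ ^ (m - 1 - n) *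
      (kap d C / G.V d (k + n) * G.F μ f (G.cell (k + n) x)) ≤
      kap d C * Th d C * (1 - qq δ)⁻¹ * t := by
    calc _ ≤ ∑ n ∈ Finset.range m, qq δ ^ (m - 1 - n) * (kap d C * t * Th d C) := by
          refine Finset.sum_le_sum fun n hn => mul_le_mul_right ?_ _
          have := Finset.mem_range.1 hn
          exact (G.term_le _ (hnb _ (by omega) (by omega)).2).trans
            (mul_le_mul_right (Grid.θ_le h.growth _) _)
      _ ≤ (1 - qq δ)⁻¹ * (kap d C * t * Th d C) := by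
          rw [← Finset.sum_mul, Finset.sum_range_reflect (fun n => qq δ ^ n) m,
            ← ENNReal.tsum_geometric]
          exact mul_le_mul_left (ENNReal.sum_le_tsum _) _
      _ = _ := by ring
  have a3 : ‖op (G.loc f (G.cell k x)) x‖ₑ ≤ kap d C * Th d C * (1 - qq δ)⁻¹ * t +
      (t + 4 * cw N d δ C * bt N d * t) + ‖op (G.loc f (G.cell (k + m) x)) x‖ₑ := by
    rw [hx _ _ hle (G.S_subset_B (by norm_num) _ (G.mem_cell _ x))]
    refine (enorm_add_le _ _).trans (add_le_add ?_ le_rfl)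
    refine le_trans ?_ (add_le_add ((h.osc_bound G hf k m x x' hx'B).trans a2) a1)
    refine le_trans (le_of_eq ?_) (enorm_add_le _ _)
    rw [sub_add_cancel]
  obtain ⟨m', hm'⟩ := Int.le.dest (show k + m ≤ w - 1 by omega)
  have a4 : ‖op (G.loc f (G.cell (k + m) x)) x‖ₑ ≤ kap d C * t * (3 * Th d C) +
      ‖op (G.loc f (G.cell (w - 1) x)) x‖ₑ := by
    have := h.split G hf hx (k + m) m'
    rw [hm'] at this
    refine this.trans (add_le_add ?_ le_rfl)
    refine le_trans (Finset.sum_le_sum fun n hn => G.term_le (t := t) _ ?_) ?_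
    · have := Finset.mem_range.1 hn
      exact (hnb _ (by omega) (by omega)).2
    · rw [← Finset.mul_sum]
      exact mul_le_mul_right (Grid.θ_sum h.growth _ _ _ fun n hn hn' =>
        hjn _ (by omega) (by omega)) _
  have a5 : ‖op (G.loc f (G.cell (w - 1) x)) x‖ₑ ≤ 1000 ^ d * (kap d C * t * Th d C) +
      ‖op (G.loc f (G.cell w x)) x‖ₑ := by
    have := h.split G hf hx (w - 1) 1
    rw [Finset.sum_range_one, Nat.cast_zero, add_zero, Nat.cast_one, sub_add_cancel] at this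
    refine this.trans (add_le_add ?_ le_rfl)
    have e : G.V d (w - 2) = 1000 ^ d * G.V d (w - 1) := by
      rw [G.V_succ d (w - 2)]; congr 2; ring
    calc kap d C / G.V d (w - 1) * G.F μ f (G.cell (w - 1) x)
        ≤ kap d C / G.V d (w - 1) * G.F μ f (G.cell (w - 2) x) :=
          mul_le_mul_right (G.F_mono μ f (G.cell_le_cell (by omega) x)) _
      _ = 1000 ^ d * (kap d C / G.V d (w - 2) * G.F μ f (G.cell (w - 2) x)) := by
          rw [e, ← mul_assoc, ← mul_div_assoc,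
            ENNReal.mul_div_mul_left _ _ (by simp) (by finiteness)]
      _ ≤ _ := mul_le_mul_right ((G.term_le _ (hnb _ (by omega) le_rfl).2).trans
          (mul_le_mul_right (Grid.θ_le h.growth _) _)) _
  refine (a3.trans (add_le_add le_rfl (a4.trans (add_le_add le_rfl a5)))).trans (le_of_eq ?_)
  unfold cp
  ring

end Setup

end Pool.Agent.Lib.MP_f88263_an.A2
end

-- part Pool.Agent.Lib.MP_f88263_an.A2.Stop
section

/-! The stopping family below a doubling cube. -/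

open MeasureTheory Metric Set
open scoped ENNReal

namespace Pool.Agent.Lib.MP_f88263_an.A2

variable {X ι 𝕜 : Type} [MetricSpace X] [MeasurableSpace X] [RCLike 𝕜] {N M : ℕ}

/-- The stopping constant. -/
noncomputable def cA (N d : ℕ) (δ C : ℝ) : ℝ≥0∞ :=
  (12 * N + 1) * ((1 + 2 * bt N d) * cw N d δ C + 2)

theorem cA_ne_top (N d : ℕ) {δ : ℝ} (hδ : 0 < δ) (C : ℝ) : cA N d δ C ≠ ∞ := by
  have := bt_ne_top N d
  have := cw_ne_top N d hδ C
  unfold cA
  finiteness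

theorem one_le_cA (N d : ℕ) (δ C : ℝ) : 1 ≤ cA N d δ C :=
  one_le_mul_of_one_le_of_one_le le_add_self ((by norm_num : (1 : ℝ≥0∞) ≤ 2).trans le_add_self)

namespace Grid

variable (G : Grid X ι N M) (μ : Measure X) (d : ℕ)

/-- The cubes hanging below a family. -/
def hang (𝒲 : Set ι) : Set ι := {S | ∃ W ∈ 𝒲, G.ch μ d W S}

theorem hang_sum (𝒲 : Set ι) :
    ∑' S, (G.hang μ d 𝒲).indicator (fun S => μ (G.B 50 S)) S ≤
      2 * ∑' W, 𝒲.indicator (fun W => μ (G.B 50 W)) W := by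
  classical
  calc _ ≤ ∑' S, ∑' W, 𝒲.indicator
        (fun W => {S | G.ch μ d W S}.indicator (fun S => μ (G.B 50 S)) S) W := by
        refine ENNReal.tsum_le_tsum fun S => ?_
        by_cases hS : S ∈ G.hang μ d 𝒲
        · obtain ⟨W, hW, hc⟩ := id hS
          refine le_trans (le_of_eq ?_) (ENNReal.le_tsum W)
          rw [indicator_of_mem hS, indicator_of_mem hW,
            indicator_of_mem (show S ∈ {S | G.ch μ d W S} from hc)]
        · simp [hS]
    _ ≤ _ := by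
        rw [ENNReal.tsum_comm, ← ENNReal.tsum_mul_left]
        refine ENNReal.tsum_le_tsum fun W => ?_
        by_cases hW : W ∈ 𝒲
        · simpa only [indicator_of_mem hW] using ch_sum W
        · simp [hW]

theorem hang_local [OpensMeasurableSpace X] [Countable ι] {U : Set X} {k₀ : ℤ} {𝒲 : Set ι}
    (h𝒲 : ∀ W ∈ 𝒲, G.Wh U k₀ W) (D : ι) :
    ∑' S, (G.hang μ d 𝒲 ∩ {S | G.le S D}).indicator (fun S => μ (G.B 50 S)) S ≤
      (6 * N + 2) * μ (G.B 50 D) := by
  calc _ ≤ ∑' S, ((G.hang μ d (𝒲 ∩ {W | G.le W D})).indicator (fun S => μ (G.B 50 S)) S +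
        {S | G.ch μ d D S}.indicator (fun S => μ (G.B 50 S)) S) := by
        refine ENNReal.tsum_le_tsum fun S => ?_
        by_cases hS : S ∈ G.hang μ d 𝒲 ∩ {S | G.le S D}
        · rw [indicator_of_mem hS]
          obtain ⟨⟨W, hW, hc⟩, hD⟩ := hS
          rcases G.le_total_of_le hc.1 hD with e | e
          · rw [indicator_of_mem (show S ∈ G.hang μ d (𝒲 ∩ {W | G.le W D}) from ⟨W, ⟨hW, e⟩, hc⟩)]
            exact le_self_add
          · rw [indicator_of_mem (show S ∈ {S | G.ch μ d D S} from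
              ⟨hD, fun k hk => hc.2 k (e.1.trans hk)⟩)]
            exact le_add_self
        · simp [hS]
    _ ≤ 2 * ((3 * N : ℕ) * μ (G.B 50 D)) + 2 * μ (G.B 50 D) := by
        rw [ENNReal.tsum_add]
        exact add_le_add ((G.hang_sum μ d _).trans (mul_le_mul_right (G.sum_wh_le μ U k₀ _
          (fun W hW => h𝒲 W hW.1) (G.measurableSet_B _ _)
          fun W hW => G.B_subset_of_le hW.2 (by norm_num)) _)) (ch_sum D)
    _ = _ := by push_cast; ring

theorem hang_min {U : Set X} {k₀ : ℤ} {𝒲 : Set ι} (h𝒲 : ∀ W ∈ 𝒲, G.Wh U k₀ W) {P S : ι}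
    (hP : P ∈ G.hang μ d 𝒲) (hd : G.Dbl μ d P) (hS : S ∈ G.hang μ d 𝒲) (hle : G.le S P) :
    S = P := by
  obtain ⟨W, hW, hc⟩ := hP
  obtain ⟨W', hW', hc'⟩ := hS
  have : W = W' := by
    rcases G.le_total_of_le (G.le_trans' hle hc.1) hc'.1 with e | e
    · exact G.wh_eq_of_le (h𝒲 _ hW) (h𝒲 _ hW') e
    · exact (G.wh_eq_of_le (h𝒲 _ hW') (h𝒲 _ hW) e).symm
  subst this
  rcases hle.1.eq_or_lt with e | e
  · exact G.eq_of_le hle e.symm
  · exact (hc'.2 _ hc.1.1 e (by rwa [hle.2])).elim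

open Classical in
/-- What a cube of the stopping family contributes. -/
noncomputable def H (C : ℝ) (op : (X → 𝕜) → X → 𝕜) (f : X → 𝕜) (S : ι) (x : X) : ℝ≥0∞ :=
  if G.Dbl μ d S then ‖op (G.loc f S) x‖ₑ else kap d C / G.V d (G.lev S) * G.F μ f S

end Grid

namespace Setup

variable {μ : Measure X} {d : ℕ} {δ C : ℝ} {K : X → X → 𝕜} {op : (X → 𝕜) → X → 𝕜}
  (h : Setup μ d δ C K op) (G : Grid X ι N M) [BorelSpace X] [Countable ι]
include h

theorem exists_omega {f : X → 𝕜} (hf : BB f) {Q : ι} (hQ : G.Dbl μ d Q) {a : ℝ≥0∞} (ha0 : a ≠ 0)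
    (ha : a ≠ ∞) (hm0 : μ (G.B 50 Q) ≠ 0) (hF : G.F μ f Q = a * μ (G.B 50 Q)) :
    ∃ Ω : Set X, IsOpen Ω ∧ 12 * N * μ Ω ≤ μ (G.B 50 Q) ∧
      (∀ x, x ∉ Ω → ‖op (G.loc f Q) x‖ₑ ≤ cA N d δ C * a) ∧
      ∀ R, G.le R Q → (R = Q ∨ ¬ G.B 10 R ⊆ Ω) → (G.Dbl μ d R →
        2 * μ (G.B 3 R ∩ {y | cA N d δ C * a < ‖op (G.loc f Q) y‖ₑ}) ≤ μ (G.B 3 R)) ∧
        G.F μ f R ≤ cA N d δ C * a * μ (G.B 50 R) := by
  set A := cA N d δ C
  have hA : A ≠ ∞ := cA_ne_top N d h.hδ C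
  have hA1 : 1 ≤ A := one_le_cA N d δ C
  have hA0 : A ≠ 0 := (zero_lt_one.trans_le hA1).ne'
  set m := μ (G.B 50 Q)
  set β := bt N d
  set c := cw N d δ C
  set E := {y | A * a < ‖op (G.loc f Q) y‖ₑ}
  have mE : MeasurableSet E := measurableSet_lt measurable_const (h.meas _).enorm
  have hE : A * μ E ≤ c * m := by
    have := h.weak G (hf.loc G Q) (t := A * a) (by finiteness)
    rw [G.lintegral_loc, hF] at this
    exact (ENNReal.mul_le_mul_iff_right ha0 ha).1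
      ((le_of_eq (by ring)).trans (this.trans (le_of_eq (by ring))))
  have := h.reg
  obtain ⟨U, hU1, hU2, hU3⟩ := Set.exists_isOpen_le_add E μ
    (ε := m / A) (ENNReal.div_pos hm0 hA).ne'
  set 𝓑₁ := {R | G.Dbl μ d R ∧ μ (G.B 3 R) ≤ 2 * μ (G.B 3 R ∩ E)}
  set 𝓑₂ := {R | G.le R Q ∧ A * a * μ (G.B 50 R) ≤ G.F μ f R}
  have h1 : μ (⋃ R ∈ 𝓑₁, G.B 10 R) ≤ 2 * β * μ E := by
    have := G.vitali μ ((2 * β) • μ.restrict E) 1 𝓑₁ fun R hR => by
      rw [one_mul, Measure.smul_apply, Measure.restrict_apply (G.measurableSet_B _ _), smul_eq_mul]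
      refine hR.1.trans ((mul_le_mul_right hR.2 _).trans ?_)
      rw [← mul_assoc, mul_comm _ 2]
      exact mul_le_mul_right (measure_mono (inter_subset_inter_left _ (G.B_mono (by norm_num) _))) _
    simpa using this
  have h2 : A * μ (⋃ R ∈ 𝓑₂, G.B 10 R) ≤ m := by
    have := G.vitali μ ((μ.withDensity fun x => ‖f x‖ₑ).restrict (G.B 10 Q)) (A * a) 𝓑₂
      fun R hR => by
        rw [Measure.restrict_apply (G.measurableSet_B _ _),
          inter_eq_left.2 (G.B_subset_of_le hR.1 (by norm_num)),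
          withDensity_apply _ (G.measurableSet_B _ _)]
        exact hR.2
    rw [Measure.restrict_apply_univ, withDensity_apply _ (G.measurableSet_B _ _)] at this
    exact (ENNReal.mul_le_mul_iff_right ha0 ha).1
      ((le_of_eq (by ring)).trans (this.trans hF.le))
  refine ⟨U ∪ (⋃ R ∈ 𝓑₁, G.B 10 R) ∪ ⋃ R ∈ 𝓑₂, G.B 10 R,
    (hU2.union (isOpen_biUnion fun R _ => G.isOpen_B _ _)).union
      (isOpen_biUnion fun R _ => G.isOpen_B _ _), ?_,
    fun x hx => not_lt.1 fun e => hx (Or.inl (Or.inl (hU1 e))), ?_⟩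
  · refine (ENNReal.mul_le_mul_iff_right hA0 hA).1 ?_
    calc A * (12 * N * μ (U ∪ (⋃ R ∈ 𝓑₁, G.B 10 R) ∪ ⋃ R ∈ 𝓑₂, G.B 10 R))
        ≤ A * (12 * N * (μ E + m / A + 2 * β * μ E + μ (⋃ R ∈ 𝓑₂, G.B 10 R))) := by
          gcongr
          exact (measure_union_le _ _).trans (add_le_add ((measure_union_le _ _).trans
            (add_le_add hU3 h1)) le_rfl)
      _ = 12 * N * ((1 + 2 * β) * (A * μ E) + A * (m / A) + A * μ (⋃ R ∈ 𝓑₂, G.B 10 R)) := by
          ring
      _ ≤ 12 * N * ((1 + 2 * β) * (c * m) + m + m) := by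
          rw [ENNReal.mul_div_cancel hA0 hA]
          gcongr
      _ ≤ (12 * N + 1) * ((1 + 2 * β) * (c * m) + m + m) := by gcongr; exact le_self_add
      _ = A * m := by simp only [A, cA, β, c]; ring
  · rintro R hle (rfl | hR)
    · refine ⟨fun _ => (ENNReal.mul_le_mul_iff_right hA0 hA).1 ?_, ?_⟩
      · calc A * (2 * μ (G.B 3 R ∩ E)) ≤ 2 * (A * μ E) := by
              rw [mul_left_comm]; gcongr; exact inter_subset_right
          _ ≤ 2 * (c * (β * μ (G.B 3 R))) :=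
              mul_le_mul_right (hE.trans (mul_le_mul_right hQ _)) _
          _ = 1 * (2 * β * c) * μ (G.B 3 R) := by ring
          _ ≤ _ := by
              refine mul_le_mul_left (mul_le_mul' le_add_self (le_trans ?_ le_self_add)) _
              exact mul_le_mul_left le_add_self _
      · rw [hF, mul_assoc]
        exact le_mul_of_one_le_left' hA1
    · refine ⟨fun hd => (not_le.1 fun e => hR ?_).le, (not_le.1 fun e => hR ?_).le⟩
      · exact (subset_biUnion_of_mem (u := G.B 10) (show R ∈ 𝓑₁ from ⟨hd, e⟩)).trans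
          (subset_union_right.trans subset_union_left)
      · exact (subset_biUnion_of_mem (u := G.B 10) (show R ∈ 𝓑₂ from ⟨hle, e⟩)).trans
          subset_union_right

theorem stop {f : X → 𝕜} (hf : BB f) {Q : ι} (hQ : G.Dbl μ d Q) :
    ∃ 𝒯 : Set ι, (∀ S ∈ 𝒯, G.le S Q) ∧
      2 * ∑' S, 𝒯.indicator (fun S => μ (G.B 50 S)) S ≤ μ (G.B 50 Q) ∧
      (∀ D, ∑' S, (𝒯 ∩ {S | G.le S D}).indicator (fun S => μ (G.B 50 S)) S ≤
        (6 * N + 2) * μ (G.B 50 D)) ∧
      (∀ P ∈ 𝒯, G.Dbl μ d P → ∀ S ∈ 𝒯, G.le S P → S = P) ∧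
      ∀ᵐ x ∂μ, x ∈ G.S Q → ‖op (G.loc f Q) x‖ₑ ≤
        cp N d δ C * cA N d δ C * (G.F μ f Q / μ (G.B 50 Q)) +
          ∑' S, 𝒯.indicator (fun S => (G.S S).indicator (G.H μ d C op f S) x) S := by
  classical
  by_cases hF0 : G.F μ f Q = 0
  · refine ⟨∅, by simp, by simp, by simp, by simp, ?_⟩
    filter_upwards [h.op_zero_of (hf.loc G Q) (by rw [G.lintegral_loc, hF0])] with x hx _
    simp [hx]
  have hm0 : μ (G.B 50 Q) ≠ 0 := fun e => hF0 (setLIntegral_measure_zero _ _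
    (measure_mono_null (G.B_mono (by norm_num) Q) e))
  have hm : μ (G.B 50 Q) ≠ ∞ := Grid.meas_B_ne_top h.growth _ _
  have hFt : G.F μ f Q ≠ ∞ :=
    ne_top_of_le_ne_top (hf.integrable h.growth).2.ne (setLIntegral_le_lintegral _ _)
  set a := G.F μ f Q / μ (G.B 50 Q)
  have ha0 : a ≠ 0 := (ENNReal.div_pos hF0 hm).ne'
  have ha : a ≠ ∞ := ENNReal.div_ne_top hFt hm0
  obtain ⟨Ω, hΩ, h1, h2, h3⟩ := h.exists_omega G hf hQ ha0 ha hm0
    (ENNReal.div_mul_cancel hm0 hm).symm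
  set 𝒲 := {W | G.Wh Ω (G.lev Q + 2) W ∧ G.le W Q}
  have h𝒲 : ∀ W ∈ 𝒲, G.Wh Ω (G.lev Q + 2) W := fun W hW => hW.1
  refine ⟨G.hang μ d 𝒲, fun S ⟨W, hW, hc⟩ => G.le_trans' hc.1 hW.2, ?_, G.hang_local μ d h𝒲,
    fun P hP hd S hS => G.hang_min μ d h𝒲 hP hd hS, ?_⟩
  · refine le_trans (mul_le_mul_right ((G.hang_sum μ d 𝒲).trans (mul_le_mul_right
      (G.sum_wh_le μ Ω _ 𝒲 h𝒲 hΩ.measurableSet fun W hW =>
        (G.B_mono (by norm_num) W).trans hW.1.2.1) _)) _) (le_trans (le_of_eq ?_) h1)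
    push_cast; ring
  filter_upwards [h.ae_reg G hf, Grid.ae_exists_dbl (G := G) (d := d) h.growth,
    Grid.ae_cell_pos (G := G) (μ := μ)] with x hx hdb hpos hxQ
  rw [mul_assoc]
  by_cases hxΩ : x ∈ Ω
  swap
  · exact (h2 x hxΩ).trans ((le_mul_of_one_le_left' (one_le_cp N d δ C)).trans le_self_add)
  obtain ⟨W, hW, hxW⟩ := G.exists_wh_of_isOpen hΩ (G.lev Q + 2) hxΩ
  have hWQ : G.le W Q := G.le_of_mem hxW hxQ (by have := hW.1; omega)
  have hQx : G.cell (G.lev Q) x = Q := hxQ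
  have hWx : G.cell (G.lev W) x = W := hxW
  have a1 := h.point G hf hx hpos (k := G.lev Q) (w := G.lev W) hW.1 (t := cA N d δ C * a)
    (mul_ne_zero (zero_lt_one.trans_le (one_le_cA N d δ C)).ne' ha0)
    (ENNReal.mul_ne_top (cA_ne_top N d h.hδ C) ha) (by rwa [hQx]) (by
      intro l hl hl'
      rw [hQx]
      refine h3 _ (by simpa only [hQx] using G.cell_le_cell hl x) ?_
      by_cases e : G.lev W = G.lev Q + 2
      · left
        rwa [show l = G.lev Q by omega]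
      · right
        rw [G.cell_eq_of_mem hxW (by omega)]
        exact G.not_subset_of_wh hW e hl')
  rw [hQx] at a1
  refine a1.trans (add_le_add le_rfl ?_)
  have hex : ∃ m : ℕ, G.Dbl μ d (G.cell (G.lev W + m) x) := by
    obtain ⟨l, hl, hl'⟩ := hdb (G.lev W)
    obtain ⟨m, rfl⟩ := Int.le.dest hl
    exact ⟨m, hl'⟩
  refine (h.split G hf hx (G.lev W) (Nat.find hex)).trans ?_
  have a2 : ∀ n ∈ Finset.range (Nat.find hex + 1), (G.hang μ d 𝒲).indicator
      (fun S => (G.S S).indicator (G.H μ d C op f S) x) (G.cell (G.lev W + n) x) =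
      G.H μ d C op f (G.cell (G.lev W + n) x) x := by
    intro n hn
    rw [indicator_of_mem, indicator_of_mem (G.mem_cell _ x)]
    have hle := G.cell_le_cell (show G.lev W ≤ G.lev W + n by omega) x
    rw [hWx] at hle
    refine ⟨W, ⟨hW, hWQ⟩, hle, fun k hk hk' => ?_⟩
    rw [G.lev_cell] at hk'
    obtain ⟨j, rfl⟩ := Int.le.dest hk
    rw [G.cell_ctr_cell hk'.le]
    exact Nat.find_min hex (by have := Finset.mem_range.1 hn; omega)
  refine le_trans (le_of_eq ?_) (ENNReal.sum_le_tsum ((Finset.range (Nat.find hex + 1)).image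
    fun n : ℕ => G.cell (G.lev W + n) x))
  rw [Finset.sum_image fun n _ m _ e => by
      have := congrArg G.lev e
      simp only [G.lev_cell] at this
      omega, Finset.sum_congr rfl a2, Finset.sum_range_succ, Grid.H, if_pos (Nat.find_spec hex)]
  congr 1
  refine Finset.sum_congr rfl fun n hn => ?_
  rw [Grid.H, if_neg (Nat.find_min hex (Finset.mem_range.1 hn)), G.lev_cell]

end Setup

end Pool.Agent.Lib.MP_f88263_an.A2
end

-- part Pool.Agent.Lib.MP_f88263_an.A2.Sparse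
section

/-! The sparse bilinear bound. -/

open MeasureTheory Metric Set
open scoped ENNReal

namespace Pool.Agent.Lib.MP_f88263_an.A2

variable {X ι 𝕜 : Type} [MetricSpace X] [MeasurableSpace X] [RCLike 𝕜] {N M : ℕ}

/-- The constant of the sparse bound. -/
noncomputable def cs (N d : ℕ) (δ C : ℝ) : ℝ≥0∞ := cp N d δ C * cA N d δ C + kap d C

theorem cs_ne_top (N d : ℕ) {δ : ℝ} (hδ : 0 < δ) (C : ℝ) : cs N d δ C ≠ ∞ := by
  have := cp_ne_top N d hδ C
  have := cA_ne_top N d hδ C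
  unfold cs kap
  finiteness

namespace Grid

variable (G : Grid X ι N M) (μ : Measure X) (d : ℕ)

open Classical in
/-- The normalising factor of a cube. -/
noncomputable def nf (S : ι) : ℝ≥0∞ :=
  if G.Dbl μ d S then (μ (G.B 50 S))⁻¹ else (G.V d (G.lev S))⁻¹

/-- The price of a cube. -/
noncomputable def τ (φ g : X → ℝ≥0∞) (S : ι) : ℝ≥0∞ :=
  G.nf μ d S * (∫⁻ x in G.B 10 S, φ x ∂μ) * ∫⁻ x in G.B 10 S, g x ∂μ

/-- The packing condition. -/
def Pack (s : ι → ℝ≥0∞) : Prop :=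
  ∀ D, ∑' S, {S | G.le S D}.indicator (fun S => s S * μ (G.B 50 S)) S ≤
    2 * (6 * N + 2) * μ (G.B 50 D)

variable {G μ d}

theorem pack_of_total {s : ι → ℝ≥0∞} {Q D : ι} (h : ∑' S, s S * μ (G.B 50 S) ≤ 2 * μ (G.B 50 Q))
    (hle : G.le Q D) : ∑' S, {S | G.le S D}.indicator (fun S => s S * μ (G.B 50 S)) S ≤
      2 * (6 * N + 2) * μ (G.B 50 D) :=
  (ENNReal.tsum_le_tsum fun S => indicator_le_self' (fun _ _ => zero_le) S).trans (h.trans
    (mul_le_mul' (le_mul_of_one_le_right' ((by norm_num : (1 : ℝ≥0∞) ≤ 2).trans le_add_self))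
      (measure_mono (G.B_subset_of_le hle (by norm_num)))))

theorem pack_tsum {𝒯 : Set ι} {u : ι → ι → ℝ≥0∞}
    (h3 : ∀ D, ∑' S, (𝒯 ∩ {S | G.le S D}).indicator (fun S => μ (G.B 50 S)) S ≤
      (6 * N + 2) * μ (G.B 50 D))
    (h4 : ∀ P ∈ 𝒯, G.Dbl μ d P → ∀ S ∈ 𝒯, G.le S P → S = P)
    (u1 : ∀ P S, u P S ≠ 0 → G.le S P ∧ (G.Dbl μ d P ∨ S = P))
    (u2 : ∀ P, ∑' S, u P S * μ (G.B 50 S) ≤ 2 * μ (G.B 50 P)) (u3 : ∀ P, G.Pack μ (u P)) :
    G.Pack μ fun S => ∑' P, 𝒯.indicator (fun P => u P S) P := by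
  intro D
  have e : ∑' S, {S | G.le S D}.indicator
      (fun S => (∑' P, 𝒯.indicator (fun P => u P S) P) * μ (G.B 50 S)) S =
      ∑' P, 𝒯.indicator (fun P => ∑' S, {S | G.le S D}.indicator
        (fun S => u P S * μ (G.B 50 S)) S) P := by
    calc _ = ∑' S, ∑' P, 𝒯.indicator (fun P => {S | G.le S D}.indicator
          (fun S => u P S * μ (G.B 50 S)) S) P := by
          refine tsum_congr fun S => ?_
          by_cases hS : S ∈ {S | G.le S D}
          · simp only [indicator_of_mem hS, ← ENNReal.tsum_mul_right, indicator_mul_left]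
          · simp [indicator_of_notMem hS]
      _ = _ := by
          rw [ENNReal.tsum_comm]
          refine tsum_congr fun P => ?_
          by_cases hP : P ∈ 𝒯 <;> simp [hP]
  rw [e]
  have z : ∀ P, (∀ S, G.le S D → u P S = 0) → ∑' S, {S | G.le S D}.indicator
      (fun S => u P S * μ (G.B 50 S)) S = 0 := fun P hP => by
    refine ENNReal.tsum_eq_zero.2 fun S => ?_
    by_cases hS : S ∈ {S | G.le S D}
    · rw [indicator_of_mem hS, hP S hS, zero_mul]
    · exact indicator_of_notMem hS _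
  by_cases hc : ∃ P₀ ∈ 𝒯, G.Dbl μ d P₀ ∧ G.le D P₀
  · obtain ⟨P₀, h0, hd, hle⟩ := hc
    rw [tsum_eq_single P₀, indicator_of_mem h0]
    · exact u3 P₀ D
    · intro P hne
      by_cases hP : P ∈ 𝒯
      · rw [indicator_of_mem hP]
        refine z P fun S hS => not_not.1 fun hu => hne ?_
        obtain ⟨a1, a2⟩ := u1 P S hu
        rcases G.le_total_of_le a1 (G.le_trans' hS hle) with e | e
        · exact h4 P₀ h0 hd P hP e
        · rcases a2 with a2 | rfl
          · exact (h4 P hP a2 P₀ h0 e).symm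
          · exact h4 P₀ h0 hd S hP (G.le_trans' hS hle)
      · exact indicator_of_notMem hP _
  · rw [mul_assoc]
    refine le_trans ?_ (mul_le_mul_right (h3 D) _)
    rw [← ENNReal.tsum_mul_left]
    refine ENNReal.tsum_le_tsum fun P => ?_
    by_cases hP : P ∈ 𝒯
    · rw [indicator_of_mem hP]
      by_cases hPD : G.le P D
      · rw [indicator_of_mem (show P ∈ 𝒯 ∩ {S | G.le S D} from ⟨hP, hPD⟩)]
        exact (ENNReal.tsum_le_tsum fun S => indicator_le_self' (fun _ _ => zero_le) S).trans (u2 P)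
      · rw [z P fun S hS => not_not.1 fun hu => hPD ?_]
        · exact zero_le
        obtain ⟨a1, a2⟩ := u1 P S hu
        rcases G.le_total_of_le a1 hS with e | e
        · exact e
        · rcases a2 with a2 | rfl
          · exact (hc ⟨P, hP, a2, e⟩).elim
          · exact hS
    · simp [hP]

end Grid

namespace Setup

variable {μ : Measure X} {d : ℕ} {δ C : ℝ} {K : X → X → 𝕜} {op : (X → 𝕜) → X → 𝕜}
  (h : Setup μ d δ C K op) (G : Grid X ι N M) [BorelSpace X] [Countable ι]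
include h

omit [Countable ι] in
theorem crude {f : X → 𝕜} (hf : BB f) {g : X → ℝ≥0∞} (hg : Measurable g) {R : ℝ≥0∞} (hR : R ≠ ∞)
    (hgR : ∀ x, g x ≤ R) : ∃ L : ℝ≥0∞, L ≠ ∞ ∧ ∀ Q,
      ∫⁻ x in G.S Q, ‖op (G.loc f Q) x‖ₑ * g x ∂μ ≤ L * μ (G.B 50 Q) := by
  obtain ⟨R', hR'⟩ := hf.bdd
  refine ⟨ENNReal.ofReal C * ENNReal.ofReal R' * R, by finiteness, fun Q => le_of_sq_le_sq' ?_⟩
  refine (cauchy_schwarz _ (h.meas _).enorm.aemeasurable hg.aemeasurable).trans ?_
  have a1 : ∫⁻ x, ‖G.loc f Q x‖ₑ ^ 2 ∂μ ≤ ENNReal.ofReal R' ^ 2 * μ (G.B 50 Q) := by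
    rw [← lintegral_indicator_const (G.measurableSet_B _ _)]
    refine lintegral_mono fun x => ?_
    by_cases hx : x ∈ G.B 10 Q
    · rw [indicator_of_mem (G.B_mono (by norm_num) _ hx), Grid.loc, indicator_of_mem hx,
        ← ofReal_norm]
      exact pow_le_pow_left' (ENNReal.ofReal_le_ofReal (hR' x)) 2
    · simp [Grid.loc, hx]
  have a2 : ∫⁻ x in G.S Q, g x ^ 2 ∂μ ≤ R ^ 2 * μ (G.B 50 Q) := by
    refine (lintegral_mono fun x => pow_le_pow_left' (hgR x) 2).trans ?_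
    rw [setLIntegral_const]
    exact mul_le_mul_right (measure_mono (G.S_subset_B (by norm_num) _)) _
  refine (mul_le_mul' ((setLIntegral_le_lintegral _ _).trans ((h.bound _ (hf.loc G Q)).trans
    (mul_le_mul_right a1 _))) a2).trans (le_of_eq (by ring))

theorem iterate {f : X → 𝕜} (hf : BB f) {g : X → ℝ≥0∞} (hg : Measurable g) {L : ℝ≥0∞}
    (hL : ∀ Q, ∫⁻ x in G.S Q, ‖op (G.loc f Q) x‖ₑ * g x ∂μ ≤ L * μ (G.B 50 Q)) (n : ℕ) (Q : ι) :
    ∃ s : ι → ℝ≥0∞, (∀ S, s S ≠ 0 → G.le S Q ∧ (G.Dbl μ d Q ∨ S = Q)) ∧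
      ∑' S, s S * μ (G.B 50 S) ≤ 2 * μ (G.B 50 Q) ∧ G.Pack μ s ∧
      ∫⁻ x in G.S Q, G.H μ d C op f Q x * g x ∂μ ≤
        cs N d δ C * ∑' S, s S * G.τ μ d (fun x => ‖f x‖ₑ) g S + 2⁻¹ ^ n * L * μ (G.B 50 Q) := by
  classical
  have hs : ∀ (Q : ι) (φ : ι → ℝ≥0∞), ∑' S, (Pi.single Q 1 : ι → ℝ≥0∞) S * φ S = φ Q := by
    intro Q φ
    rw [tsum_eq_single Q fun S hS => by simp [hS]]
    simp
  have hSB : ∀ Q, ∫⁻ x in G.S Q, g x ∂μ ≤ ∫⁻ x in G.B 10 Q, g x ∂μ := fun Q =>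
    lintegral_mono_set (G.S_subset_B (by norm_num) _)
  have hnle : ∀ (Q D : ι) (s : ι → ℝ≥0∞), ¬ G.le Q D → ∀ S, {S | G.le S D}.indicator
      (fun S => ((Pi.single Q 1 : ι → ℝ≥0∞) S + s S) * μ (G.B 50 S)) S =
      {S | G.le S D}.indicator (fun S => s S * μ (G.B 50 S)) S := fun Q D s hD S => by
    by_cases hS : S ∈ {S | G.le S D}
    · rw [indicator_of_mem hS, indicator_of_mem hS, Pi.single_eq_of_ne (ne_of_mem_of_not_mem hS hD),
        zero_add]
    · simp [hS]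
  induction n generalizing Q with
  | zero => ?_
  | succ n ih => ?_
  all_goals
    by_cases hQ : G.Dbl μ d Q
    swap
    · have t2 : ∑' S, (Pi.single Q 1 : ι → ℝ≥0∞) S * μ (G.B 50 S) ≤ 2 * μ (G.B 50 Q) := by
        rw [hs]; exact le_mul_of_one_le_left' (by norm_num)
      refine ⟨Pi.single Q 1, fun S hS => ?_, t2, fun D => ?_, le_trans ?_ le_self_add⟩
      · obtain rfl : S = Q := not_not.1 fun e => hS (Pi.single_eq_of_ne e _)
        exact ⟨G.le_refl' _, Or.inr rfl⟩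
      · by_cases hD : G.le Q D
        · exact Grid.pack_of_total t2 hD
        · have := hnle Q D 0 hD
          simp only [Pi.zero_apply, add_zero, zero_mul, indicator_zero] at this
          simp [this]
      · simp only [Grid.H, if_neg hQ, hs, Grid.τ, Grid.nf, lintegral_const_mul _ hg]
        calc kap d C / G.V d (G.lev Q) * G.F μ f Q * ∫⁻ x in G.S Q, g x ∂μ
            ≤ cs N d δ C / G.V d (G.lev Q) * G.F μ f Q * ∫⁻ x in G.B 10 Q, g x ∂μ := by
              gcongr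
              · exact le_add_self
              · exact G.S_subset_B (by norm_num) _
          _ = _ := by simp only [div_eq_mul_inv, Grid.F]; ring
  · refine ⟨0, by simp, by simp, fun D => by simp, ?_⟩
    simpa only [Grid.H, if_pos hQ, Pi.zero_apply, zero_mul, tsum_zero, mul_zero, zero_add, pow_zero,
      one_mul] using hL Q
  obtain ⟨𝒯, h1, h2, h3, h4, h5⟩ := h.stop G hf hQ
  choose u u1 u2 u3 u4 using ih
  have hsw : ∀ φ : ι → ℝ≥0∞, ∑' S, ((Pi.single Q 1 : ι → ℝ≥0∞) S +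
      ∑' P, 𝒯.indicator (fun P => u P S) P) * φ S =
      φ Q + ∑' P, 𝒯.indicator (fun P => ∑' S, u P S * φ S) P := fun φ => by
    simp only [add_mul, ENNReal.tsum_add, hs, ← ENNReal.tsum_mul_right]
    rw [ENNReal.tsum_comm]
    congr 1
    refine tsum_congr fun P => ?_
    by_cases hP : P ∈ 𝒯 <;> simp [hP]
  have t2 : ∑' S, ((Pi.single Q 1 : ι → ℝ≥0∞) S + ∑' P, 𝒯.indicator (fun P => u P S) P) *
      μ (G.B 50 S) ≤ 2 * μ (G.B 50 Q) := by
    rw [hsw, two_mul]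
    refine add_le_add le_rfl (le_trans ?_ h2)
    rw [← ENNReal.tsum_mul_left]
    refine ENNReal.tsum_le_tsum fun P => ?_
    by_cases hP : P ∈ 𝒯
    · simpa only [indicator_of_mem hP] using u2 P
    · simp [hP]
  refine ⟨fun S => (Pi.single Q 1 : ι → ℝ≥0∞) S + ∑' P, 𝒯.indicator (fun P => u P S) P,
    fun S hS => ⟨?_, Or.inl hQ⟩, t2, fun D => ?_, ?_⟩
  · by_contra hcon
    refine hS ?_
    have hne : S ≠ Q := fun e => hcon (by rw [e]; exact G.le_refl' Q)
    simp only [Pi.single_eq_of_ne hne, zero_add]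
    refine ENNReal.tsum_eq_zero.2 fun P => ?_
    by_cases hP : P ∈ 𝒯
    · rw [indicator_of_mem hP]
      exact not_not.1 fun hu => hcon (G.le_trans' (u1 P S hu).1 (h1 P hP))
    · exact indicator_of_notMem hP _
  · by_cases hD : G.le Q D
    · exact Grid.pack_of_total t2 hD
    · simp only [hnle Q D _ hD]
      exact Grid.pack_tsum h3 h4 u1 u2 u3 D
  · have mH : ∀ S, Measurable (G.H μ d C op f S) := fun S => by
      unfold Grid.H
      split_ifs
      · exact (h.meas _).enorm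
      · exact measurable_const
    have mT : ∀ S, Measurable fun x =>
        𝒯.indicator (fun S => (G.S S).indicator (G.H μ d C op f S) x) S * g x := fun S => by
      by_cases hS : S ∈ 𝒯
      · simp only [indicator_of_mem hS]
        exact ((mH S).indicator (G.measurableSet_S S)).mul hg
      · simp [hS]
    calc ∫⁻ x in G.S Q, G.H μ d C op f Q x * g x ∂μ
        ≤ ∫⁻ x in G.S Q, cp N d δ C * cA N d δ C * (G.F μ f Q / μ (G.B 50 Q)) * g x +
          ∑' S, 𝒯.indicator (fun S => (G.S S).indicator (G.H μ d C op f S) x) S * g x ∂μ := by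
          refine setLIntegral_mono_ae' (G.measurableSet_S Q) ?_
          filter_upwards [h5] with x hx hxQ
          rw [ENNReal.tsum_mul_right, ← add_mul, Grid.H, if_pos hQ]
          exact mul_le_mul_left (hx hxQ) _
      _ ≤ cs N d δ C * G.τ μ d (fun x => ‖f x‖ₑ) g Q + ∑' P, (cs N d δ C *
            𝒯.indicator (fun P => ∑' S, u P S * G.τ μ d (fun x => ‖f x‖ₑ) g S) P +
            2⁻¹ ^ n * L * 𝒯.indicator (fun S => μ (G.B 50 S)) P) := by
          rw [lintegral_add_left (hg.const_mul _), lintegral_const_mul _ hg,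
            lintegral_tsum fun S => (mT S).aemeasurable]
          refine add_le_add ?_ (ENNReal.tsum_le_tsum fun P => ?_)
          · rw [Grid.τ, Grid.nf, if_pos hQ]
            refine (mul_le_mul' (mul_le_mul_left (show _ ≤ cs N d δ C from le_self_add) _)
              (hSB Q)).trans (le_of_eq ?_)
            simp only [div_eq_mul_inv, Grid.F]; ring
          · by_cases hP : P ∈ 𝒯
            · simp only [indicator_of_mem hP]
              refine (setLIntegral_le_lintegral _ _).trans (le_trans (le_of_eq ?_) (u4 P))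
              rw [← lintegral_indicator (G.measurableSet_S P)]
              simp only [indicator_mul_left]
            · simp [hP]
      _ ≤ _ := by
          rw [hsw, ENNReal.tsum_add, ENNReal.tsum_mul_left, ENNReal.tsum_mul_left, mul_add,
            add_assoc]
          refine add_le_add le_rfl (add_le_add le_rfl ?_)
          refine le_trans (le_of_eq ?_) (mul_le_mul_right h2 _)
          rw [pow_succ, mul_right_comm _ 2⁻¹, mul_assoc _ 2⁻¹, ← mul_assoc 2⁻¹,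
            ENNReal.inv_mul_cancel (by norm_num) (by norm_num), one_mul]

theorem sparse {f : X → 𝕜} (hf : BB f) {g : X → ℝ≥0∞} (hg : Measurable g) {R : ℝ≥0∞} (hR : R ≠ ∞)
    (hgR : ∀ x, g x ≤ R) (hgs : Bornology.IsBounded (Function.support g)) {Γ : ℝ≥0∞}
    (hΓ : ∀ s, G.Pack μ s → ∑' S, s S * G.τ μ d (fun x => ‖f x‖ₑ) g S ≤ Γ) :
    ∫⁻ x, ‖op f x‖ₑ * g x ∂μ ≤ N * (cs N d δ C * Γ) := by
  classical
  obtain ⟨L, hL, hL'⟩ := h.crude G hf hg hR hgR
  have key : ∀ Q, G.Dbl μ d Q → ∫⁻ x in G.S Q, ‖op (G.loc f Q) x‖ₑ * g x ∂μ ≤ cs N d δ C * Γ := by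
    intro Q hQ
    have h2 : Filter.Tendsto (fun n : ℕ => cs N d δ C * Γ + 2⁻¹ ^ n * (L * μ (G.B 50 Q)))
        Filter.atTop (nhds (cs N d δ C * Γ + 0 * (L * μ (G.B 50 Q)))) :=
      (ENNReal.Tendsto.mul_const
        (ENNReal.tendsto_pow_atTop_nhds_zero_of_lt_one (r := 2⁻¹) (by norm_num))
        (Or.inr (ENNReal.mul_ne_top hL (Grid.meas_B_ne_top h.growth _ _)))).const_add _
    rw [zero_mul, add_zero] at h2
    refine ge_of_tendsto' h2 fun n => ?_
    obtain ⟨s, -, -, s3, s4⟩ := h.iterate G hf hg hL' n Q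
    simp only [Grid.H, if_pos hQ] at s4
    rw [← mul_assoc]
    exact s4.trans (add_le_add (mul_le_mul_right (hΓ s s3) _) le_rfl)
  rcases isEmpty_or_nonempty X with hX | ⟨⟨z⟩⟩
  · simp
  obtain ⟨ρ, -, hρ⟩ := (hf.supp.union hgs).subset_ball_lt 0 z
  obtain ⟨k, -, hk⟩ := G.exists_lt_r 0 ρ
  obtain ⟨t, ht, ht'⟩ := G.count k z
  have hr := G.r_pos k
  set t' := t.filter fun D => G.lev D = k ∧ dist (G.ctr D) z < 2 * G.r k
  calc ∫⁻ x, ‖op f x‖ₑ * g x ∂μ = ∫⁻ x in ⋃ D ∈ t', G.S D, ‖op f x‖ₑ * g x ∂μ := by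
        refine (setLIntegral_eq_of_support_subset fun x hx => ?_).symm
        have a1 : dist x z < ρ := hρ (Or.inr (right_ne_zero_of_mul hx))
        have a2 := G.dist_ctr k x
        have a3 := dist_triangle_left (G.ctr (G.cell k x)) z x
        exact mem_biUnion (Finset.mem_filter.2 ⟨ht' _ (G.lev_cell _ _) (by linarith),
          G.lev_cell _ _, by linarith⟩) (G.mem_cell k x)
    _ ≤ ∑ D ∈ t', ∫⁻ x in G.S D, ‖op f x‖ₑ * g x ∂μ := by
        rw [lintegral_biUnion_finset (fun D hD D' hD' hne => Set.disjoint_left.2 fun x h1 h2 =>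
          hne (G.eq_of_le (G.le_of_mem h1 h2 (by
            rw [(Finset.mem_filter.1 hD).2.1, (Finset.mem_filter.1 hD').2.1])) (by
            rw [(Finset.mem_filter.1 hD).2.1, (Finset.mem_filter.1 hD').2.1])))
          fun D _ => G.measurableSet_S D]
    _ ≤ t'.card • (cs N d δ C * Γ) := by
        refine Finset.sum_le_card_nsmul _ _ _ fun D hD => ?_
        obtain ⟨-, d1, d2⟩ := Finset.mem_filter.1 hD
        obtain ⟨l, hl, hld⟩ := Grid.exists_dbl (G := G) h.growth (G.lev D) (G.ctr D)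
        have hle := G.cell_le_cell hl (G.ctr D)
        rw [G.cell_ctr] at hle
        refine (lintegral_mono_set (G.S_mono hle)).trans (le_trans (le_of_eq ?_) (key _ hld))
        rw [Grid.loc, indicator_eq_self.2]
        refine Subset.trans (fun y hy => ?_) (G.B_subset_of_le hle (by norm_num))
        have a1 : dist y z < ρ := hρ (Or.inl hy)
        change dist y (G.ctr D) < 10 * G.r (G.lev D)
        rw [d1]
        linarith [dist_triangle_right y (G.ctr D) z]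
    _ ≤ _ := by
        rw [nsmul_eq_mul]
        exact mul_le_mul_left (by exact_mod_cast (Finset.card_filter_le _ _).trans ht) _

end Setup

end Pool.Agent.Lib.MP_f88263_an.A2
end

-- part Pool.Agent.Lib.MP_f88263_an.A2.Laminar
section

/-! Laminar enlargements of balls and the Carleson condition. -/

open MeasureTheory Metric Set
open scoped ENNReal

namespace Pool.Agent.Lib.MP_f88263_an.A2

variable {X ι : Type}

/-- A set together with the members of a family that meet it. -/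
def ab (T : ι → Set X) (s : Set ι) (A : Set X) : Set X :=
  A ∪ ⋃ i ∈ {i ∈ s | (T i ∩ A).Nonempty}, T i

theorem subset_ab {T : ι → Set X} {s : Set ι} {A : Set X} {i : ι} (hi : i ∈ s)
    (h : (T i ∩ A).Nonempty) : T i ⊆ ab T s A :=
  (subset_biUnion_of_mem (u := T) (show i ∈ {i ∈ s | (T i ∩ A).Nonempty} from ⟨hi, h⟩)).trans
    subset_union_right

theorem absorb {T : ι → Set X} {ρ : ι → ℤ} {u : Finset ι} (h : Lam ρ T u) {s : Set ι}
    (hs : s ⊆ u) (A : Set X) {i : ι} (hi : i ∈ s) : T i ⊆ ab T s A ∨ Disjoint (T i) (ab T s A) := by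
  rw [or_iff_not_imp_right, not_disjoint_iff]
  rintro ⟨x, hx, hxA | hxA⟩
  · exact subset_ab hi ⟨x, hx, hxA⟩
  · obtain ⟨j, hj, hxj⟩ := mem_iUnion₂.1 hxA
    rcases le_total (ρ j) (ρ i) with e | e
    · exact ((h i (hs hi) j (hs hj.1) e).resolve_right
        (not_disjoint_iff.2 ⟨x, hx, hxj⟩)).trans (subset_ab hj.1 hj.2)
    · exact subset_ab hi (hj.2.mono (inter_subset_inter_left _
        ((h j (hs hj.1) i (hs hi) e).resolve_right (not_disjoint_iff.2 ⟨x, hxj, hx⟩))))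

variable [MetricSpace X] [MeasurableSpace X] {N M : ℕ}

omit [MetricSpace X] in
theorem measurableSet_ab [Countable ι] {T : ι → Set X} {s : Set ι} {A : Set X}
    (hT : ∀ i ∈ s, MeasurableSet (T i)) (hA : MeasurableSet A) : MeasurableSet (ab T s A) :=
  hA.union (MeasurableSet.biUnion (to_countable _) fun i hi => hT i hi.1)

namespace Grid

variable (G : Grid X ι N M)

theorem ab_subset {T : ι → Set X} {s : Set ι} {a : ι} {t t' ε : ℝ} (hε : 0 ≤ ε)
    (ht : t + 202 * ε ≤ t') (hT : ∀ S ∈ s, T S ⊆ G.B 101 S)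
    (hr : ∀ S ∈ s, (T S ∩ G.B t a).Nonempty → G.r (G.lev S) ≤ ε * G.r (G.lev a)) :
    ab T s (G.B t a) ⊆ G.B t' a := by
  refine union_subset (G.B_mono (by linarith) a) (iUnion₂_subset fun S hS y hy => ?_)
  obtain ⟨z, hz1, hz2⟩ := hS.2
  have a1 : dist y (G.ctr S) < 101 * G.r (G.lev S) := hT S hS.1 hy
  have a2 : dist z (G.ctr S) < 101 * G.r (G.lev S) := hT S hS.1 hz1
  have a3 : dist z (G.ctr a) < t * G.r (G.lev a) := hz2
  have a4 := hr S hS.1 hS.2
  have a5 := mul_le_mul_of_nonneg_right ht (G.r_pos (G.lev a)).le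
  change dist y (G.ctr a) < t' * G.r (G.lev a)
  linarith [dist_triangle y z (G.ctr a), dist_triangle_right y z (G.ctr S)]

theorem disjoint_of_sep {S S' : ι} (h1 : G.lev S = G.lev S') (h2 : G.col S = G.col S')
    (h3 : S ≠ S') : Disjoint (G.B 101 S) (G.B 101 S') := by
  refine Set.disjoint_left.2 fun y hy hy' => ?_
  have a1 : dist y (G.ctr S) < 101 * G.r (G.lev S) := hy
  have a2 : dist y (G.ctr S') < 101 * G.r (G.lev S') := hy'
  rw [← h1] at a2
  linarith [G.sep S S' h1 h2 h3, dist_triangle_left (G.ctr S) (G.ctr S') y, G.r_pos (G.lev S)]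

variable [OpensMeasurableSpace X] [Countable ι]

theorem halo (s : Finset ι) {c : Fin M} (hc : ∀ S ∈ s, G.col S = c) :
    ∃ T : ι → Set X, (∀ S ∈ s, MeasurableSet (T S) ∧ G.B 100 S ⊆ T S ∧ T S ⊆ G.B 101 S) ∧
      Lam G.lev T s := by
  classical
  induction s using Finset.induction_on_min_value G.lev with
  | empty => exact ⟨fun _ => ∅, by simp, by simp [Lam]⟩
  | insert a s ha hmin ih =>
    obtain ⟨T, hT, hl⟩ := ih fun S hS => hc S (Finset.mem_insert_of_mem hS)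
    have hne : ∀ S ∈ s, Function.update T a (ab T s (G.B 100 a)) S = T S := fun S hS =>
      Function.update_of_ne (ne_of_mem_of_not_mem hS ha) _ _
    have hdis : ∀ S ∈ s, G.lev S ≤ G.lev a → Disjoint (G.B 101 S) (G.B 101 a) := fun S hS e =>
      G.disjoint_of_sep (le_antisymm e (hmin S hS)) ((hc S (Finset.mem_insert_of_mem hS)).trans
        (hc a (Finset.mem_insert_self a s)).symm) (ne_of_mem_of_not_mem hS ha)
    have hsub : ab T s (G.B 100 a) ⊆ G.B 101 a :=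
      G.ab_subset (ε := 1 / 1000) (by norm_num) (by norm_num) (fun S hS => (hT S hS).2.2)
        fun S hS hn => by
          have : G.lev a < G.lev S := not_le.1 fun e => hn.not_disjoint
            ((hdis S hS e).mono (hT S hS).2.2 (G.B_mono (by norm_num) a))
          linarith [G.r_lt this]
    refine ⟨Function.update T a (ab T s (G.B 100 a)), fun S hS => ?_, fun S hS S' hS' e => ?_⟩
    · rcases Finset.mem_insert.1 hS with rfl | hS
      · rw [Function.update_self]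
        exact ⟨measurableSet_ab (fun S hS => (hT S hS).1) (G.measurableSet_B _ _),
          subset_union_left, hsub⟩
      · rw [hne S hS]; exact hT S hS
    · rcases Finset.mem_insert.1 hS with rfl | h1 <;> rcases Finset.mem_insert.1 hS' with rfl | h2
      · exact Or.inl Subset.rfl
      · rw [Function.update_self, hne S' h2]
        exact Or.inr ((hdis S' h2 e).symm.mono hsub (hT S' h2).2.2)
      · rw [Function.update_self, hne S h1]
        exact absorb hl Subset.rfl _ h1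
      · rw [hne S h1, hne S' h2]
        exact hl S h1 S' h2 e

theorem exists_lam (s : Finset ι) {c : Fin M} (hc : ∀ S ∈ s, G.col S = c) {j : ℕ}
    (hgap : ∀ S ∈ s, ∀ S' ∈ s, G.lev S' < G.lev S → G.lev S' + j ≤ G.lev S) {a b : ℝ}
    (hab : a + 202 * (1 / 1000 ^ j) ≤ b) (hb : b ≤ 100) :
    ∃ L : ι → Set X, (∀ S ∈ s, MeasurableSet (L S) ∧ G.B a S ⊆ L S ∧ L S ⊆ G.B b S) ∧
      ∀ S ∈ s, ∀ S' ∈ s, S ≠ S' → G.lev S' ≤ G.lev S →
        (G.B 100 S ⊆ L S' ∧ L S ⊆ L S') ∨ Disjoint (L S) (L S') := by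
  obtain ⟨T, hT, hl⟩ := G.halo s hc
  have h0 : (0 : ℝ) ≤ 1 / 1000 ^ j := by positivity
  have h1 : ∀ S ∈ s, ab T {S' ∈ (s : Set ι) | G.lev S < G.lev S'} (G.B a S) ⊆ G.B b S :=
    fun S hS => G.ab_subset h0 hab (fun S' hS' => (hT S' hS'.1).2.2) fun S' hS' _ => by
      have := G.r_anti (hgap S' hS'.1 S hS hS'.2)
      rw [G.r_add_nat] at this
      rwa [one_div, mul_comm, ← div_eq_mul_inv]
  have h2 : ∀ S ∈ s, ab T {S' ∈ (s : Set ι) | G.lev S < G.lev S'} (G.B a S) ⊆ T S := fun S hS => by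
    have : G.B a S ⊆ T S := (G.B_mono (by linarith) S).trans (hT S hS).2.1
    exact union_subset this (iUnion₂_subset fun S' hS' => (hl S' hS'.1.1 S hS hS'.1.2.le).resolve_right
      (hS'.2.mono (inter_subset_inter_right _ this)).not_disjoint)
  refine ⟨fun S => ab T {S' ∈ (s : Set ι) | G.lev S < G.lev S'} (G.B a S), fun S hS =>
    ⟨measurableSet_ab (fun S' hS' => (hT S' hS'.1).1) (G.measurableSet_B _ _), subset_union_left,
      h1 S hS⟩, fun S hS S' hS' hne e => ?_⟩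
  rcases e.eq_or_lt with e | e
  · exact Or.inr ((G.disjoint_of_sep e.symm ((hc S hS).trans (hc S' hS').symm) hne).mono
      ((h2 S hS).trans (hT S hS).2.2) ((h2 S' hS').trans (hT S' hS').2.2))
  · exact (absorb hl (s := {S'' ∈ (s : Set ι) | G.lev S' < G.lev S''}) (fun _ h => h.1) (G.B a S')
      ⟨hS, e⟩).imp (fun h => ⟨(hT S hS).2.1.trans h, (h2 S hS).trans h⟩)
      fun h => h.mono_left (h2 S hS)

theorem pack_carleson {μ : Measure X} {d : ℕ} {C : ℝ} (hg : Growth μ d C) {m : ι → ℝ≥0∞}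
    (hm : G.Pack μ m) {u : Finset ι} {L : ι → Set X} {a : ℝ} (ha : a ≤ 50)
    (hL : ∀ S ∈ u, MeasurableSet (L S) ∧ G.B a S ⊆ L S)
    (hl : ∀ S ∈ u, ∀ S' ∈ u, S ≠ S' → G.lev S' ≤ G.lev S →
      G.B 100 S ⊆ L S' ∨ Disjoint (L S) (L S')) :
    ∑ S ∈ u, m S * μ (G.B a S) ≤ 2 * (6 * N + 2) * (3 * N + 1) * μ (⋃ S ∈ u, L S) := by
  classical
  set U := ⋃ S ∈ u, L S
  set Λ : ℝ≥0∞ := 2 * (6 * N + 2)
  have mU : MeasurableSet U := Finset.measurableSet_biUnion u fun S hS => (hL S hS).1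
  obtain ⟨k₀, hk₀⟩ := (u.image G.lev).bddBelow
  have h1 : ∑ S ∈ u.filter (fun S => G.B 100 S ⊆ U), m S * μ (G.B a S) ≤
      Λ * ((3 * N : ℕ) * μ U) := by
    calc _ ≤ ∑ S ∈ u.filter (fun S => G.B 100 S ⊆ U), ∑' D, {D | G.Wh U k₀ D}.indicator
          (fun D => {S | G.le S D}.indicator (fun S => m S * μ (G.B 50 S)) S) D := by
          refine Finset.sum_le_sum fun S hS => ?_
          obtain ⟨h1, h2⟩ := Finset.mem_filter.1 hS
          obtain ⟨D, hD, hle⟩ := G.exists_wh (hk₀ (Finset.mem_image_of_mem _ h1)) h2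
          refine le_trans ?_ (ENNReal.le_tsum D)
          rw [indicator_of_mem (show D ∈ {D | G.Wh U k₀ D} from hD),
            indicator_of_mem (show S ∈ {S | G.le S D} from hle)]
          exact mul_le_mul_right (measure_mono (G.B_mono ha S)) _
      _ ≤ ∑' D, Λ * {D | G.Wh U k₀ D}.indicator (fun D => μ (G.B 50 D)) D := by
          refine (ENNReal.sum_le_tsum _).trans ?_
          rw [ENNReal.tsum_comm]
          refine ENNReal.tsum_le_tsum fun D => ?_
          by_cases hD : D ∈ {D | G.Wh U k₀ D}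
          · simpa only [indicator_of_mem hD] using hm D
          · simp [indicator_of_notMem hD]
      _ ≤ _ := by
          rw [ENNReal.tsum_mul_left]
          exact mul_le_mul_right (G.sum_wh_le μ U k₀ _ (fun D hD => hD) mU
            fun D hD => (G.B_mono (by norm_num) D).trans hD.2.1) _
  have h2 : ∑ S ∈ u.filter (fun S => ¬ G.B 100 S ⊆ U), m S * μ (G.B a S) ≤ Λ * μ U := by
    have hd : ((u.filter fun S => ¬ G.B 100 S ⊆ U : Finset ι) : Set ι).PairwiseDisjoint L := by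
      intro S hS S' hS' hne
      obtain ⟨a1, a2⟩ := Finset.mem_filter.1 (Finset.mem_coe.1 hS)
      obtain ⟨b1, b2⟩ := Finset.mem_filter.1 (Finset.mem_coe.1 hS')
      rcases le_total (G.lev S') (G.lev S) with e | e
      · exact (hl S a1 S' b1 hne e).resolve_left fun h =>
          a2 (h.trans (subset_biUnion_of_mem (u := L) b1))
      · exact ((hl S' b1 S a1 hne.symm e).resolve_left fun h =>
          b2 (h.trans (subset_biUnion_of_mem (u := L) a1))).symm
    refine le_trans ?_ (mul_le_mul_right (measure_mono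
      (biUnion_subset_biUnion_left (Finset.filter_subset (fun S => ¬ G.B 100 S ⊆ U) u))) _)
    erw [measure_biUnion_finset hd fun S hS => (hL S (Finset.mem_filter.1 hS).1).1]
    rw [Finset.mul_sum]
    refine Finset.sum_le_sum fun S hS => ?_
    by_cases h0 : μ (G.B 50 S) = 0
    · rw [measure_mono_null (G.B_mono ha S) h0, mul_zero]
      exact zero_le
    · refine mul_le_mul' ((ENNReal.mul_le_mul_iff_left h0 (meas_B_ne_top hg _ _)).1
        (le_trans ?_ (hm S))) (measure_mono (hL S (Finset.mem_filter.1 hS).1).2)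
      refine le_trans (le_of_eq ?_) (ENNReal.le_tsum S)
      rw [indicator_of_mem (show S ∈ {S' | G.le S' S} from G.le_refl' S)]
  rw [← Finset.sum_filter_add_sum_filter_not u fun S => G.B 100 S ⊆ U]
  refine (add_le_add h1 h2).trans (le_of_eq ?_)
  push_cast; ring

end Grid

end Pool.Agent.Lib.MP_f88263_an.A2
end
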