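import Mathlib
import Pool.Agent.Lib.MP_f88263_an.A2.Laminar
import Pool.Agent.Lib.MP_f88263_an.A2.GridEuc
import Pool.Agent.Lib.MP_f88263_an.A2.Defs

-- part Pool.Agent.Lib.MP_f88263_an.A2.Weighted
section

/-! The weighted bound for packed sums. -/

open MeasureTheory Metric Set
open scoped ENNReal

namespace Pool.Agent.Lib.MP_f88263_an.A2

variable {X ι : Type} [MetricSpace X] [MeasurableSpace X] {N M : ℕ}

/-- The intermediate radii. -/
noncomputable def tt (k : ℕ) : ℝ := 10 * (1 + 1 / 2 ^ k)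

theorem le_tt (k : ℕ) : 10 ≤ tt k := by
  have : (0 : ℝ) ≤ 1 / 2 ^ k := by positivity
  unfold tt; linarith

theorem tt_le (k : ℕ) : tt k ≤ 20 := by
  have : (1 : ℝ) / 2 ^ k ≤ 1 := div_le_one_of_le₀ (one_le_pow₀ (by norm_num)) (by positivity)
  unfold tt; linarith

theorem tt_succ (k : ℕ) : tt (k + 1) + 202 * (1 / 1000 ^ (k + 1)) ≤ tt k := by
  have h : (1 : ℝ) / 1000 ^ k ≤ 1 / 2 ^ k :=
    one_div_le_one_div_of_le (by positivity) (pow_le_pow_left₀ (by norm_num) (by norm_num) k)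
  have : (0 : ℝ) ≤ 1 / 2 ^ k := by positivity
  unfold tt
  rw [pow_succ, pow_succ, ← div_div, ← div_div]
  linarith

/-- The sum over the classes. -/
noncomputable def cz : ℝ≥0∞ := ∑' k : ℕ, ((k + 1 : ℕ) : ℝ≥0∞) * 2⁻¹ ^ k

theorem cz_ne_top : cz ≠ ∞ := by
  have h1 := summable_pow_mul_geometric_of_norm_lt_one (R := ℝ) 1 (r := 2⁻¹) (by norm_num)
  have h2 := h1.add (summable_geometric_of_lt_one (r := 2⁻¹) (by norm_num) (by norm_num))
  have := ENNReal.ofReal_tsum_of_nonneg (fun n => by positivity) h2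
  refine ne_top_of_le_ne_top ENNReal.ofReal_ne_top (le_of_eq ((tsum_congr fun k => ?_).trans
    this.symm))
  rw [pow_one, ← add_one_mul, ENNReal.ofReal_mul (by positivity), ENNReal.ofReal_pow (by norm_num),
    ENNReal.ofReal_inv_of_pos (by norm_num), ← Nat.cast_succ, ENNReal.ofReal_natCast]
  simp

/-- The constant of the choice of radii. -/
noncomputable def cr (N d : ℕ) (C : ℝ) : ℝ≥0∞ := bt N d + 4 * (Th d C + 1)

/-- The constant of the weighted bound. -/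
noncomputable def cq (N M d : ℕ) (C : ℝ) : ℝ≥0∞ :=
  cz * (M * (cr N d C * (2 * (6 * N + 2) * (3 * N + 1) * 4)))

theorem cq_ne_top (N M d : ℕ) (C : ℝ) : cq N M d C ≠ ∞ := by
  have := cz_ne_top
  have := bt_ne_top N d
  unfold cq cr Th
  finiteness

omit [MetricSpace X] in
theorem avg_spec {μ : Measure X} {φ w σ : X → ℝ≥0∞} (hσ : Measurable σ)
    (h : ∀ᵐ x ∂μ, w x * σ x = 1) {L : Set X} (h1 : ∫⁻ x in L, σ x ∂μ ≠ ∞)
    (h2 : ∫⁻ x in L, φ x ∂μ ≠ ∞) :
    ∃ c : ℝ≥0∞, c ≠ ∞ ∧ c * ∫⁻ x in L, σ x ∂μ = ∫⁻ x in L, φ x ∂μ := by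
  by_cases h0 : ∫⁻ x in L, σ x ∂μ = 0
  · refine ⟨0, by simp, ?_⟩
    rw [zero_mul, eq_comm]
    refine (lintegral_congr_ae ?_).trans lintegral_zero
    filter_upwards [(lintegral_eq_zero_iff hσ).1 h0, ae_restrict_of_ae h] with x hx hx'
    simp only [Pi.zero_apply] at hx
    simp [hx] at hx'
  · exact ⟨_, ENNReal.div_ne_top h2 h0, ENNReal.div_mul_cancel h0 h1⟩

namespace Grid

variable (G : Grid X ι N M) {μ : Measure X} {d : ℕ} {C : ℝ}

theorem exists_scale (hg : Growth μ d C) (S : ι) (h0 : μ (G.B 10 S) ≠ 0) :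
    ∃ k, G.nf μ d S * μ (G.B (tt k) S) ^ 2 ≤ cr N d C * 2⁻¹ ^ k * μ (G.B (tt (k + 1)) S) := by
  have h50 : ∀ k, μ (G.B (tt k) S) ≤ μ (G.B 50 S) := fun k =>
    measure_mono (G.B_mono (by linarith [tt_le k]) S)
  unfold nf
  split_ifs with hd
  · refine ⟨0, ?_⟩
    calc (μ (G.B 50 S))⁻¹ * μ (G.B (tt 0) S) ^ 2 ≤ (μ (G.B 50 S))⁻¹ * μ (G.B 50 S) ^ 2 := by
          gcongr; exact G.B_mono (by linarith [tt_le 0]) S
      _ ≤ 1 * μ (G.B 50 S) := by
          rw [sq, ← mul_assoc]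
          exact mul_le_mul_left (ENNReal.inv_mul_le_one _) _
      _ ≤ _ := by
          rw [one_mul, pow_zero, mul_one]
          exact le_trans hd (mul_le_mul' le_self_add
            (measure_mono (G.B_mono (by linarith [le_tt (0 + 1)]) S)))
  · by_contra hcon
    push Not at hcon
    set T := Th d C + 1
    have hT0 : T ≠ 0 := by simp [T]
    have hT : T ≠ ∞ := by simp [T, Th]
    set V := G.V d (G.lev S)
    have h1 : ∀ k, μ (G.B (tt k) S) ≤ T * V * 2⁻¹ ^ k := by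
      intro k
      induction k with
      | zero =>
        rw [pow_zero, mul_one]
        exact (h50 0).trans ((meas_B_le hg S).trans (mul_le_mul_left le_self_add _))
      | succ k ih =>
        have a1 : T * 2⁻¹ ^ k * (2 * μ (G.B (tt (k + 1)) S)) ≤ T * 2⁻¹ ^ k * (T * V * 2⁻¹ ^ k) := by
          calc T * 2⁻¹ ^ k * (2 * μ (G.B (tt (k + 1)) S))
              = 2 * T * 2⁻¹ ^ k * μ (G.B (tt (k + 1)) S) := by ring
            _ ≤ cr N d C * 2⁻¹ ^ k * μ (G.B (tt (k + 1)) S) := by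
                gcongr
                exact le_trans (mul_le_mul_left (by norm_num) _) le_add_self
            _ ≤ V⁻¹ * (T * V * 2⁻¹ ^ k) ^ 2 := (hcon k).le.trans (by gcongr)
            _ = V⁻¹ * V * (T * 2⁻¹ ^ k * (T * V * 2⁻¹ ^ k)) := by ring
            _ ≤ _ := mul_le_of_le_one_left' (ENNReal.inv_mul_le_one _)
        have a2 := (ENNReal.mul_le_mul_iff_right (by simp [hT0]) (by finiteness)).1 a1
        calc μ (G.B (tt (k + 1)) S) = 2⁻¹ * (2 * μ (G.B (tt (k + 1)) S)) := by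
              rw [← mul_assoc, ENNReal.inv_mul_cancel (by norm_num) (by norm_num), one_mul]
          _ ≤ 2⁻¹ * (T * V * 2⁻¹ ^ k) := mul_le_mul_right a2 _
          _ = _ := by ring
    have h2 : Filter.Tendsto (fun n : ℕ => T * V * 2⁻¹ ^ n) Filter.atTop (nhds 0) := by
      have := ENNReal.Tendsto.const_mul (a := T * V)
        (ENNReal.tendsto_pow_atTop_nhds_zero_of_lt_one (r := 2⁻¹) (by norm_num))
        (Or.inr (ENNReal.mul_ne_top hT (G.V_ne_top _ _)))
      simpa using this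
    exact h0 (le_zero_iff.1 (ge_of_tendsto' h2 fun k =>
      (measure_mono (G.B_mono (le_tt k) S)).trans (h1 k)))

end Grid

/-- The hypotheses on the weights and the functions. -/
structure WData (μ : Measure X) (φ g w σ : X → ℝ≥0∞) (A a b : ℝ≥0∞) : Prop where
  mφ : Measurable φ
  mg : Measurable g
  mw : Measurable w
  mσ : Measurable σ
  inv : ∀ᵐ x ∂μ, w x * σ x = 1
  fw : ∀ z r, ∫⁻ x in ball z r, w x ∂μ ≠ ∞
  fσ : ∀ z r, ∫⁻ x in ball z r, σ x ∂μ ≠ ∞
  fφ : ∫⁻ x, φ x ∂μ ≠ ∞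
  fg : ∫⁻ x, g x ∂μ ≠ ∞
  a2 : ∀ z r, 0 < r →
    (∫⁻ x in ball z r, w x ∂μ) * ∫⁻ x in ball z r, σ x ∂μ ≤ A * μ (ball z r) ^ 2
  ha : ∫⁻ x, φ x ^ 2 * w x ∂μ ≤ a ^ 2
  hb : ∫⁻ x, g x ^ 2 * σ x ∂μ ≤ b ^ 2

namespace Grid

variable (G : Grid X ι N M) {μ : Measure X} {d : ℕ} {C : ℝ} [OpensMeasurableSpace X] [Countable ι]
  {φ g w σ : X → ℝ≥0∞} {A a b : ℝ≥0∞}

theorem class_bound (hg : Growth μ d C) (h : WData μ φ g w σ A a b) {m : ι → ℝ≥0∞}
    (hm : G.Pack μ m) (s : Finset ι) (k : ℕ) {c : Fin M} (hc : ∀ S ∈ s, G.col S = c)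
    (hgap : ∀ S ∈ s, ∀ S' ∈ s, G.lev S' < G.lev S → G.lev S' + (k + 1 : ℕ) ≤ G.lev S)
    (hs : ∀ S ∈ s, G.nf μ d S * μ (G.B (tt k) S) ^ 2 ≤
      cr N d C * 2⁻¹ ^ k * μ (G.B (tt (k + 1)) S)) :
    ∑ S ∈ s, m S * G.τ μ d φ g S ≤
      2⁻¹ ^ k * (cr N d C * (2 * (6 * N + 2) * (3 * N + 1) * 4)) * (A * (a * b)) := by
  obtain ⟨L, hL, hl⟩ := G.exists_lam s hc hgap (tt_succ k) (by linarith [tt_le k])
  have h' : ∀ᵐ x ∂μ, σ x * w x = 1 := by simpa only [mul_comm] using h.inv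
  have f1 : ∀ S ∈ s, ∫⁻ x in L S, σ x ∂μ ≠ ∞ := fun S hS =>
    ne_top_of_le_ne_top (h.fσ _ _) (lintegral_mono_set (hL S hS).2.2)
  have f2 : ∀ S ∈ s, ∫⁻ x in L S, w x ∂μ ≠ ∞ := fun S hS =>
    ne_top_of_le_ne_top (h.fw _ _) (lintegral_mono_set (hL S hS).2.2)
  choose! x hx hx' using fun S hS => avg_spec (φ := φ) h.mσ h.inv (f1 S hS)
    (ne_top_of_le_ne_top h.fφ (setLIntegral_le_lintegral _ _))
  choose! y hy hy' using fun S hS => avg_spec (φ := g) h.mw h' (f2 S hS)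
    (ne_top_of_le_ne_top h.fg (setLIntegral_le_lintegral _ _))
  have key := embed μ h.mφ h.mg h.mw h.mσ h.inv (ρ := G.lev) (L := L) (s := s)
    (fun S hS S' hS' e => (eq_or_ne S S').elim (fun e' => Or.inl (e' ▸ Subset.rfl))
      fun e' => (hl S hS S' hS' e' e).imp_left And.right) (fun S hS => (hL S hS).1)
    (c := fun S => m S * μ (G.B (tt (k + 1)) S)) (Λ := 2 * (6 * N + 2) * (3 * N + 1))
    (by finiteness) hx hy (fun u hu => G.pack_carleson hg hm (by linarith [tt_le (k + 1)])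
      (fun S hS => ⟨(hL S (hu hS)).1, (hL S (hu hS)).2.1⟩)
      fun S hS S' hS' e e' => (hl S (hu hS) S' (hu hS') e e').imp_left And.left) f1 f2
    (fun S hS => (hx' S hS).le) (fun S hS => (hy' S hS).le) h.ha h.hb
  calc ∑ S ∈ s, m S * G.τ μ d φ g S
      ≤ ∑ S ∈ s, cr N d C * 2⁻¹ ^ k * A * (m S * μ (G.B (tt (k + 1)) S) * (x S * y S)) := by
        refine Finset.sum_le_sum fun S hS => ?_
        have h10 : G.B 10 S ⊆ L S := (G.B_mono (le_tt _) S).trans (hL S hS).2.1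
        have a1 : (∫⁻ x in L S, w x ∂μ) * ∫⁻ x in L S, σ x ∂μ ≤ A * μ (G.B (tt k) S) ^ 2 :=
          (mul_le_mul' (lintegral_mono_set (hL S hS).2.2) (lintegral_mono_set (hL S hS).2.2)).trans
            (h.a2 _ _ (mul_pos (by linarith [le_tt k]) (G.r_pos _)))
        calc m S * G.τ μ d φ g S
            ≤ m S * (G.nf μ d S * (x S * ∫⁻ x in L S, σ x ∂μ) * (y S * ∫⁻ x in L S, w x ∂μ)) := by
              rw [hx' S hS, hy' S hS, τ]
              gcongr
          _ = m S * (x S * y S) * (G.nf μ d S *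
              ((∫⁻ x in L S, w x ∂μ) * ∫⁻ x in L S, σ x ∂μ)) := by ring
          _ ≤ m S * (x S * y S) * (A * (cr N d C * 2⁻¹ ^ k * μ (G.B (tt (k + 1)) S))) := by
              refine mul_le_mul_right ((mul_le_mul_right a1 _).trans ?_) _
              rw [mul_left_comm]
              exact mul_le_mul_right (hs S hS) _
          _ = _ := by ring
    _ ≤ _ := by
        rw [← Finset.mul_sum]
        exact (mul_le_mul_right key _).trans (le_of_eq (by ring))

theorem weighted (hg : Growth μ d C) (h : WData μ φ g w σ A a b) {m : ι → ℝ≥0∞}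
    (hm : G.Pack μ m) : ∑' S, m S * G.τ μ d φ g S ≤ cq N M d C * (A * (a * b)) := by
  classical
  choose! κ hκ using G.exists_scale hg
  rw [ENNReal.tsum_eq_iSup_sum]
  refine iSup_le fun s₀ => ?_
  set s := s₀.filter fun S => μ (G.B 10 S) ≠ 0
  rw [← Finset.sum_filter_of_ne (p := fun S => μ (G.B 10 S) ≠ 0) fun S _ hS e => hS (by
    rw [τ, setLIntegral_measure_zero _ _ e, mul_zero, zero_mul, mul_zero]),
    ← Finset.sum_fiberwise_of_maps_to (g := κ) (t := s.image κ)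
      fun S hS => Finset.mem_image_of_mem _ hS, cq, cz, ← ENNReal.tsum_mul_right,
      ← ENNReal.tsum_mul_right]
  refine le_trans (Finset.sum_le_sum fun k _ => ?_) (ENNReal.sum_le_tsum _)
  have hk : (0 : ℤ) < (k + 1 : ℕ) := by positivity
  rw [← Finset.sum_fiberwise_of_maps_to (g := fun S => (G.lev S % (k + 1 : ℕ), G.col S))
    (t := Finset.Ico (0 : ℤ) (k + 1 : ℕ) ×ˢ Finset.univ) fun S _ => Finset.mem_product.2
      ⟨Finset.mem_Ico.2 ⟨Int.emod_nonneg _ hk.ne', Int.emod_lt_of_pos _ hk⟩, Finset.mem_univ _⟩]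
  refine (Finset.sum_le_card_nsmul _ _ _ fun p _ => G.class_bound hg h hm _ k (c := p.2)
    (fun S hS => congrArg Prod.snd (Finset.mem_filter.1 hS).2) (fun S hS S' hS' e => ?_)
    fun S hS => ?_).trans (le_of_eq ?_)
  · have e1 : G.lev S % (k + 1 : ℕ) = p.1 := congrArg Prod.fst (Finset.mem_filter.1 hS).2
    have e2 : G.lev S' % (k + 1 : ℕ) = p.1 := congrArg Prod.fst (Finset.mem_filter.1 hS').2
    have := Int.le_of_dvd (sub_pos.2 e) (Int.ModEq.dvd (e2.trans e1.symm))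
    omega
  · obtain ⟨h1, h2⟩ := Finset.mem_filter.1 (Finset.mem_filter.1 hS).1
    rw [← h2]
    exact hκ S (Finset.mem_filter.1 h1).2
  · simp only [Finset.card_product, Int.card_Ico, sub_zero, Int.toNat_natCast, Finset.card_univ,
      Fintype.card_fin, nsmul_eq_mul, Nat.cast_mul]
    ring

end Grid

end Pool.Agent.Lib.MP_f88263_an.A2
end

-- part Pool.Agent.Lib.MP_f88263_an.A2.Final
section

/-! The linear weighted bound. -/

open MeasureTheory Metric Set Filter Topology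
open scoped ENNReal

namespace Pool.Agent.Lib.MP_f88263_an.A2

variable {X ι 𝕜 : Type} [MetricSpace X] [MeasurableSpace X] [RCLike 𝕜] {N M : ℕ}

theorem exists_sq (y : ℝ≥0∞) : ∃ a : ℝ≥0∞, a ^ 2 = y :=
  ⟨y ^ (1 / 2 : ℝ), by rw [← ENNReal.rpow_natCast, ← ENNReal.rpow_mul]; norm_num⟩

/-- The final constant. -/
noncomputable def cf (N M d : ℕ) (δ C : ℝ) : ℝ≥0∞ := N * (cs N d δ C * cq N M d C) + 1

theorem cf_ne_top (N M d : ℕ) {δ : ℝ} (hδ : 0 < δ) (C : ℝ) : cf N M d δ C ≠ ∞ := by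
  have := cs_ne_top N d hδ C
  have := cq_ne_top N M d C
  unfold cf
  finiteness

theorem Setup.bb_bound {μ : Measure X} {d : ℕ} {δ C : ℝ} {K : X → X → 𝕜}
    {op : (X → 𝕜) → X → 𝕜} (h : Setup μ d δ C K op) (G : Grid X ι N M) [BorelSpace X]
    [Countable ι] {w σ : X → ℝ≥0∞} (mw : Measurable w) (mσ : Measurable σ)
    (inv : ∀ᵐ x ∂μ, w x * σ x = 1) (hwt : ∀ x, w x ≠ ∞) (fw : ∀ z r, ∫⁻ x in ball z r, w x ∂μ ≠ ∞)
    (fσ : ∀ z r, ∫⁻ x in ball z r, σ x ∂μ ≠ ∞) {A : ℝ≥0∞} (hA : ∀ z r, 0 < r →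
      (∫⁻ x in ball z r, w x ∂μ) * ∫⁻ x in ball z r, σ x ∂μ ≤ A * μ (ball z r) ^ 2)
    {f : X → 𝕜} (hf : BB f) :
    ∫⁻ x, ‖op f x‖ₑ ^ 2 * w x ∂μ ≤ (cf N M d δ C * A) ^ 2 * ∫⁻ x, ‖f x‖ₑ ^ 2 * w x ∂μ := by
  rcases isEmpty_or_nonempty X with hX | ⟨⟨z⟩⟩
  · simp
  obtain ⟨a, ha⟩ := exists_sq (∫⁻ x, ‖f x‖ₑ ^ 2 * w x ∂μ)
  have mT := (h.meas f).enorm
  set E : ℕ → Set X := fun n => ball z n ∩ {x | ‖op f x‖ₑ * w x ≤ n} ∩ {x | ‖op f x‖ₑ ≤ n}
  have mE : ∀ n, MeasurableSet (E n) := fun n => (measurableSet_ball.inter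
    (measurableSet_le (mT.mul mw) measurable_const)).inter (measurableSet_le mT measurable_const)
  have hE : ⋃ n, E n = univ := by
    refine eq_univ_of_forall fun x => ?_
    obtain ⟨n1, h1⟩ := exists_nat_gt (dist x z)
    obtain ⟨n2, h2⟩ := ENNReal.exists_nat_gt (ENNReal.mul_ne_top (enorm_ne_top (x := op f x)) (hwt x))
    obtain ⟨n3, h3⟩ := ENNReal.exists_nat_gt (enorm_ne_top (x := op f x))
    refine mem_iUnion.2 ⟨n1 + n2 + n3, ⟨h1.trans_le ?_, h2.le.trans ?_⟩, h3.le.trans ?_⟩ <;>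
      exact Nat.cast_le.2 (by omega)
  have hmono : Monotone E := fun n m hnm x hx =>
    ⟨⟨ball_subset_ball (Nat.cast_le.2 hnm) hx.1.1,
      le_trans (b := (n : ℝ≥0∞)) hx.1.2 (Nat.cast_le.2 hnm)⟩,
      le_trans (b := (n : ℝ≥0∞)) hx.2 (Nat.cast_le.2 hnm)⟩
  rw [← setLIntegral_univ, ← hE, setLIntegral_iUnion_of_directed _ hmono.directed_le]
  refine iSup_le fun n => ?_
  set g := (E n).indicator fun x => ‖op f x‖ₑ * w x with hg
  have mg : Measurable g := (mT.mul mw).indicator (mE n)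
  have gb : ∀ x, g x ≤ (ball z n).indicator (fun _ => (n : ℝ≥0∞)) x := fun x => by
    by_cases hx : x ∈ E n
    · rw [hg, indicator_of_mem hx, indicator_of_mem hx.1.1]; exact hx.1.2
    · simp [hg, hx]
  have gf : ∫⁻ x, g x ∂μ ≠ ∞ := by
    refine ne_top_of_le_ne_top ?_ (lintegral_mono gb)
    rw [lintegral_indicator_const measurableSet_ball]
    exact ENNReal.mul_ne_top (by simp) (h.growth.ne_top_of_isBounded isBounded_ball)
  set J := ∫⁻ x in E n, ‖op f x‖ₑ ^ 2 * w x ∂μ with hJd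
  have e1 : ∫⁻ x, ‖op f x‖ₑ * g x ∂μ = J := by
    rw [hJd, ← lintegral_indicator (mE n)]
    refine lintegral_congr fun x => ?_
    by_cases hx : x ∈ E n <;> simp [hg, hx, sq, mul_assoc]
  have e2 : ∫⁻ x, g x ^ 2 * σ x ∂μ = J := by
    rw [hJd, ← lintegral_indicator (mE n)]
    refine lintegral_congr_ae ?_
    filter_upwards [inv] with x hx'
    by_cases hx : x ∈ E n
    · rw [hg, indicator_of_mem hx, indicator_of_mem hx, mul_pow, sq (w x), mul_assoc, mul_assoc, hx',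
        mul_one]
    · simp [hg, hx]
  have hJ : J ≠ ∞ := by
    rw [← e1]
    refine ne_top_of_le_ne_top (ENNReal.mul_ne_top (ENNReal.natCast_ne_top n) gf) ?_
    rw [← lintegral_const_mul _ mg]
    refine lintegral_mono fun x => ?_
    by_cases hx : x ∈ E n
    · exact mul_le_mul_left hx.2 _
    · simp [hg, hx]
  obtain ⟨b, hb⟩ := exists_sq J
  have key := h.sparse G hf mg (ENNReal.natCast_ne_top n)
    (fun x => (gb x).trans (indicator_le_self' (fun _ _ => zero_le) x))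
    (isBounded_ball.subset (support_indicator_subset.trans fun x hx => hx.1.1))
    fun s hs => G.weighted h.growth (A := A) (a := a) (b := b) ⟨hf.meas.enorm, mg, mw, mσ, inv, fw,
      fσ, (hf.integrable h.growth).2.ne, gf, hA, ha.ge, (hb.trans e2.symm).ge⟩ hs
  rw [e1, ← hb] at key
  rw [← ha, ← hb, ← mul_pow]
  refine pow_le_pow_left' ?_ 2
  rcases eq_or_ne b 0 with h0 | h0
  · rw [h0]; exact zero_le
  refine (ENNReal.mul_le_mul_iff_left h0 fun e => hJ (by rw [← hb, e]; simp)).1 ?_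
  rw [← sq]
  refine key.trans (le_trans (le_of_eq (by ring)) (mul_le_mul_left (mul_le_mul_left
    (mul_le_mul_left (show N * (cs N d δ C * cq N M d C) ≤ _ from le_self_add) A) a) b))

omit [MetricSpace X] in
theorem eLpNorm_sq (f : X → 𝕜) (μ : Measure X) : eLpNorm f 2 μ ^ 2 = ∫⁻ x, ‖f x‖ₑ ^ 2 ∂μ := by
  simpa using eLpNorm_nnreal_pow_eq_lintegral (μ := μ) (f := f) (p := 2) (by norm_num)

theorem BB.memLp {f : X → 𝕜} (hf : BB f) {μ : Measure X} {d : ℕ} {C : ℝ}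
    (hg : Growth μ d C) : MemLp f 2 μ := by
  obtain ⟨R, hR⟩ := hf.bdd
  exact ((memLp_top_of_bound hf.meas.aestronglyMeasurable R
    (Eventually.of_forall hR)).mono_exponent_of_measure_support_ne_top
      (s := Function.support f) (fun _ hx => not_not.1 hx) (hg.ne_top_of_isBounded hf.supp) le_top)

open Q1 in
open Classical in
theorem setup_of [ProperSpace X] [BorelSpace X] {μ : Measure X} {d : ℕ} {δ C₀ C₁ C₂ C : ℝ}
    {K : X → X → 𝕜} {T : L2Operator 𝕜 μ} (hδ : 0 < δ) (hC : 0 ≤ C) (h0 : C₀ ≤ C) (h1 : C₁ ≤ C)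
    (h2 : C₂ ≤ C) (hμ : HasGrowth d C₀ μ) (hK : IsCZKernel d δ C₁ K) (hT : IsAssociated T K)
    (hn : T.norm ≤ C₂) :
    Setup μ d δ C K fun f => if hf : MemLp f 2 μ then T.app (hf.toLp f) else 0 := by
  have hg : Growth μ d C := fun x r hr => (hμ x r hr).trans
    (ENNReal.ofReal_le_ofReal (mul_le_mul_of_nonneg_right h0 (by positivity)))
  have : IsLocallyFiniteMeasure μ := ⟨fun x => ⟨ball x 1, ball_mem_nhds x one_pos,
    (hg.ne_top_of_isBounded isBounded_ball).lt_top⟩⟩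
  refine ⟨hδ, hC, inferInstance, hg, fun x y hxy => (hK.1 x y hxy).trans (by gcongr),
    fun x x' y hxy hd => (hK.2 x x' y hxy hd).trans (by gcongr), fun f => ?_, fun f g hf hg' => ?_,
    fun f hf => ?_, fun f hf => ?_⟩
  · split_ifs
    · exact Lp.stronglyMeasurable _
    · exact stronglyMeasurable_zero
  · simp only [dif_pos (hf.memLp hg), dif_pos (hg'.memLp hg), dif_pos ((hf.add hg').memLp hg),
      L2Operator.app]
    rw [MemLp.toLp_add (hf.memLp hg) (hg'.memLp hg), map_add]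
    exact Lp.coeFn_add _ _
  · simp only [dif_pos (hf.memLp hg), L2Operator.app]
    rw [← eLpNorm_sq, ← eLpNorm_sq, ← mul_pow, ← Lp.enorm_def, ← Lp.enorm_toLp (hf.memLp hg),
      ← ofReal_norm, ← ofReal_norm, ← ENNReal.ofReal_mul hC]
    exact pow_le_pow_left' (ENNReal.ofReal_le_ofReal (T.op.le_of_opNorm_le (hn.trans h2) _)) 2
  · simp only [dif_pos (hf.memLp hg)]
    exact hT f _ hf.supp.isCompact_closure

open Q1 in
theorem main_of_grid [ProperSpace X] [BorelSpace X] [Countable ι] (G : Grid X ι N M)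
    {μ : Measure X} {d : ℕ} {δ C₀ C₁ C₂ C : ℝ}
    {K : X → X → 𝕜} {T : L2Operator 𝕜 μ} (hδ : 0 < δ) (hC : 0 ≤ C) (h0 : C₀ ≤ C) (h1 : C₁ ≤ C)
    (h2 : C₂ ≤ C) (hμ : HasGrowth d C₀ μ) (hK : IsCZKernel d δ C₁ K) (hT : IsAssociated T K)
    (hn : T.norm ≤ C₂) {w₀ : X → ℝ} (hw : IsWeight μ w₀) :
    T.WeightedBound w₀ (cf N M d δ C * a2Char μ w₀) := by
  classical
  have h := setup_of hδ hC h0 h1 h2 hμ hK hT hn
  obtain ⟨w, mw, hww⟩ := hw.2.1.aestronglyMeasurable.aemeasurable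
  have e1 : (fun x => ENNReal.ofReal (w₀ x)) =ᵐ[μ] fun x => ENNReal.ofReal (w x) := by
    filter_upwards [hww] with x hx using by rw [hx]
  have e2 : (fun x => ENNReal.ofReal (w₀ x)⁻¹) =ᵐ[μ] fun x => ENNReal.ofReal (w x)⁻¹ := by
    filter_upwards [hww] with x hx using by rw [hx]
  have fin : ∀ {v : X → ℝ}, LocallyIntegrable v μ → ∀ z r,
      ∫⁻ x in ball z r, ENNReal.ofReal (v x) ∂μ ≠ ∞ := fun hv z r =>
    ((lintegral_ofReal_le_lintegral_enorm _).trans_lt ((hv.integrableOn_isCompact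
      (isCompact_closedBall z r)).mono_set ball_subset_closedBall).2).ne
  have mw' : Measurable fun x => ENNReal.ofReal (w x) := mw.ennreal_ofReal
  have key : ∀ f : X → 𝕜, BB f → ∀ hf : MemLp f 2 μ,
      wNorm μ w₀ (T.app (hf.toLp f)) ≤ cf N M d δ C * a2Char μ w₀ * wNorm μ w₀ f := by
    intro f hb hf
    have := h.bb_bound G mw' mw.inv.ennreal_ofReal (A := a2Char μ w₀) (by
        filter_upwards [hw.1, hww] with x hx hx'
        rw [hx'] at hx
        rw [← ENNReal.ofReal_mul hx.le, Pi.inv_apply, mul_inv_cancel₀ hx.ne', ENNReal.ofReal_one])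
      (fun _ => ENNReal.ofReal_ne_top)
      (fun z r => by rw [← lintegral_congr_ae (ae_restrict_of_ae e1)]; exact fin hw.2.1 z r)
      (fun z r => by
        simp only [Pi.inv_apply]
        rw [← lintegral_congr_ae (ae_restrict_of_ae e2)]; exact fin hw.2.2 z r)
      (fun z r hr => by
        simp only [Pi.inv_apply]
        rw [← lintegral_congr_ae (ae_restrict_of_ae e1), ← lintegral_congr_ae (ae_restrict_of_ae e2)]
        by_cases hz : μ (ball z r) = 0
        · simp [setLIntegral_measure_zero _ _ hz]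
        have hz' := h.growth.ne_top_of_isBounded (isBounded_ball (x := z) (r := r))
        refine le_trans (le_of_eq ?_) (mul_le_mul_left
          (le_iSup_of_le z (le_iSup₂_of_le r hr le_rfl)) _)
        rw [sq, mul_mul_mul_comm, ENNReal.div_mul_cancel hz hz', ENNReal.div_mul_cancel hz hz'])
      hb
    simp only [dif_pos hf] at this
    refine le_of_sq_le_sq' ?_
    rw [mul_pow, wNorm, wNorm, withDensity_congr_ae e1, eLpNorm_sq, eLpNorm_sq,
      lintegral_withDensity_eq_lintegral_mul _ mw' (hb.meas.enorm.pow_const 2),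
      lintegral_withDensity_eq_lintegral_mul _ mw'
        (show Measurable fun x => ‖T.app (hf.toLp f) x‖ₑ ^ 2 from
          (Lp.stronglyMeasurable _).enorm.pow_const 2)]
    simpa only [Pi.mul_apply, mul_comm (ENNReal.ofReal (w _))] using this
  intro f
  rcases isEmpty_or_nonempty X with hX | ⟨⟨z⟩⟩
  · simp [wNorm, eLpNorm_of_isEmpty]
  have mf := Lp.stronglyMeasurable f
  set E : ℕ → Set X := fun n => ball z n ∩ {x | ‖f x‖ ≤ n}
  have mE : ∀ n, MeasurableSet (E n) := fun n =>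
    measurableSet_ball.inter (measurableSet_le mf.norm.measurable measurable_const)
  have bE : ∀ n, BB ((E n).indicator f) := fun n => ⟨mf.indicator (mE n), ⟨n, fun x => by
    by_cases hx : x ∈ E n
    · rw [indicator_of_mem hx]; exact hx.2
    · simp [hx]⟩, isBounded_ball.subset (support_indicator_subset.trans inter_subset_left)⟩
  have lim : Tendsto (fun n => ((bE n).memLp h.growth).toLp _) atTop (𝓝 f) := by
    conv => enter [3, 1]; rw [← Lp.toLp_coeFn f (Lp.memLp f)]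
    rw [Lp.tendsto_Lp_iff_tendsto_eLpNorm'']
    have h3 : Tendsto (fun n => ∫⁻ x, ‖((E n).indicator f - f) x‖ₑ ^ 2 ∂μ) atTop
        (𝓝 (∫⁻ _, 0 ∂μ)) := by
      refine tendsto_lintegral_of_dominated_convergence (fun x => ‖f x‖ₑ ^ 2)
        (fun n => ((bE n).meas.sub mf).enorm.pow_const 2) (fun n => Eventually.of_forall fun x => ?_)
        (by rw [← eLpNorm_sq]; exact ENNReal.pow_ne_top (Lp.eLpNorm_ne_top f))
        (Eventually.of_forall fun x => tendsto_const_nhds.congr' ?_)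
      · by_cases hx : x ∈ E n <;> simp [hx]
      · obtain ⟨n1, h1⟩ := exists_nat_gt (dist x z)
        obtain ⟨n2, h2⟩ := exists_nat_gt ‖f x‖
        filter_upwards [eventually_ge_atTop n1, eventually_ge_atTop n2] with n a1 a2
        have : x ∈ E n := ⟨h1.trans_le (Nat.cast_le.2 a1), h2.le.trans (Nat.cast_le.2 a2)⟩
        simp [this]
    have h4 := ((ENNReal.continuous_rpow_const (y := 1 / 2)).tendsto _).comp h3
    simp only [lintegral_const, zero_mul, one_div, inv_pos, Nat.ofNat_pos,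
      ENNReal.zero_rpow_of_pos] at h4
    refine h4.congr fun n => ?_
    rw [Function.comp, ← eLpNorm_sq, ← ENNReal.rpow_natCast, ← ENNReal.rpow_mul]
    norm_num
  obtain ⟨ns, -, hns⟩ := (tendstoInMeasure_of_tendsto_Lp
    ((T.op.continuous.tendsto f).comp lim)).exists_seq_tendsto_ae
  refine Lp.eLpNorm_le_of_ae_tendsto (u := atTop) (Eventually.of_forall fun i => ?_)
    (fun i => (Lp.stronglyMeasurable _).aestronglyMeasurable)
    ((withDensity_absolutelyContinuous μ _).ae_le hns)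
  exact (key _ (bE _) _).trans (mul_le_mul_right (eLpNorm_indicator_le _) _)

open Q1 in
theorem main (𝕜 : Type) [RCLike 𝕜] (d n : ℕ) (δ C₀ C₁ C₂ : ℝ) (hδ : 0 < δ) :
    ∃ C : ℝ, ∀ (μ : Measure (EuclideanSpace ℝ (Fin d)))
      (K : EuclideanSpace ℝ (Fin d) → EuclideanSpace ℝ (Fin d) → 𝕜)
      (T : L2Operator 𝕜 μ) (w : EuclideanSpace ℝ (Fin d) → ℝ),
      HasGrowth n C₀ μ → IsCZKernel n δ C₁ K → IsAssociated T K → T.norm ≤ C₂ → IsWeight μ w →
      T.WeightedBound w (ENNReal.ofReal C * a2Char μ w) := by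
  refine ⟨ENNReal.toReal (cf ((2 * (1000 * (d + 1)) + 1) ^ d)
    (Fintype.card (Fin d → ZMod (1000 * (d + 1)))) n δ (max (max 0 C₀) (max C₁ C₂))),
    fun μ K T w hμ hK hT hn hw => ?_⟩
  rw [ENNReal.ofReal_toReal (cf_ne_top _ _ n hδ _)]
  exact main_of_grid (gridEuc d) hδ (by simp) (by simp) (by simp) (by simp) hμ hK hT hn hw

end Pool.Agent.Lib.MP_f88263_an.A2
end
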